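import Pool.Agent.Work.MP_71c844_lc.EV.Defs

/-!
# Block EV: statements with complete proofs

Write `pr_<name> : St<name>` in `EV/I_<name>.lean` (namespace `Pool.Agent.EV`). Every item is
independent of the others (statements of other items are used only as hypotheses, where the
statement says so). Models: `RecClique.lean` (gadget), `RecCode.lean`, `FormCore.lean`.
-/

namespace Pool.Agent.EV

open Finset
open Pool.Agent.NegLim (pull gph)
open Pool.Agent.LayCirc

/-! ## The gadget -/

/-- **GaY** (MEDIUM; model `clique_of_planted` in `RecClique.lean`). A good seed whose variables are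
all true gives a clique. PROOF. For every part choose the canonical vertex `can z`: for
`z = .inl q` the vertex `.inl (q, (psum A.c u q.1 q.2.1, u q.2))`, for `z = .inr (.inl β)` a block
vertex `w` with `A.blk w = β`, `A.lab w = lw A.c u β` (from `Good`), for `z = .inr (.inr i)` the vertex
`.inr (.inr i)`. Then `A.part (can z) = z` and `A.Cons u (can z)`, so `z ↦ ι (can z)` is injective and
its image has `card Pt` elements. It is a clique of `gph (pull (A.proj ι) x)`: let `z ≠ z'`. If
`s(ι (can z), ι (can z'))` is the pair of a variable `t`, i.e. `= s(ι (.inr (A.endL t)), ι (.inr (A.endR t)))`, then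
(`Sym2.eq_iff`, `ι.injective`) the two ends of `t` are `can z`, `can z'`, hence consistent with `u`, so
`x t = true`, and the value of the projected input at this pair is `x t` (the chosen variable is `t`
by `A.end_uniq` and `ι.injective`, `Sym2.map.injective` or `Sym2.eq_iff`). Otherwise the pair is the
constant `decide (∃ a b, ..)`, true with `a = can z`, `b = can z'`: the parts `z`, `z'` are different,
`¬ A.Zr` by the second half of `Good`, and the seed `u` is consistent with both. -/
def StGaY : Prop := ∀ (Bl Bv E : Type) [Fintype Bl] [Fintype Bv] [Fintype E] (κ m d v : ℕ)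
  (A : Gad Bl Bv E κ m d) (ι : Vx Bl Bv κ m d ↪ Fin v) (x : E → Bool) (u : Fin m → ZMod 2),
  A.Good u → (∀ t, A.Cons u (.inr (A.endL t)) → A.Cons u (.inr (A.endR t)) → x t = true) →
  ¬ (gph (pull (A.proj ι) x)).CliqueFree (Fintype.card (Pt Bl κ m d))

/-- **GaN** (MEDIUM-HARD; model `planted_of_clique` in `RecClique.lean`). PROOF. Let `S` be a clique
with `card Pt ≥ 2` vertices. Every vertex of `S` has a neighbour in `S`, so it is in the range of `ι`
(a true variable pair or a true constant pair consists of such vertices). Adjacent vertices are in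
different parts (`A.end_ne` for variable pairs, `fixAdj` otherwise; `fixAdj` is symmetric by
`A.zero_symm`), so `S` has exactly one vertex `σ z` in every part `z` (counting, as in the model).
For `z ≠ z'` the pair of `σ z`, `σ z'` is true; if it is not a variable pair then
`A.fixAdj (σ z) (σ z')`; a pair with a gadget vertex (`.inl _`) is never a variable pair, so there is
a seed `u'` consistent with both. Write `σ (.inl q) = .inl (q, (p q, b q))`. Fix an output bit `o₀`
(`Bl` nonempty, `1 ≤ κ`) and put `u l = b (o₀, l)`. Claim A: `b (o, l) = u l` (if `o ≠ o₀` the two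
vertices are consistent with a common seed). Claim B: `p (o, l) = psum A.c u o l` by induction on `l`:
`l = 0`: the sum is empty, `p (o, 0) = psum A.c u' o 0 = A.c.2 o` (use any other part); `l + 1`: a
common seed `u'` of the parts `(o, l)`, `(o, l + 1)` gives `p (o, l + 1) = psum A.c u' o (l + 1) =
psum A.c u' o l + A.c.1 o l * u' l = p (o, l) + A.c.1 o l * b (o, l)`. Claim C: for the block vertex
`w = σ (.inr (.inl β))` and the bit `t`, a common seed of it and the part `((β, t), m - 1)` gives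
`A.lab w t = word A.c u' (β, t) = psum A.c u' (β, t) (m - 1) + A.c.1 .. * u' (m - 1) = word A.c u (β, t)`
(`1 ≤ m`). So all `σ z` are consistent with `u`, which gives the first half of `Good`. A vertex
consistent with `u` in the part `z` is `σ z` (for blocks by `A.lab_inj`). If two block vertices
`w`, `w'` are consistent with `u` then they are `σ z`, `σ z'`; if `A.zero w w'` then `z ≠ z'`
(`A.zero_blk`), the pair is adjacent, it is not a variable pair (`A.zero_var`), so `fixAdj` gives
`¬ A.Zr`, a contradiction: second half of `Good`. If both ends of the variable `t` are consistent with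
`u` then they are `σ z ≠ σ z'`, adjacent, and the value at this pair is `x t`. -/
def StGaN : Prop := ∀ (Bl Bv E : Type) [Fintype Bl] [Fintype Bv] [Fintype E] [Nonempty Bl]
  (κ m d v : ℕ) (A : Gad Bl Bv E κ m d) (ι : Vx Bl Bv κ m d ↪ Fin v) (x : E → Bool),
  1 ≤ κ → 1 ≤ m → ¬ (gph (pull (A.proj ι) x)).CliqueFree (Fintype.card (Pt Bl κ m d)) →
  ∃ u : Fin m → ZMod 2, A.Good u ∧
    ∀ t, A.Cons u (.inr (A.endL t)) → A.Cons u (.inr (A.endR t)) → x t = true

/-- **Em** (EASY). PROOF. The complement of the range of `f` has at least `card A` elements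
(`Finset.card_compl`, `Finset.card_image_of_injective` or `Fintype.card_congr`), so there is an
embedding `g` of `A` into it (`Function.Embedding.nonempty_of_card_le` for the subtype); take
`Sum.elim g f`. -/
def StEm : Prop := ∀ (A B : Type) [Fintype A] [Fintype B] (v : ℕ) (f : B ↪ Fin v),
  Fintype.card A + Fintype.card B ≤ v → ∃ ι : A ⊕ B ↪ Fin v, ∀ b, ι (.inr b) = f b

open Classical in
/-- **InB** (MEDIUM; hypotheses `StGaY`, `StGaN`, `StEm`). The instance with two classes for every
position. PROOF. `Bl = Fin N × Fin 2`, `Bv = {x : Fin v // χ x ≠ none}`, `blk x = (χ x).get ..`,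
`lab x = lam x`, `E = {t : Fin N × (Fin 2 → Fin L → ZMod 2) // t.2 ∈ TB F χ lam t.1}`; for `t : E` the
membership in `TB` gives `x y` with `s(x, y) ∈ F`, `χ x = some (t.1, 0)`, `χ y = some (t.1, 1)`,
`t.2 0 = lam x`, `t.2 1 = lam y`: `endL t = .inl x`, `endR t = .inl y` (`x`, `y` are unique because `lam`
is injective). `zero a b`: for some `j`, (`χ a = some (j, 0)` and `χ b = some (j, 1)`, or the same with
`a`, `b` exchanged), and `s(a, b) ∉ F`. The fields of `Gad` are immediate; `end_uniq`: the blocks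
`(j, 0)` of the left and `(j', 1)` of the right end are different, so `s(endL t, endR t) = s(endL t', endR t')` gives equal
ends, so equal positions and equal labels, `t = t'`. By `StEm` there is
`ι : Vx ↪ Fin v` with `ι (.inr (.inl x)) = x` for all block vertices (rearrange
`Vx = gadget ⊕ (Bv ⊕ Fin d)` as `(gadget ⊕ Fin d) ⊕ Bv`; `card gadget = 4 * (2 N L m)`). Put
`π e = Sum.map id Subtype.val (A.proj ι e)`. If `π e = .inr t` then `e = s(ι (.inr (endL t)), ..) = s(x, y) ∈ F`.
`pull π x = pull (A.proj ι) (fun t => x t.1)`. `card Pt = 2 N L m + 2 N + d = k`. Now `StGaN`, `StGaY`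
and: `A.Good u ↔ ∀ j, sy c u j ∈ TB F χ lam j` (→: the block vertices `w₀`, `w₁` of the blocks
`(j, 0)`, `(j, 1)` have the labels `sy c u j 0`, `sy c u j 1`, and `¬ zero w₀ w₁`, so `s(w₀, w₁) ∈ F`;
←: `x`, `y` from the membership are the block vertices, and two block vertices with the right labels
in the blocks `(j, 0)`, `(j, 1)` are these `x`, `y`); and if `u` is good, then the variables `t` both of
whose ends are consistent with `u` are exactly the `(j, sy c u j)`. -/
def StInB : Prop := StGaY → StGaN → StEm → ∀ (v N L m d k : ℕ) (F : Finset (Sym2 (Fin v)))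
  (χ : Fin v → Option (Fin N × Fin 2)) (lam : Fin v ↪ (Fin L → ZMod 2))
  (c : Cd ((Fin N × Fin 2) × Fin L) m), 1 ≤ N → 1 ≤ L → 1 ≤ m → 2 * N * L * m + 2 * N + d = k →
  4 * (2 * N * L * m) + (univ.filter (fun x => χ x ≠ none)).card + d ≤ v →
  ∃ π : Sym2 (Fin v) → Bool ⊕ (Fin N × (Fin 2 → Fin L → ZMod 2)),
    (∀ e t, π e = .inr t → e ∈ F) ∧
    ∀ x : Fin N × (Fin 2 → Fin L → ZMod 2) → Bool, (¬ (gph (pull π x)).CliqueFree k ↔
      ∃ u, (∀ j, sy c u j ∈ TB F χ lam j) ∧ ∀ j, x (j, sy c u j) = true)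

open Classical in
/-- **InS** (MEDIUM; hypotheses `StGaY`, `StGaN`, `StEm`). The instance with a star: the variables are
the pairs of the centre `a₀` and the class vertices. PROOF. As `InB`, with `Bl = Fin N × Fin 1`,
`Bv = {x : Fin v // χ x ≠ none}`, `blk x = ((χ x).get .., 0)`, `lab x = lam x`,
`E = {t : Fin N × (Fin 1 → Fin L → ZMod 2) // t.2 ∈ TS χ lam t.1}`, `endL t = .inr 0` (the universal
vertex number `0`, `1 ≤ d`), `endR t = .inl x` with `χ x = some t.1`, `t.2 0 = lam x`, `zero = False`. The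
embedding sends the universal vertex `0` to `a₀` and every block vertex to itself (`StEm` with
`B = Bv ⊕ Unit` or `Option Bv`; `a₀` is not a block vertex), and the other universal vertices and the
gadget elsewhere. `card Pt = N L m + N + d = k`, `card gadget = 4 * (N L m)`.
`A.Good u ↔ ∀ j, sy c u j ∈ TS χ lam j`. -/
def StInS : Prop := StGaY → StGaN → StEm → ∀ (v N L m d k : ℕ) (a₀ : Fin v)
  (χ : Fin v → Option (Fin N)) (lam : Fin v ↪ (Fin L → ZMod 2))
  (c : Cd ((Fin N × Fin 1) × Fin L) m), χ a₀ = none → 1 ≤ N → 1 ≤ L → 1 ≤ m → 1 ≤ d →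
  N * L * m + N + d = k →
  4 * (N * L * m) + (univ.filter (fun x => χ x ≠ none)).card + d ≤ v →
  ∃ π : Sym2 (Fin v) → Bool ⊕ (Fin N × (Fin 1 → Fin L → ZMod 2)),
    (∀ e t, π e = .inr t → ∃ x, χ x ≠ none ∧ e = s(a₀, x)) ∧
    ∀ x : Fin N × (Fin 1 → Fin L → ZMod 2) → Bool, (¬ (gph (pull π x)).CliqueFree k ↔
      ∃ u, (∀ j, sy c u j ∈ TS χ lam j) ∧ ∀ j, x (j, sy c u j) = true)

/-! ## Random affine codes -/

/-- **FbA** (EASY). PROOF. For fixed `c.1` exactly one `c.2` (namely `w - ∑ ..`) gives `word c u = w`; so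
the number of codes is the number `card (O → Fin m → ZMod 2)`, and
`card (Cd O m) = card (O → Fin m → ZMod 2) * 2^card O`. (Or: all fibres of `c ↦ word c u` are
translates of each other.) -/
def StFbA : Prop := ∀ (O : Type) [Fintype O] [DecidableEq O] (m : ℕ) (u : Fin m → ZMod 2)
  (w : O → ZMod 2),
  (univ.filter (fun c : Cd O m => word c u = w)).card * 2 ^ Fintype.card O =
    Fintype.card (Cd O m)

/-- **FbB** (EASY-MEDIUM, pairwise independence). PROOF. Let `u l ≠ u' l`, so `u l - u' l = 1` in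
`ZMod 2`. Given `(w, w')` let `c₀.1 o = Pi.single l (w o - w' o)` and
`c₀.2 o = w o - (w o - w' o) * u l`; then `word c₀ u = w`, `word c₀ u' = w'`. `word` is additive in the
code, so `c ↦ c + c₀` is a bijection from the fibre over `(0, 0)` to the fibre over `(w, w')` of
`c ↦ (word c u, word c u')`. So all `(2^card O)^2` fibres have the same number of elements, and their
sum is `card (Cd O m)` (`Finset.card_eq_sum_card_fiberwise`). -/
def StFbB : Prop := ∀ (O : Type) [Fintype O] [DecidableEq O] (m : ℕ) (u u' : Fin m → ZMod 2)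
  (_ : u ≠ u') (w w' : O → ZMod 2),
  (univ.filter (fun c : Cd O m => word c u = w ∧ word c u' = w')).card *
    (2 ^ Fintype.card O) ^ 2 = Fintype.card (Cd O m)

/-- **SmC** (EASY-MEDIUM, second moment; hypotheses `StFbA`, `StFbB`). PROOF. Write `n = card (Cd O m)`,
`W = 2^card O`, `t = T.card`, `X c = cnt c T`, `μ = mu m T = 2^m t / W`.
`∑ c, X c = ∑ u, ∑ w ∈ T, card {c | word c u = w} = 2^m * t * n / W = n μ` (`StFbA`), and
`∑ c, (X c)^2 = ∑ u, ∑ u', card {c | word c u ∈ T ∧ word c u' ∈ T}`; the terms with `u = u'` give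
`n μ`, the others (`StFbB`) give at most `2^m * 2^m * t^2 * n / W^2 = n μ^2`. So
`∑ c, (X c - μ)^2 ≤ n μ + n μ^2 - 2 μ n μ + n μ^2 = n μ`. -/
def StSmC : Prop := StFbA → StFbB → ∀ (O : Type) [Fintype O] [DecidableEq O] (m : ℕ)
  (T : Finset (O → ZMod 2)),
  ∑ c : Cd O m, ((cnt c T : ℝ) - mu m T) ^ 2 ≤ (Fintype.card (Cd O m) : ℝ) * mu m T

/-- **ChC** (EASY-MEDIUM, Chebyshev; hypotheses `StFbA`, `StFbB`, `StSmC`). PROOF. Let `μ j = mu m (T j)`.
If `c` is bad for `j`, i.e. `cnt c (T j) < μ j / 2` or `cnt c (T j) > 3 μ j / 2`, then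
`(cnt c (T j) - μ j)^2 ≥ (μ j)^2 / 4`; so by `StSmC` the number of bad `c` for `j` is at most
`n * μ j / ((μ j)^2 / 4) = 4 n / μ j` where `n = card (Cd O m)`, and `4 n / μ j < n / card J` by the
hypothesis (`card J ≥ 1` if there is a `j`; if `J` is empty take any `c`). So the total number of bad
`c` is less than `n`, and some `c` is good for all `j`. -/
def StChC : Prop := StFbA → StFbB → StSmC → ∀ (O : Type) [Fintype O] [DecidableEq O] (m : ℕ)
  (J : Type) [Fintype J] (T : J → Finset (O → ZMod 2)),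
  (∀ j, 4 * (Fintype.card J : ℝ) < mu m (T j)) →
  ∃ c : Cd O m, ∀ j, mu m (T j) / 2 ≤ (cnt c (T j) : ℝ) ∧ (cnt c (T j) : ℝ) ≤ 3 / 2 * mu m (T j)

/-- **PiT** (EASY-MEDIUM). The number of words with prescribed symbols. PROOF. Currying is a bijection
of the words with the functions `Fin N → (Fin σ → Fin κ → ZMod 2)`; the words of `TA T A` correspond to
`Fintype.piFinset T'` with `T' j = {e}` if `(j, e) ∈ A` (at most one such `e` by `hA2`) and `T' j = T j`
otherwise. `Fintype.card_piFinset`, and `∏ j, (T' j).card * ∏ p ∈ A, (T p.1).card = ∏ j, (T j).card`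
(`p ↦ p.1` is injective on `A`; `Finset.prod_image`, split the product over `j ∈ A.image Prod.fst` and
the rest). -/
def StPiT : Prop := ∀ (N σ κ : ℕ) (T : Fin N → Finset (Fin σ → Fin κ → ZMod 2))
  (A : Finset (Fin N × (Fin σ → Fin κ → ZMod 2))) (_ : ∀ p ∈ A, p.2 ∈ T p.1)
  (_ : ∀ p ∈ A, ∀ p' ∈ A, p.1 = p'.1 → p = p'),
  (TA T A).card * ∏ p ∈ A, (T p.1).card = ∏ j, (T j).card

open Classical in
/-- **Cod** (MEDIUM; hypotheses `StFbA`, `StFbB`, `StSmC`, `StChC`, `StPiT`). The code. PROOF. Put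
`O = (Fin N × Fin σ) × Fin κ`, `|O| = N σ κ`, `Π = ∏ j, (T j).card ≥ 1`; `Π ≤ 2^|O|` (`StPiT` with `A = ∅`:
`Π = (TA T ∅).card ≤ card (O → ZMod 2)`). Let `m` be the least number with
`2^(8bL+3) * 2^|O| ≤ 2^m * Π` (`Nat.find`; `m₀ = 8bL+3+|O|` has the property, so `m ≤ m₀`; `m = 0` has not, so
`1 ≤ m` and by minimality `2^m * Π < 2^(8bL+4) * 2^|O|`). Let `μ(A) = mu m (TA T A)`; so
`2^(8bL+3) ≤ μ(∅) < 2^(8bL+4)`. Index set `J`: the sets `A` with `A.card ≤ 2b`, `∀ p ∈ A, p.2 ∈ T p.1`,
and `p.1 = p'.1 → p = p'` on `A` (a subtype of `Finset`). For `A ∈ J`,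
`μ(A) * ∏ p ∈ A, (T p.1).card = μ(∅)` (`StPiT`), and `(T j).card ≤ 2^(2L)`, so
`μ(A) ≥ 2^(8bL+3) / 2^(4bL) = 2^(4bL+3)`. The number of elements of `J` is at most the number of
subsets with at most `2b` elements of the set of all `(j, e)` with `e ∈ T j`, a set with
`∑ j, (T j).card` elements, so at most `(∑ + 1)^(2b) ≤ 2^(4bL)` (`NegLim.card_lowSets_le`, or
`Finset.card_powersetCard` sums, or an injection into functions `Fin (2b) → Option (..)`). So
`4 card J < μ(A)`, and `StChC` gives a code `c` with `μ(A)/2 ≤ X(A) ≤ 3 μ(A)/2` for all `A ∈ J`, where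
`X(A) = cnt c (TA T A)` is the number of `u` with `word c u ∈ TA T A` (i.e. `∀ j, sy c u j ∈ T j` and
`∀ p ∈ A, sy c u p.1 = p.2`). `X(∅) ≥ 2^(8bL+2) > 0` gives the first claim and
`2 X(∅) ≤ 3 μ(∅) < 2^(8bL+6) ≤ 2^N` the second. Third claim: `A = ∅` is trivial. If `A` is not in `J`,
some `p ∈ A` has `p.2 ∉ T p.1` or two elements of `A` have the same first and different second
components: the left side is `0`. Otherwise `A` has `a ≥ 1` elements and
`X(A) ≤ (3/2) μ(A) = (3/2) μ(∅) / ∏ p ∈ A, (T p.1).card ≤ 3 X(∅) / (3q)^a ≤ X(∅) (1/q)^a`. -/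
def StCod : Prop := StFbA → StFbB → StSmC → StChC → StPiT → ∀ (N b L κ σ : ℕ)
  (T : Fin N → Finset (Fin σ → Fin κ → ZMod 2)), 1 ≤ b → 1 ≤ L → 8 * b * L + 6 ≤ N →
  (∀ j, (T j).Nonempty) → (∑ j, (T j).card) + 1 ≤ 2 ^ (2 * L) →
  ∃ m : ℕ, 1 ≤ m ∧ m ≤ 8 * b * L + 3 + N * σ * κ ∧ ∃ c : Cd ((Fin N × Fin σ) × Fin κ) m,
    (∃ u, ∀ j, sy c u j ∈ T j) ∧
    2 * (univ.filter (fun u => ∀ j, sy c u j ∈ T j)).card ≤ 2 ^ N ∧
    ∀ A : Finset (Fin N × (Fin σ → Fin κ → ZMod 2)), A.card ≤ 2 * b → ∀ q : ℝ, 0 < q →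
      (∀ j, 3 * q ≤ (T j).card) →
      ((univ.filter (fun u => (∀ j, sy c u j ∈ T j) ∧ ∀ p ∈ A, sy c u p.1 = p.2)).card : ℝ) ≤
        ((univ.filter (fun u => ∀ j, sy c u j ∈ T j)).card : ℝ) * (1 / q) ^ A.card

/-! ## Vertex classes -/

/-- **Pf** (EASY). The number of functions with prescribed values. PROOF. The functions `χ` with
`χ x = g x` for `x ∈ S` are `Fintype.piFinset (fun x => if x ∈ S then {g x} else univ)`;
`Fintype.card_piFinset`, `Finset.prod_ite`, `Finset.card_sdiff`. -/
def StPf : Prop := ∀ (v : ℕ) (Ω : Type) [Fintype Ω] [DecidableEq Ω] (S : Finset (Fin v))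
  (g : Fin v → Ω),
  (univ.filter (fun χ : Fin v → Ω => ∀ x ∈ S, χ x = g x)).card * Fintype.card Ω ^ S.card =
    Fintype.card Ω ^ v

open Classical in
/-- **Pe** (EASY-MEDIUM; hypothesis `StPf`). Three counts. PROOF. `Ω = Fin M × Fin 2` has `2 M` elements.
(1) For `e = s(x, y)`, `x ≠ y`: `gd χ i e` iff `(χ x, χ y)` is `((i,0),(i,1))` or `((i,1),(i,0))`, two
disjoint cases with `(2M)^(v-2)` functions each (`StPf` with `S = {x, y}`):
`card * (2M)^2 = 2 (2M)^v`, so `card * (2 M^2) = (2M)^v`. (2) If `e ≠ e'` have a common vertex,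
`e = s(x, y)`, `e' = s(x, z)`, `x, y, z` different: both hold iff `χ x = (i, s)` and
`χ y = χ z = (i, 1 - s)`: two cases, `card * (2M)^3 = 2 (2M)^v`, so `card * (4 M^3) = (2M)^v`. (3) If
`e = s(x, y)`, `e' = s(z, w)` with four different vertices: four cases, `card * (2M)^4 = 4 (2M)^v`, so
`card * (4 M^4) = (2M)^v`. -/
def StPe : Prop := StPf → ∀ (v M : ℕ) (i : Fin M) (e e' : Sym2 (Fin v)), ¬ e.IsDiag → ¬ e'.IsDiag →
  ((univ.filter (fun χ : Fin v → Fin M × Fin 2 => gd χ i e)).card * (2 * M ^ 2) = (2 * M) ^ v) ∧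
  (e ≠ e' → (∃ x, x ∈ e ∧ x ∈ e') →
    (univ.filter (fun χ : Fin v → Fin M × Fin 2 => gd χ i e ∧ gd χ i e')).card * (4 * M ^ 3) =
      (2 * M) ^ v) ∧
  ((¬ ∃ x, x ∈ e ∧ x ∈ e') →
    (univ.filter (fun χ : Fin v → Fin M × Fin 2 => gd χ i e ∧ gd χ i e')).card * (4 * M ^ 4) =
      (2 * M) ^ v)

open Classical in
/-- **Mv** (EASY-MEDIUM, second moment; hypotheses `StPf`, `StPe`). PROOF. `n = (2M)^v` functions,
`f = F.card`, `X χ = card {e ∈ F | gd χ i e}`, `μ = f / (2 M^2)`. `∑ χ, X χ = f n / (2 M^2) = n μ` and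
`∑ χ, (X χ)^2 = ∑ e ∈ F, ∑ e' ∈ F, card {χ | gd χ i e ∧ gd χ i e'}`: the pairs `e = e'` give `n μ`; the
pairs `e ≠ e'` with a common vertex are at most `2 f Δ` (for each `e` at most `Δ` for each of its two
vertices) and give at most `2 f Δ n / (4 M^3) = n μ Δ / M`; the others give at most
`f^2 n / (4 M^4) = n μ^2`. So `∑ χ, (X χ - μ)^2 ≤ n μ (1 + Δ / M)`. -/
def StMv : Prop := StPf → StPe → ∀ (v M Δ : ℕ) (i : Fin M) (F : Finset (Sym2 (Fin v))),
  (∀ e ∈ F, ¬ e.IsDiag) → (∀ x, (F.filter (fun e => x ∈ e)).card ≤ Δ) →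
  ∑ χ : Fin v → Fin M × Fin 2, (((F.filter (fun e => gd χ i e)).card : ℝ) -
      F.card / (2 * (M : ℝ) ^ 2)) ^ 2 ≤
    (2 * (M : ℝ)) ^ v * (F.card / (2 * (M : ℝ) ^ 2) * (1 + Δ / M))

open Classical in
/-- **Lg** (MEDIUM; hypotheses `StPf`, `StPe`, `StMv`). Graphs without a vertex of large degree. PROOF. Put
`M = 4 N`, `f = F.card ≥ 1024 N^2 > 0`, `Δ = f / (256 N)` (natural division; by the hypothesis all
degrees are at most `Δ`, and `256 N Δ ≤ f`), `μ = f / (2 M^2) = f / (32 N^2)`. Sum `StMv` over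
`i : Fin M`: for some `χ : Fin v → Fin M × Fin 2`, `∑ i, (X i - μ)^2 ≤ M μ (1 + Δ / M) = μ (4 N + Δ)`,
where `X i = card {e ∈ F | gd χ i e}` (average over the `(2M)^v` functions;
`Finset.exists_le_of_sum_le`). The `i` with `X i < μ / 2` contribute at least `μ^2 / 4` each, so there
are at most `4 (4 N + Δ) / μ = 128 N^2 (4 N + Δ) / f ≤ N` of them, because
`128 N (4 N + Δ) = 512 N^2 + 128 N Δ ≤ f / 2 + f / 2`. So at least `3 N` indices have `X i ≥ μ / 2`.
Take three disjoint sets of `N` such indices (`Finset.exists_subset_card_eq`); the sets of vertices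
with first component in them are disjoint, so for one of the three, `G`, at most `v / 3` vertices `x`
have `(χ x).1 ∈ G`. Let `r : G ≃ Fin N` and put `χ' x = some (r (χ x).1, (χ x).2)` if `(χ x).1 ∈ G`,
`none` otherwise. Then the number for `j = r i` is `X i ≥ f / (64 N^2)`. -/
def StLg : Prop := StPf → StPe → StMv → ∀ (v N : ℕ) (F : Finset (Sym2 (Fin v))), 1 ≤ N →
  (∀ e ∈ F, ¬ e.IsDiag) → 1024 * N ^ 2 ≤ F.card →
  (∀ x, 256 * N * (F.filter (fun e => x ∈ e)).card ≤ F.card) →
  ∃ χ : Fin v → Option (Fin N × Fin 2), 3 * (univ.filter (fun x => χ x ≠ none)).card ≤ v ∧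
    ∀ j, F.card ≤ 64 * N ^ 2 *
      (F.filter (fun e => ∃ x y, e = s(x, y) ∧ χ x = some (j, 0) ∧ χ y = some (j, 1))).card

open Classical in
/-- **Sg** (EASY-MEDIUM). A vertex of large degree. PROOF. Let `B` be the set of the `x` with
`s(a₀, x) ∈ F`; `x ≠ a₀` for `x ∈ B` as no pair of `F` is diagonal, and `x ↦ s(a₀, x)` is a bijection of `B`
with the pairs of `F` that contain `a₀`, so `F.card < 256 N * B.card` and `B.card ≤ v`. Take `B' ⊆ B` with
`min B.card (v / 3)` elements. As `v ≥ 12`, `v / 3 ≥ v / 4 ≥ B.card / 4` (real numbers), so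
`B.card ≤ 4 * B'.card` and `F.card ≤ 1024 N * B'.card`; with `1024 N^2 ≤ F.card` this gives
`N ≤ B'.card`. Let `h = B'.card / N ≥ 1`, so `B'.card < N (h + 1) ≤ 2 N h`. Number the elements of `B'` by
`0, ..., B'.card - 1` (`B'.equivFin` or `orderEmbOfFin`) and let `χ x = some j` if `x ∈ B'` has the number
`n` with `n / h = j < N`, `none` otherwise. The class `j` has exactly `h` elements, and
`F.card ≤ 1024 N * 2 N h = 2048 N^2 h`. -/
def StSg : Prop := ∀ (v N : ℕ) (F : Finset (Sym2 (Fin v))) (a₀ : Fin v), 12 ≤ v → 1 ≤ N →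
  (∀ e ∈ F, ¬ e.IsDiag) → 1024 * N ^ 2 ≤ F.card →
  F.card < 256 * N * (F.filter (fun e => a₀ ∈ e)).card →
  ∃ χ : Fin v → Option (Fin N), χ a₀ = none ∧ (∀ x, χ x ≠ none → s(a₀, x) ∈ F) ∧
    3 * (univ.filter (fun x => χ x ≠ none)).card ≤ v ∧
    ∀ j, F.card ≤ 2048 * N ^ 2 * (univ.filter (fun x => χ x = some j)).card

open Classical in
/-- **CdB** (EASY). PROOF. The map `(x, y) ↦ (lam x, lam y)` gives a bijection of the pairs `e = s(x, y)` on
the right with `TB F χ lam j`: `x` and `y` are determined by `e` because their classes are different,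
and by the labels because `lam` is injective. For the second claim the sets on the right are
disjoint subsets of the set of all pairs; (card of the disjoint union) `≤ F.card`. -/
def StCdB : Prop := ∀ (v N L : ℕ) (F : Finset (Sym2 (Fin v)))
  (χ : Fin v → Option (Fin N × Fin 2)) (lam : Fin v ↪ (Fin L → ZMod 2)),
  (∀ j, (TB F χ lam j).card =
    (F.filter (fun e => ∃ x y, e = s(x, y) ∧ χ x = some (j, 0) ∧ χ y = some (j, 1))).card) ∧
  ∑ j, (TB F χ lam j).card ≤ F.card

open Classical in
/-- **CdS** (EASY). PROOF. `x ↦ (fun _ => lam x)` is a bijection of the class `j` with `TS χ lam j`; the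
classes are disjoint subsets of `Fin v`. -/
def StCdS : Prop := ∀ (v N L : ℕ) (χ : Fin v → Option (Fin N)) (lam : Fin v ↪ (Fin L → ZMod 2)),
  (∀ j, (TS χ lam j).card = (univ.filter (fun x => χ x = some j)).card) ∧
  ∑ j, (TS χ lam j).card ≤ v

/-! ## Gates that read `F` -/

/-- **MxD** (EASY-MEDIUM; model `det` and the lemmas before it in `FormCore.lean`). PROOF. By `det c o x y`
it is enough that the frozen functions agree at all `i ∈ tgt c o`. If `Reads c F i` this is the
hypothesis. If not, then `val (fz c b) x i = val (fz c b) y i` because no path of the circuit leads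
from a variable of `F` to `i`: by strong induction on the number of the gate, a gate `i` of `c` with
`¬ Reads c F i` has `val (fz c b) x i = val (fz c b) y i`: if `Cut c i` both are the constant `b`
(`fz_cut`); otherwise `fz c b i = c i` (`fz_not`); a variable gate has its variable outside `F`, where
`x` and `y` agree; for AND, OR the inputs do not read `F` (`Reads.step`, `inputs`) and the induction
hypothesis applies (`val_and`, `val_or`, ..: use the lemmas of `LayDef.lean`, `LayConv.lean`); arbitrary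
gates are cut. -/
def StMxD : Prop := ∀ (ι : Type) (s : ℕ) (c : Circuit ι s) (o : Fin s) (F : Finset ι)
  (x y : ι → Bool), (∀ e, e ∉ F → x e = y e) →
  (∀ i ∈ tgt c o, Reads c F i → ∀ b, val (fz c b) x i = val (fz c b) y i) →
  val c x o = val c y o

open Classical in
/-- **MxC** (EASY-MEDIUM; model `card_tgt` in `FormCore.lean`). PROOF. As `card_tgt`: the elements of
`tgt c o` that read `F` are at most `o` and the inputs reading `F` of the cut gates; a cut gate is an
arbitrary gate (its inputs that read `F` are counted in `wiresF`) or a mixing gate; a mixing gate has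
two inputs, and if one of them reads `F` then the gate itself reads `F` (`Reads.step`), so the mixing
gates contribute at most `2 * numMixingF c F`. -/
def StMxC : Prop := ∀ (ι : Type) (s : ℕ) (c : Circuit ι s) (o : Fin s) (F : Finset ι),
  ((tgt c o).filter (fun i => Reads c F i)).card ≤ wiresF c F + 2 * numMixingF c F + 1

end Pool.Agent.EV
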