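import Pool.Agent.Work.MP_71c844_lc.EV.Core
import Pool.Agent.Work.MP_71c844_lc.EV.Stmts

/-!
# Block EV: the choice of the parameters
-/

namespace Pool.Agent.EV

open Finset Pool.Agent.LayCirc
open Pool.Agent.NegLim (pull gph gval numNot lowSets mapVar Dich)

/-- The statements of the items. -/
structure Items : Prop where
  GaY : StGaY
  GaN : StGaN
  Em : StEm
  InB : StInB
  InS : StInS
  FbA : StFbA
  FbB : StFbB
  SmC : StSmC
  ChC : StChC
  PiT : StPiT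
  Cod : StCod
  Pf : StPf
  Pe : StPe
  Mv : StMv
  Lg : StLg
  Sg : StSg
  CdB : StCdB
  CdS : StCdS
  MxD : StMxD
  MxC : StMxC

/-- The three ways to bound the non-monotone part of a circuit. -/
def Cl {v s : ℕ} (C : Circuit (Sym2 (Fin v)) s) (F : Finset (Sym2 (Fin v))) (M : ℕ) : Prop :=
  (∀ x : ℕ → (Sym2 (Fin v) → Bool), Monotone x → (∀ i, ∀ e ∉ F, x i e = x 0 e) →
      (Set.range fun i => pattern C (x i)).ncard ≤ M) ∨
    wiresF C F + numMixingF C F + 1 ≤ M ∨ (FormulaLike C ∧ wiresF C F + numArb C + 1 ≤ M)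

lemma Cl.one {v s : ℕ} {C : Circuit (Sym2 (Fin v)) s} {F : Finset (Sym2 (Fin v))} {M : ℕ}
    (h : Cl C F M) : 1 ≤ M := by
  rcases h with h | h | h
  · have h1 := h (fun _ _ => true) monotone_const (fun _ _ _ => rfl)
    rw [Set.range_const, Set.ncard_singleton] at h1
    exact h1
  · omega
  · omega

lemma numMixingF_le {v s : ℕ} (C : Circuit (Sym2 (Fin v)) s) (F : Finset (Sym2 (Fin v))) :
    numMixingF C F ≤ numMixing C := by
  classical
  unfold numMixingF numMixing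
  apply Finset.card_le_card
  intro i hi
  rw [mem_filter] at hi ⊢
  exact ⟨mem_univ _, hi.2.1⟩

/-- projected inputs agree outside `F` -/
lemma inp_agree {v : ℕ} {E : Type*} [Fintype E] [DecidableEq E] {π : Sym2 (Fin v) → Bool ⊕ E}
    {F : Finset (Sym2 (Fin v))} (hπ : ∀ e t, π e = .inr t → e ∈ F) (X Y : Finset E)
    (e : Sym2 (Fin v)) (he : e ∉ F) : inp π X e = inp π Y e := by
  unfold inp pull
  rcases h : π e with b | t
  · rfl
  · exact absurd (hπ e t h) he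

lemma inp_mono {v : ℕ} {E : Type*} [Fintype E] [DecidableEq E] (π : Sym2 (Fin v) → Bool ⊕ E)
    (X : ℕ → Finset E) (hX : Monotone X) : Monotone (fun i => inp π (X i)) := by
  intro i j hij e
  show inp π (X i) e ≤ inp π (X j) e
  unfold inp pull
  rcases π e with b' | t
  · exact le_rfl
  · have := hX hij
    by_cases h : t ∈ X i
    · simp only [h, this h, le_refl]
    · simp only [h, decide_false]
      exact Bool.false_le _

/-- The bound from the code and the projection. -/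
lemma step (I : Items) {N b σ κ m v k L K s M : ℕ} {q : ℝ}
    {T : Fin N → Finset (Fin σ → Fin κ → ZMod 2)} {c : Cd ((Fin N × Fin σ) × Fin κ) m}
    (D : CodeData N b σ κ m T c q) {F : Finset (Sym2 (Fin v))}
    {π : Sym2 (Fin v) → Bool ⊕ (Fin N × (Fin σ → Fin κ → ZMod 2))}
    (hπ1 : ∀ e t, π e = .inr t → e ∈ F)
    (hπ : ∀ x : Fin N × (Fin σ → Fin κ → ZMod 2) → Bool, (¬ (gph (pull π x)).CliqueFree k ↔
      ∃ u, (∀ j, sy c u j ∈ T j) ∧ ∀ j, x (j, sy c u j) = true))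
    (hb : 1 ≤ b) (hL2 : 2 ≤ L) (hbL : 2 * b < 2 ^ L) (hK : 1 ≤ K) (hKL : K ≤ 2 * L)
    (hq : 64 * 2 ^ K ≤ q) (C : Circuit (Sym2 (Fin v)) s) (o : Fin s)
    (hC : ∀ x : Sym2 (Fin v) → Bool, val C x o = true ↔
      ¬ (SimpleGraph.fromEdgeSet {e | x e = true}).CliqueFree k)
    (hS : 2 * s < 2 ^ b) (hM : Cl C F M) (hN : N * 2 ^ (σ * κ) + 1 ≤ 2 ^ (3 * L)) :
    2 ^ K ≤ 3168 * b * L ^ 3 * M := by
  classical
  have hbL1 : 2 ≤ b * L := by nlinarith
  have hSR : 2 ^ K * ((2 * s + 1) * (2 ^ (3 * L)) ^ (2 * b)) ≤ 2 ^ (9 * b * L) := by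
    calc 2 ^ K * ((2 * s + 1) * (2 ^ (3 * L)) ^ (2 * b))
        ≤ 2 ^ (2 * L) * (2 ^ b * (2 ^ (3 * L)) ^ (2 * b)) := by
          apply Nat.mul_le_mul (Nat.pow_le_pow_right (by norm_num) hKL)
          exact Nat.mul_le_mul_right _ (by omega)
      _ = 2 ^ (2 * L + (b + 3 * L * (2 * b))) := by
          rw [← pow_mul, ← pow_add, ← pow_add]
      _ ≤ 2 ^ (9 * b * L) := by
          apply Nat.pow_le_pow_right (by norm_num)
          nlinarith
  have hR : 1 ≤ 9 * b * L := by nlinarith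
  rcases hM with h | h
  · have hM1 : 1 ≤ M := Cl.one (Or.inl h)
    have key := core_pat (ℓ := L) (R := 9 * b * L) (B := 2 ^ (3 * L)) D hπ hb hbL hK hq C o hC hM1
      (fun X hX => h _ (inp_mono π X hX) (fun i e he => inp_agree hπ1 _ _ e he)) hS.le hN hSR hR
      (by omega)
    calc 2 ^ K ≤ 44 * K * (L * (9 * b * L) * M) := key
      _ ≤ 44 * (2 * L) * (L * (9 * b * L) * M) := by gcongr
      _ = 792 * (b * L ^ 3 * M) := by ring
      _ ≤ 3168 * (b * L ^ 3 * M) := Nat.mul_le_mul_right _ (by norm_num)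
      _ = 3168 * b * L ^ 3 * M := by ring
  · have hW : wiresF C F + numMixingF C F + 1 ≤ M := by
      rcases h with h | h
      · exact h
      · have h1 := numMixing_le C h.1
        have h2 := numMixingF_le C F
        omega
    let Θ : Type := {i : Fin s // i ∈ (tgt C o).filter (fun i => Reads C F i)} × Bool
    have hΘ : Fintype.card Θ ≤ 4 * M := by
      have h1 := I.MxC (Sym2 (Fin v)) s C o F
      have h2 : Fintype.card Θ = ((tgt C o).filter (fun i => Reads C F i)).card * 2 := by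
        rw [Fintype.card_prod, Fintype.card_coe, Fintype.card_bool]
      rw [h2]
      have h3 : ((tgt C o).filter (fun i => Reads C F i)).card ≤
          wiresF C F + 2 * numMixingF C F + 1 := by convert h1
      omega
    have hsz : LayCirc.size C ≤ 2 * s := by
      have h1 : LayCirc.size C ≤ s := by
        unfold LayCirc.size
        refine (Finite.card_subtype_le _).trans ?_
        rw [Nat.card_eq_fintype_card, Fintype.card_fin]
      omega
    have key := core_fam (ℓ := L) (R := 9 * b * L) (B := 2 ^ (3 * L)) (S := 2 * s) D hπ hb hbL hK hq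
      (Θ := Θ) (fun t => mono C t.1.1 t.2) (fun t => numNot_mono _ _ _)
      (fun t => (size_mono C t.1.1 t.2).trans hsz) (by
        intro X Y hXY
        rw [← hC, ← hC]
        have h1 : val C (inp π X) o = val C (inp π Y) o := by
          refine I.MxD (Sym2 (Fin v)) s C o F (inp π X) (inp π Y)
            (fun e he => inp_agree hπ1 X Y e he) ?_
          intro i hi hr b'
          have h2 := hXY (⟨i, by rw [mem_filter]; exact ⟨hi, hr⟩⟩, b')
          rw [output_mono, output_mono] at h2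
          exact h2
        rw [h1]) hS.le hN hSR hR (by omega)
    calc 2 ^ K ≤ 44 * K * (Fintype.card Θ * (L * (9 * b * L))) := key
      _ ≤ 44 * (2 * L) * (4 * M * (L * (9 * b * L))) := by gcongr
      _ = 3168 * b * L ^ 3 * M := by ring

lemma exists_scale (Y Q : ℕ) (hY : 1 ≤ Y) (hYQ : Y ≤ Q) :
    ∃ K' : ℕ, 2 ^ K' * Y ≤ Q ∧ Q < 2 ^ (K' + 1) * Y := by
  refine ⟨Nat.log 2 (Q / Y), ?_, ?_⟩
  · have h1 : Q / Y ≠ 0 := by
      have := Nat.div_pos hYQ (by omega)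
      omega
    have h2 := Nat.pow_log_le_self 2 h1
    exact (Nat.mul_le_mul_right _ h2).trans (Nat.div_mul_le_self _ _)
  · have h2 := Nat.lt_pow_succ_log_self (b := 2) (by norm_num) (Q / Y)
    have h3 : Q < Y * (Q / Y + 1) := Nat.lt_mul_div_succ Q (by omega)
    calc Q < Y * (Q / Y + 1) := h3
      _ ≤ Y * 2 ^ (Nat.log 2 (Q / Y) + 1) := Nat.mul_le_mul_left _ h2
      _ = 2 ^ (Nat.log 2 (Q / Y) + 1) * Y := mul_comm _ _

/-- the code for given sets of symbols -/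
lemma exists_code (I : Items) {N b L κ σ Q : ℕ} (T : Fin N → Finset (Fin σ → Fin κ → ZMod 2))
    (hb : 1 ≤ b) (hL : 1 ≤ L) (hN : 8 * b * L + 6 ≤ N) (hQ : 1 ≤ Q)
    (hT : ∀ j, 3 * Q ≤ (T j).card) (hsum : (∑ j, (T j).card) + 1 ≤ 2 ^ (2 * L)) :
    ∃ m : ℕ, 1 ≤ m ∧ m ≤ 8 * b * L + 3 + N * σ * κ ∧ ∃ c : Cd ((Fin N × Fin σ) × Fin κ) m,
      CodeData N b σ κ m T c (Q : ℝ) := by
  obtain ⟨m, hm1, hm2, c, h1, h2, h3⟩ := I.Cod I.FbA I.FbB I.SmC I.ChC I.PiT N b L κ σ T hb hL hN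
    (fun j => Finset.card_pos.mp (by have := hT j; omega)) hsum
  refine ⟨m, hm1, hm2, c, h1, by convert h2, fun A hA => ?_⟩
  have := h3 A hA (Q : ℝ) (by exact_mod_cast hQ) (fun j => by exact_mod_cast hT j)
  convert this

theorem main (I : Items) (v k w s M : ℕ) (hv : 2 ≤ v)
    (hk : 2 ^ 13 * (w + 1) ^ 2 * (Nat.log 2 v + 1) ^ 4 ≤ k) (hkv : 2 * k ≤ v)
    (C : Circuit (Sym2 (Fin v)) s) (o : Fin s) (hs : s < 2 ^ w)
    (hC : ∀ x : Sym2 (Fin v) → Bool, val C x o = true ↔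
      ¬ (SimpleGraph.fromEdgeSet {e | x e = true}).CliqueFree k)
    (F : Finset (Sym2 (Fin v))) (hF : ∀ e ∈ F, ¬ e.IsDiag) (hM : Cl C F M) :
    F.card < 2 ^ 39 * M * (w + 1) ^ 3 * (Nat.log 2 v + 1) ^ 5 := by
  classical
  obtain ⟨b, hb⟩ : ∃ b, b = w + 1 := ⟨_, rfl⟩
  obtain ⟨L, hL⟩ : ∃ L, L = Nat.log 2 v + 1 := ⟨_, rfl⟩
  rw [← hb, ← hL] at hk ⊢
  have hb1 : 1 ≤ b := by omega
  have hL2 : 2 ≤ L := by
    have : 1 ≤ Nat.log 2 v := Nat.log_pos (by norm_num) hv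
    omega
  have hvL : v < 2 ^ L := by rw [hL]; exact Nat.lt_pow_succ_log_self (by norm_num) v
  have hS : 2 * s < 2 ^ b := by rw [hb, pow_succ]; omega
  have hM1 : 1 ≤ M := hM.one
  by_contra hcon
  push Not at hcon
  -- abbreviations
  obtain ⟨β, hβ⟩ : ∃ β, β = b * L := ⟨_, rfl⟩
  have hβ2 : 2 ≤ β := by rw [hβ]; nlinarith
  have hbβ : b ≤ β := by rw [hβ]; exact Nat.le_mul_of_pos_right _ (by omega)
  obtain ⟨G, hG⟩ : ∃ G, G = b ^ 2 * L ^ 4 := ⟨_, rfl⟩
  have hGk : 8192 * G ≤ k := by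
    calc 8192 * G = 2 ^ 13 * b ^ 2 * L ^ 4 := by rw [hG]; ring
      _ ≤ k := hk
  have hβG : 8 * β ≤ 2 * G := by
    rw [hβ, hG]
    have e1 : 4 * L ≤ L ^ 3 := by nlinarith [Nat.mul_le_mul hL2 hL2]
    have e2 : b ≤ b ^ 2 := by nlinarith
    calc 8 * (b * L) = 2 * (b * (4 * L)) := by ring
      _ ≤ 2 * (b ^ 2 * L ^ 3) := by gcongr
      _ ≤ 2 * (b ^ 2 * L ^ 4) :=
          Nat.mul_le_mul_left _ (Nat.mul_le_mul_left _
            (Nat.pow_le_pow_right (by omega) (by norm_num)))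
  obtain ⟨N, hN⟩ : ∃ N, N = 11 * β := ⟨_, rfl⟩
  have hN1 : 1 ≤ N := by omega
  have hN8 : 8 * b * L + 6 ≤ N := by
    have : 8 * b * L = 8 * β := by rw [hβ]; ring
    omega
  have hGL : 4 * β ≤ b * L ^ 3 := by
    rw [hβ]
    have e1 : 4 * L ≤ L ^ 3 := by nlinarith [Nat.mul_le_mul hL2 hL2]
    calc 4 * (b * L) = b * (4 * L) := by ring
      _ ≤ b * L ^ 3 := Nat.mul_le_mul_left _ e1
  have hNv : N ≤ v := by omega
  have hbL : 2 * b < 2 ^ L := by omega
  -- the size of `F`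
  have hFv : F.card + 1 ≤ 2 ^ (2 * L) := by
    have h1 : F.card ≤ Fintype.card (Sym2 (Fin v)) := Finset.card_le_univ F
    rw [Sym2.card, Fintype.card_fin, Nat.choose_two_right] at h1
    have h2 : (v + 1) * (v + 1 - 1) / 2 ≤ (v + 1) * v := by
      rw [Nat.add_sub_cancel]
      exact Nat.div_le_self _ _
    have h3 : (v + 1) * v ≤ 2 ^ L * v := Nat.mul_le_mul_right _ hvL
    have h4 : 2 ^ L * v + 2 ^ L ≤ 2 ^ L * 2 ^ L := by
      have : 2 ^ L * (v + 1) ≤ 2 ^ L * 2 ^ L := Nat.mul_le_mul_left _ hvL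
      linarith
    have h5 : 2 ^ (2 * L) = 2 ^ L * 2 ^ L := by rw [two_mul, pow_add]
    have h6 : 1 ≤ 2 ^ L := Nat.one_le_two_pow
    omega
  have hFbig : 2 ^ 39 * b ^ 3 * L ^ 5 ≤ F.card := by
    refine le_trans ?_ hcon
    calc 2 ^ 39 * b ^ 3 * L ^ 5 = 2 ^ 39 * 1 * b ^ 3 * L ^ 5 := by ring
      _ ≤ 2 ^ 39 * M * b ^ 3 * L ^ 5 := by gcongr
  have hb3 : 1 ≤ b ^ 3 := Nat.one_le_pow _ _ (by omega)
  have hNF : 1024 * N ^ 2 ≤ F.card := by
    refine le_trans ?_ hFbig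
    calc 1024 * N ^ 2 = 123904 * b ^ 2 * L ^ 2 := by rw [hN, hβ]; ring
      _ ≤ 2 ^ 39 * b ^ 3 * L ^ 5 := by
          gcongr <;> first | omega | norm_num
  -- the alphabet size
  obtain ⟨Z, hZ⟩ : ∃ Z, Z = 247808 * b ^ 2 * L ^ 2 := ⟨_, rfl⟩
  have hZN : 2048 * N ^ 2 = Z := by rw [hZ, hN, hβ]; ring
  have hZ1 : 1 ≤ Z := by rw [hZ]; exact Nat.one_le_iff_ne_zero.mpr (by positivity)
  obtain ⟨Q, hQ⟩ : ∃ Q, Q = F.card / (3 * Z) := ⟨_, rfl⟩
  have hQF : Q * (3 * Z) ≤ F.card := by rw [hQ]; exact Nat.div_mul_le_self _ _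
  have hFQ : F.card < 3 * Z * (Q + 1) := by rw [hQ]; exact Nat.lt_mul_div_succ _ (by omega)
  have hQ128 : 128 ≤ Q := by
    rw [hQ, Nat.le_div_iff_mul_le (by omega)]
    refine le_trans ?_ hFbig
    calc 128 * (3 * Z) = 95158272 * b ^ 2 * L ^ 2 := by rw [hZ]; ring
      _ ≤ 2 ^ 39 * b ^ 3 * L ^ 5 := by
          gcongr <;> first | omega | norm_num
  obtain ⟨K, hK1, hK2⟩ := exists_scale 64 Q (by norm_num) (by omega)
  have hK : 1 ≤ K := by
    by_contra h
    have : K = 0 := by omega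
    rw [this] at hK2
    norm_num at hK2
    omega
  have hKL : K ≤ 2 * L := by
    have h1 : 2 ^ K < 2 ^ (2 * L) := by
      have h2 : 2 ^ K ≤ 2 ^ K * 64 := Nat.le_mul_of_pos_right _ (by norm_num)
      have h3 : Q ≤ F.card := by
        rw [hQ]; exact Nat.div_le_self _ _
      omega
    exact ((Nat.pow_lt_pow_iff_right (by norm_num : 1 < 2)).mp h1).le
  have hq : (64 : ℝ) * 2 ^ K ≤ (Q : ℝ) := by
    have : 64 * 2 ^ K ≤ Q := by omega
    exact_mod_cast this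
  have hsym : ∀ n : ℕ, F.card ≤ Z * n → 3 * Q ≤ n := by
    intro n hn
    have h1 : Z * (3 * Q) ≤ Z * n := by
      calc Z * (3 * Q) = Q * (3 * Z) := by ring
        _ ≤ F.card := hQF
        _ ≤ Z * n := hn
    exact Nat.le_of_mul_le_mul_left h1 (by omega)
  obtain ⟨lam⟩ : Nonempty (Fin v ↪ (Fin L → ZMod 2)) := by
    apply Function.Embedding.nonempty_of_card_le
    rw [Fintype.card_fin, Fintype.card_pi, Finset.prod_const, Finset.card_univ, Fintype.card_fin,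
      ZMod.card]
    exact hvL.le
  have hN3L : ∀ σ : ℕ, σ ≤ 2 → N * 2 ^ (σ * L) + 1 ≤ 2 ^ (3 * L) := by
    intro σ hσ
    have h1 : N + 1 ≤ 2 ^ L := by omega
    have h2 : 2 ^ (σ * L) ≤ 2 ^ (2 * L) :=
      Nat.pow_le_pow_right (by norm_num) (Nat.mul_le_mul_right _ hσ)
    have h3 : 1 ≤ 2 ^ (2 * L) := Nat.one_le_two_pow
    have h4 : 2 ^ (3 * L) = 2 ^ L * 2 ^ (2 * L) := by rw [← pow_add]; congr 1; ring
    rw [h4]
    calc N * 2 ^ (σ * L) + 1 ≤ N * 2 ^ (2 * L) + 2 ^ (2 * L) := by gcongr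
      _ = (N + 1) * 2 ^ (2 * L) := by ring
      _ ≤ 2 ^ L * 2 ^ (2 * L) := Nat.mul_le_mul_right _ h1
  -- the final contradiction
  have fin : 2 ^ K ≤ 3168 * b * L ^ 3 * M → False := by
    intro key
    have h1 : Q + 1 ≤ 128 * 2 ^ K := by
      have : 2 ^ (K + 1) * 64 = 128 * 2 ^ K := by rw [pow_succ]; ring
      omega
    have h2 : F.card < 2 ^ 39 * M * b ^ 3 * L ^ 5 := by
      calc F.card < 3 * Z * (Q + 1) := hFQ
        _ ≤ 3 * Z * (128 * (3168 * b * L ^ 3 * M)) := by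
            apply Nat.mul_le_mul_left
            exact h1.trans (Nat.mul_le_mul_left _ key)
        _ = 301461405696 * M * b ^ 3 * L ^ 5 := by rw [hZ]; ring
        _ ≤ 2 ^ 39 * M * b ^ 3 * L ^ 5 := by
            gcongr
            norm_num
    omega
  by_cases hdeg : ∀ x, 256 * N * (F.filter (fun e => x ∈ e)).card ≤ F.card
  · -- no vertex of large degree
    obtain ⟨χ, hχ1, hχ2⟩ := I.Lg I.Pf I.Pe I.Mv v N F hN1 hF hNF (by convert hdeg)
    obtain ⟨hc1, hc2⟩ := I.CdB v N L F χ lam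
    obtain ⟨m, hm1, hm2, c, D⟩ := exists_code I (TB F χ lam) hb1 (by omega) hN8 (by omega)
      (Q := Q) (fun j => hsym _ (by
        rw [hc1 j, ← hZN]
        have h1 := hχ2 j
        refine h1.trans ?_
        exact Nat.mul_le_mul_right _ (Nat.mul_le_mul_right _ (by norm_num))))
      ((Nat.add_le_add_right hc2 1).trans hFv)
    have hm3 : m ≤ 27 * (b * L ^ 2) := by
      have e1 : N * 2 * L = 22 * (b * L ^ 2) := by rw [hN, hβ]; ring
      have e2 : 8 * b * L ≤ 4 * (b * L ^ 2) := by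
        calc 8 * b * L = 4 * (b * (2 * L)) := by ring
          _ ≤ 4 * (b * (L * L)) := by gcongr
          _ = 4 * (b * L ^ 2) := by ring
      have e3 : 4 ≤ b * L ^ 2 := by nlinarith [Nat.mul_le_mul hL2 hL2]
      omega
    have hgad : 2 * N * L * m ≤ 594 * G := by
      calc 2 * N * L * m ≤ 2 * N * L * (27 * (b * L ^ 2)) := Nat.mul_le_mul_left _ hm3
        _ = 594 * G := by rw [hN, hβ, hG]; ring
    obtain ⟨d, hd⟩ : ∃ d, 2 * N * L * m + 2 * N + d = k :=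
      ⟨k - (2 * N * L * m + 2 * N), by omega⟩
    obtain ⟨π, hπ1, hπ2⟩ := I.InB I.GaY I.GaN I.Em v N L m d k F χ lam c hN1 (by omega) hm1 hd
      (by omega)
    exact fin (step I D hπ1 (fun x => hπ2 x) hb1 hL2 hbL hK hKL hq C o hC hS hM (hN3L 2 le_rfl))
  · -- a vertex of large degree
    push Not at hdeg
    obtain ⟨a₀, ha₀⟩ := hdeg
    obtain ⟨χ, hχ0, hχ1, hχ2, hχ3⟩ := I.Sg v N F a₀ (by omega) hN1 hF hNF (by convert ha₀)
    obtain ⟨hc1, hc2⟩ := I.CdS v N L χ lam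
    obtain ⟨m, hm1, hm2, c, D⟩ := exists_code I (TS χ lam) hb1 (by omega) hN8 (by omega)
      (Q := Q) (fun j => hsym _ (by
        rw [hc1 j, ← hZN]
        exact hχ3 j))
      (by
        refine (Nat.add_le_add_right hc2 1).trans ?_
        refine le_trans (Nat.succ_le_of_lt hvL) ?_
        exact Nat.pow_le_pow_right (by norm_num) (by omega))
    have hm3 : m ≤ 27 * (b * L ^ 2) := by
      have e1 : N * 1 * L = 11 * (b * L ^ 2) := by rw [hN, hβ]; ring
      have e2 : 8 * b * L ≤ 4 * (b * L ^ 2) := by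
        calc 8 * b * L = 4 * (b * (2 * L)) := by ring
          _ ≤ 4 * (b * (L * L)) := by gcongr
          _ = 4 * (b * L ^ 2) := by ring
      have e3 : 4 ≤ b * L ^ 2 := by nlinarith [Nat.mul_le_mul hL2 hL2]
      omega
    have hgad : N * L * m ≤ 297 * G := by
      calc N * L * m ≤ N * L * (27 * (b * L ^ 2)) := Nat.mul_le_mul_left _ hm3
        _ = 297 * G := by rw [hN, hβ, hG]; ring
    obtain ⟨d, hd⟩ : ∃ d, N * L * m + N + d = k := ⟨k - (N * L * m + N), by omega⟩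
    obtain ⟨π, hπ1, hπ2⟩ := I.InS I.GaY I.GaN I.Em v N L m d k a₀ χ lam c hχ0 hN1 (by omega) hm1
      (by omega) hd (by omega)
    refine fin (step I D (F := F) (fun e t ht => ?_) (fun x => hπ2 x) hb1 hL2 hbL hK hKL hq C o hC hS
      hM (hN3L 1 (by norm_num)))
    obtain ⟨x, hx, rfl⟩ := hπ1 e t ht
    exact hχ1 x hx

end Pool.Agent.EV
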