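import Pool.Agent.Work.MP_71c844_lc.EV.Stmts

/-!
# Block EV: item CdB (helper87)
-/

namespace Pool.Agent.EV

open Finset
open Pool.Agent.NegLim (pull gph)
open Pool.Agent.LayCirc

theorem pr_CdB : StCdB := by
  classical
  intro v N L F χ lam
  have key : ∀ j, (TB F χ lam j).card =
      (F.filter (fun e => ∃ x y, e = s(x, y) ∧ χ x = some (j, 0) ∧ χ y = some (j, 1))).card := by
    intro j
    have h1 : (F.filter (fun e => ∃ x y, e = s(x, y) ∧ χ x = some (j, 0) ∧ χ y = some (j, 1))) =
        ((univ : Finset (Fin v × Fin v)).filter (fun q => s(q.1, q.2) ∈ F ∧ χ q.1 = some (j, 0) ∧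
          χ q.2 = some (j, 1))).image (fun q => s(q.1, q.2)) := by
      ext e
      simp only [mem_filter, mem_image, mem_univ, true_and, Prod.exists]
      constructor
      · rintro ⟨he, x, y, rfl, hx, hy⟩
        exact ⟨x, y, ⟨he, hx, hy⟩, rfl⟩
      · rintro ⟨x, y, ⟨he, hx, hy⟩, rfl⟩
        exact ⟨he, x, y, rfl, hx, hy⟩
    have h2 : TB F χ lam j =
        ((univ : Finset (Fin v × Fin v)).filter (fun q => s(q.1, q.2) ∈ F ∧ χ q.1 = some (j, 0) ∧
          χ q.2 = some (j, 1))).image (fun q => ![lam q.1, lam q.2]) := by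
      ext p
      unfold TB
      simp only [mem_filter, mem_image, mem_univ, true_and, Prod.exists]
      constructor
      · rintro ⟨x, y, he, hx, hy, h0, h1⟩
        refine ⟨x, y, ⟨he, hx, hy⟩, ?_⟩
        funext s
        fin_cases s
        · exact h0.symm
        · exact h1.symm
      · rintro ⟨x, y, ⟨he, hx, hy⟩, rfl⟩
        exact ⟨x, y, he, hx, hy, by simp, by simp⟩
    rw [h1, h2, Finset.card_image_of_injOn, Finset.card_image_of_injOn]
    · rintro ⟨x, y⟩ hq ⟨x', y'⟩ hq' h
      simp only [coe_filter, mem_univ, true_and, Set.mem_ofPred_eq] at hq hq'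
      simp only [Sym2.eq_iff] at h
      rcases h with ⟨h3, h4⟩ | ⟨h3, h4⟩
      · rw [h3, h4]
      · exfalso
        have a1 := hq.2.1
        rw [h3, hq'.2.2] at a1
        exact absurd (Prod.mk.inj (Option.some.inj a1)).2 (show ¬ ((1 : Fin 2) = 0) by decide)
    · rintro ⟨x, y⟩ hq ⟨x', y'⟩ hq' h
      have e0 := congrFun h 0
      have e1 := congrFun h 1
      simp only [Matrix.cons_val_zero, Matrix.cons_val_one] at e0 e1
      exact Prod.ext (lam.injective e0) (lam.injective e1)
  refine ⟨key, ?_⟩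
  simp only [key]
  rw [← Finset.card_biUnion]
  · apply Finset.card_le_card
    intro e he
    simp only [mem_biUnion, mem_univ, true_and, mem_filter] at he
    obtain ⟨j, he, _⟩ := he
    exact he
  · intro j _ j' _ hjj
    rw [Function.onFun, Finset.disjoint_left]
    intro e he he'
    simp only [mem_filter] at he he'
    obtain ⟨_, x, y, rfl, hx, hy⟩ := he
    obtain ⟨_, x', y', h, hx', hy'⟩ := he'
    rw [Sym2.eq_iff] at h
    rcases h with ⟨h3, h4⟩ | ⟨h3, h4⟩
    · rw [h3, hx'] at hx
      exact hjj (Prod.mk.inj (Option.some.inj hx)).1.symm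
    · rw [h3, hy'] at hx
      exact absurd (Prod.mk.inj (Option.some.inj hx)).2 (show ¬ ((1 : Fin 2) = 0) by decide)

end Pool.Agent.EV
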