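import Pool.Agent.Work.MP_71c844_lc.EV.Stmts

/-!
# Block EV, item CdS: sizes of the sets of labels
-/

namespace Pool.Agent.EV

open Finset

/-- sizes of the sets of labels -/
theorem pr_CdS : StCdS := by
  classical
  intro v N L χ lam
  have h1 : ∀ j, (TS χ lam j).card = (univ.filter (fun x => χ x = some j)).card := by
    intro j
    symm
    refine Finset.card_bij (fun x _ => fun _ => lam x) ?_ ?_ ?_
    · intro x hx
      rw [Finset.mem_filter] at hx
      rw [TS, Finset.mem_filter]
      exact ⟨Finset.mem_univ _, x, hx.2, rfl⟩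
    · intro x _ y _ hxy
      exact lam.injective (congrFun hxy (0 : Fin 1))
    · intro p hp
      rw [TS, Finset.mem_filter] at hp
      obtain ⟨_, x, hx, hpx⟩ := hp
      refine ⟨x, Finset.mem_filter.mpr ⟨Finset.mem_univ _, hx⟩, ?_⟩
      funext i
      rw [Subsingleton.elim i 0, hpx]
  refine ⟨h1, ?_⟩
  rw [Finset.sum_congr rfl (fun j _ => h1 j)]
  rw [← Finset.card_biUnion]
  · calc (Finset.univ.biUnion fun j => univ.filter (fun x => χ x = some j)).card
        ≤ (Finset.univ : Finset (Fin v)).card := Finset.card_le_card (Finset.subset_univ _)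
      _ = v := by rw [Finset.card_univ, Fintype.card_fin]
  · intro i _ j _ hij
    rw [Function.onFun, Finset.disjoint_left]
    intro x hx hx'
    rw [Finset.mem_filter] at hx hx'
    exact hij (Option.some_injective _ (hx.2.symm.trans hx'.2))

end Pool.Agent.EV
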