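import Pool.Agent.Work.MP_71c844_lc.EV.Stmts
import Pool.Agent.Work.MP_71c844_lc.NegChain

/-!
# Block EV, item Cod: the code
-/

namespace Pool.Agent.EV

open Finset
open Pool.Agent.NegLim (pull gph)
open Pool.Agent.LayCirc

/-- the symbols of the sets `T j` with their positions -/
abbrev Cod_E {N σ κ : ℕ} (T : Fin N → Finset (Fin σ → Fin κ → ZMod 2)) : Type :=
  Σ j : Fin N, {e : Fin σ → Fin κ → ZMod 2 // e ∈ T j}

/-- as pairs -/
def Cod_em {N σ κ : ℕ} (T : Fin N → Finset (Fin σ → Fin κ → ZMod 2)) :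
    Cod_E T ↪ Fin N × (Fin σ → Fin κ → ZMod 2) where
  toFun x := (x.1, x.2.1)
  inj' := by
    rintro ⟨j, e, he⟩ ⟨j', e', he'⟩ h
    simp only [Prod.mk.injEq] at h
    obtain ⟨h1, h2⟩ := h
    subst h1
    subst h2
    rfl

open Classical in
theorem Cod_cnt {N σ κ m : ℕ} (T : Fin N → Finset (Fin σ → Fin κ → ZMod 2))
    (A : Finset (Fin N × (Fin σ → Fin κ → ZMod 2))) (c : Cd ((Fin N × Fin σ) × Fin κ) m) :
    cnt c (TA T A) = (univ.filter (fun u : Fin m → ZMod 2 => (∀ j, sy c u j ∈ T j) ∧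
      ∀ p ∈ A, sy c u p.1 = p.2)).card := by
  unfold cnt TA
  congr 1
  ext u
  simp only [mem_filter, mem_univ, true_and]
  rfl

theorem Cod_pow (L a b : ℕ) (hab : a ≤ 2 * b) (x : ℕ) (hx : x ≤ (2 ^ (2 * L)) ^ a) :
    x ≤ 2 ^ (4 * b * L) := by
  refine hx.trans ?_
  rw [← pow_mul]
  refine Nat.pow_le_pow_right (by norm_num) ?_
  calc 2 * L * a ≤ 2 * L * (2 * b) := Nat.mul_le_mul_left _ hab
    _ = 4 * b * L := by ring

open Classical in
theorem pr_Cod : StCod := by
  intro hFA hFB hSm hCh hPi N b L κ σ T hb hL hN hne hsum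
  set O : Type := (Fin N × Fin σ) × Fin κ with hO
  have hcO : Fintype.card O = N * σ * κ := by simp [hO]
  obtain ⟨P, hP⟩ : ∃ P : ℕ, P = ∏ j, (T j).card := ⟨_, rfl⟩
  have hP0 : 0 < P := by
    rw [hP]
    exact Finset.prod_pos fun j _ => (hne j).card_pos
  have hTA0 : (TA T ∅).card = P := by
    have := hPi N σ κ T ∅ (by simp) (by simp)
    simpa [hP] using this
  have hPle : P ≤ 2 ^ Fintype.card O := by
    rw [← hTA0]
    refine (Finset.card_le_univ _).trans (le_of_eq ?_)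
    rw [Fintype.card_fun, ZMod.card]
  -- the length of the seed
  have hex : ∃ m : ℕ, 2 ^ (8 * b * L + 3) * 2 ^ Fintype.card O ≤ 2 ^ m * P :=
    ⟨8 * b * L + 3 + Fintype.card O, by
      rw [← pow_add]
      exact Nat.le_mul_of_pos_right _ hP0⟩
  obtain ⟨m, hm1, hm2⟩ : ∃ m : ℕ, 2 ^ (8 * b * L + 3) * 2 ^ Fintype.card O ≤ 2 ^ m * P ∧
      ∀ m' < m, ¬ 2 ^ (8 * b * L + 3) * 2 ^ Fintype.card O ≤ 2 ^ m' * P :=
    ⟨Nat.find hex, Nat.find_spec hex, fun m' hm' => Nat.find_min hex hm'⟩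
  have hmle : m ≤ 8 * b * L + 3 + N * σ * κ := by
    by_contra hcon
    push Not at hcon
    refine hm2 _ hcon ?_
    rw [← hcO, ← pow_add]
    exact Nat.le_mul_of_pos_right _ hP0
  have hm0 : 1 ≤ m := by
    rcases Nat.eq_zero_or_pos m with h | h
    · exfalso
      rw [h, pow_zero, one_mul] at hm1
      have h2 : 2 * 2 ^ Fintype.card O ≤ 2 ^ (8 * b * L + 3) * 2 ^ Fintype.card O := by
        refine Nat.mul_le_mul_right _ ?_
        calc 2 = 2 ^ 1 := by norm_num
          _ ≤ 2 ^ (8 * b * L + 3) := Nat.pow_le_pow_right (by norm_num) (by omega)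
      have h3 : 0 < 2 ^ Fintype.card O := by positivity
      omega
    · exact h
  have hmup : 2 ^ m * P < 2 ^ (8 * b * L + 4) * 2 ^ Fintype.card O := by
    have h1 := hm2 (m - 1) (by omega)
    push Not at h1
    have h2 : 2 ^ m = 2 * 2 ^ (m - 1) := by
      rw [← pow_succ']
      congr 1
      omega
    have h3 : 2 ^ (8 * b * L + 4) = 2 * 2 ^ (8 * b * L + 3) := by
      rw [← pow_succ']
    rw [h2, h3, mul_assoc, mul_assoc]
    omega
  -- real versions
  have hW : (0 : ℝ) < 2 ^ Fintype.card O := by positivity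
  have hmu0 : mu m (TA T ∅) = (2 : ℝ) ^ m * P / 2 ^ Fintype.card O := by
    unfold mu
    rw [hTA0]
  have hlo : (2 : ℝ) ^ (8 * b * L + 3) ≤ mu m (TA T ∅) := by
    rw [hmu0, le_div_iff₀ hW]
    exact_mod_cast hm1
  have hup : mu m (TA T ∅) < (2 : ℝ) ^ (8 * b * L + 4) := by
    rw [hmu0, div_lt_iff₀ hW]
    exact_mod_cast hmup
  -- the index set
  let J : Type := {A : Finset (Cod_E T) // A.card ≤ 2 * b ∧
    ∀ p ∈ A, ∀ p' ∈ A, p.1 = p'.1 → p = p'}
  have hcE : Fintype.card (Cod_E T) = ∑ j, (T j).card := by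
    rw [Fintype.card_sigma]
    exact Finset.sum_congr rfl fun j _ => Fintype.card_coe _
  have hcJ : Fintype.card J ≤ 2 ^ (4 * b * L) := by
    have h1 : Fintype.card J ≤ (Pool.Agent.NegLim.lowSets (Cod_E T) b).card := by
      rw [Fintype.card_subtype]
      refine Finset.card_le_card fun A hA => ?_
      simp only [mem_filter, mem_univ, true_and] at hA
      simp only [Pool.Agent.NegLim.lowSets, mem_filter, mem_univ, true_and]
      exact hA.1
    refine Cod_pow L (2 * b) b le_rfl _ (h1.trans ?_)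
    refine (Pool.Agent.NegLim.card_lowSets_le b).trans ?_
    rw [hcE]
    exact Nat.pow_le_pow_left hsum _
  have hTle : ∀ j, (T j).card ≤ 2 ^ (2 * L) := fun j => by
    have h1 : (T j).card ≤ ∑ j, (T j).card :=
      Finset.single_le_sum (f := fun j => (T j).card) (fun _ _ => Nat.zero_le _) (mem_univ j)
    omega
  -- `μ(A) ∏ = μ(∅)` for compatible sets
  have hmuA : ∀ A : Finset (Fin N × (Fin σ → Fin κ → ZMod 2)), (∀ p ∈ A, p.2 ∈ T p.1) →
      (∀ p ∈ A, ∀ p' ∈ A, p.1 = p'.1 → p = p') →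
      mu m (TA T A) * ((∏ p ∈ A, (T p.1).card : ℕ) : ℝ) = mu m (TA T ∅) := by
    intro A h1 h2
    have h3 := hPi N σ κ T A h1 h2
    rw [← hP] at h3
    rw [hmu0, ← h3]
    unfold mu
    push_cast
    ring
  have hprodle : ∀ A : Finset (Fin N × (Fin σ → Fin κ → ZMod 2)), A.card ≤ 2 * b →
      ∏ p ∈ A, (T p.1).card ≤ 2 ^ (4 * b * L) := by
    intro A hA
    refine Cod_pow L A.card b hA _ ?_
    exact Finset.prod_le_pow_card _ _ _ fun p _ => hTle p.1
  let Tf : J → Finset (O → ZMod 2) := fun A => TA T (A.1.map (Cod_em T))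
  have hmap1 : ∀ A : Finset (Cod_E T), ∀ p ∈ A.map (Cod_em T), p.2 ∈ T p.1 := by
    intro A p hp
    rw [Finset.mem_map] at hp
    obtain ⟨x, -, rfl⟩ := hp
    exact x.2.2
  have hmap2 : ∀ A : J, ∀ p ∈ A.1.map (Cod_em T), ∀ p' ∈ A.1.map (Cod_em T),
      p.1 = p'.1 → p = p' := by
    intro A p hp p' hp' h
    rw [Finset.mem_map] at hp hp'
    obtain ⟨x, hx, rfl⟩ := hp
    obtain ⟨y, hy, rfl⟩ := hp'
    rw [A.2.2 x hx y hy h]
  have hbig : ∀ A : J, 4 * (Fintype.card J : ℝ) < mu m (Tf A) := by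
    intro A
    have h1 := hmuA (A.1.map (Cod_em T)) (hmap1 A.1) (hmap2 A)
    have h2 := hprodle (A.1.map (Cod_em T)) (by rw [Finset.card_map]; exact A.2.1)
    have h3 : ((∏ p ∈ A.1.map (Cod_em T), (T p.1).card : ℕ) : ℝ) ≤ 2 ^ (4 * b * L) := by
      exact_mod_cast h2
    have h4 : (Fintype.card J : ℝ) ≤ 2 ^ (4 * b * L) := by exact_mod_cast hcJ
    have h5 : 0 ≤ mu m (Tf A) := by unfold mu; positivity
    have h6 : (2 : ℝ) ^ (8 * b * L + 3) = 8 * 2 ^ (4 * b * L) * 2 ^ (4 * b * L) := by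
      have : 8 * b * L + 3 = 4 * b * L + 4 * b * L + 3 := by ring
      rw [this, pow_add, pow_add]
      ring
    have h7 : (0 : ℝ) < 2 ^ (4 * b * L) := by positivity
    have h8 : 8 * (2 : ℝ) ^ (4 * b * L) * 2 ^ (4 * b * L) ≤ mu m (Tf A) * 2 ^ (4 * b * L) := by
      rw [← h6]
      refine hlo.trans ?_
      rw [← h1]
      exact mul_le_mul_of_nonneg_left h3 h5
    have h9 : 8 * (2 : ℝ) ^ (4 * b * L) ≤ mu m (Tf A) := le_of_mul_le_mul_right h8 h7
    linarith
  obtain ⟨c, hc⟩ := hCh hFA hFB hSm O m J Tf hbig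
  -- the empty set
  have hX0 := hc ⟨∅, by simp, by simp⟩
  have hT0 : Tf ⟨∅, by simp, by simp⟩ = TA T ∅ := by
    show TA T ((∅ : Finset (Cod_E T)).map (Cod_em T)) = TA T ∅
    rw [Finset.map_empty]
  rw [hT0, Cod_cnt] at hX0
  have hset0 : (univ.filter (fun u : Fin m → ZMod 2 => (∀ j, sy c u j ∈ T j) ∧
      ∀ p ∈ (∅ : Finset (Fin N × (Fin σ → Fin κ → ZMod 2))), sy c u p.1 = p.2)) =
      univ.filter (fun u : Fin m → ZMod 2 => ∀ j, sy c u j ∈ T j) := by
    ext u
    simp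
  rw [hset0] at hX0
  obtain ⟨X, hX⟩ : ∃ X : ℕ, X = (univ.filter (fun u : Fin m → ZMod 2 =>
    ∀ j, sy c u j ∈ T j)).card := ⟨_, rfl⟩
  rw [← hX] at hX0
  refine ⟨m, hm0, hmle, c, ?_, ?_, ?_⟩
  · have h1 : (0 : ℝ) < X := by
      have : (0 : ℝ) < 2 ^ (8 * b * L + 3) := by positivity
      linarith [hX0.1]
    have h2 : 0 < X := by exact_mod_cast h1
    rw [hX, Finset.card_pos] at h2
    obtain ⟨u, hu⟩ := h2
    exact ⟨u, (mem_filter.mp hu).2⟩
  · rw [← hX]
    have h1 : (2 : ℝ) * X < 2 ^ (8 * b * L + 6) := by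
      have h2 : (2 : ℝ) ^ (8 * b * L + 6) = 4 * 2 ^ (8 * b * L + 4) := by
        rw [pow_add, pow_add]
        ring
      rw [h2]
      have : (0 : ℝ) < 2 ^ (8 * b * L + 4) := by positivity
      linarith [hX0.2]
    have h3 : 2 * X < 2 ^ (8 * b * L + 6) := by exact_mod_cast h1
    exact h3.le.trans (Nat.pow_le_pow_right (by norm_num) hN)
  · intro A hA q hq hqT
    rw [← hX]
    by_cases hgood : (∀ p ∈ A, p.2 ∈ T p.1) ∧ (∀ p ∈ A, ∀ p' ∈ A, p.1 = p'.1 → p = p')
    · obtain ⟨hg1, hg2⟩ := hgood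
      rcases Finset.eq_empty_or_nonempty A with h0 | h0
      · subst h0
        rw [hset0, ← hX]
        simp
      · -- the preimage
        let A' : Finset (Cod_E T) := univ.filter (fun x => Cod_em T x ∈ A)
        have hA' : A'.map (Cod_em T) = A := by
          ext p
          rw [Finset.mem_map]
          constructor
          · rintro ⟨x, hx, rfl⟩
            exact (mem_filter.mp hx).2
          · intro hp
            exact ⟨⟨p.1, ⟨p.2, hg1 p hp⟩⟩, mem_filter.mpr ⟨mem_univ _, hp⟩, rfl⟩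
        have hcard : A'.card = A.card := by rw [← hA', Finset.card_map]
        have hJ : A'.card ≤ 2 * b ∧ ∀ p ∈ A', ∀ p' ∈ A', p.1 = p'.1 → p = p' := by
          refine ⟨by rw [hcard]; exact hA, fun p hp p' hp' h => ?_⟩
          exact (Cod_em T).injective
            (hg2 _ (mem_filter.mp hp).2 _ (mem_filter.mp hp').2 h)
        have h1 := (hc ⟨A', hJ⟩).2
        have hTA : Tf ⟨A', hJ⟩ = TA T A := by
          show TA T (A'.map (Cod_em T)) = TA T A
          rw [hA']
        rw [hTA, Cod_cnt] at h1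
        have h2 := hmuA A hg1 hg2
        have h3 : (3 * q) ^ A.card ≤ ((∏ p ∈ A, (T p.1).card : ℕ) : ℝ) := by
          push_cast
          rw [← Finset.prod_const]
          exact Finset.prod_le_prod (fun _ _ => by positivity) fun p _ => hqT p.1
        have h4 : (0 : ℝ) ≤ mu m (TA T A) := by unfold mu; positivity
        have h5 : mu m (TA T A) * (3 * q) ^ A.card ≤ 2 * X := by
          have := mul_le_mul_of_nonneg_left h3 h4
          linarith [hX0.1]
        refine h1.trans ?_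
        have hq1 : (0 : ℝ) < q ^ A.card := by positivity
        have h6 : (3 : ℝ) ≤ 3 ^ A.card := by
          have : 1 ≤ A.card := h0.card_pos
          calc (3 : ℝ) = 3 ^ 1 := by norm_num
            _ ≤ 3 ^ A.card := pow_le_pow_right₀ (by norm_num) this
        have h7 : 3 * (mu m (TA T A) * q ^ A.card) ≤ 2 * X := by
          refine le_trans ?_ h5
          rw [mul_pow]
          have := mul_le_mul_of_nonneg_right h6 (mul_nonneg h4 hq1.le)
          linarith
        rw [one_div, inv_pow, ← div_eq_mul_inv, le_div_iff₀ hq1]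
        linarith
    · have h0 : (univ.filter (fun u : Fin m → ZMod 2 => (∀ j, sy c u j ∈ T j) ∧
          ∀ p ∈ A, sy c u p.1 = p.2)) = ∅ := by
        rw [Finset.filter_eq_empty_iff]
        rintro u - ⟨hu1, hu2⟩
        apply hgood
        constructor
        · intro p hp
          rw [← hu2 p hp]
          exact hu1 p.1
        · intro p hp p' hp' h
          refine Prod.ext h ?_
          rw [← hu2 p hp, ← hu2 p' hp', h]
      rw [h0, Finset.card_empty, Nat.cast_zero]
      positivity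

end Pool.Agent.EV
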