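import Pool.Agent.Work.MP_71c844_lc.EV.Stmts

/-!
# Block EV, item Em: extension of an embedding
-/

namespace Pool.Agent.EV

open Finset
open Pool.Agent.NegLim (pull gph)
open Pool.Agent.LayCirc

/-- **Em.** -/
theorem pr_Em : StEm := by
  classical
  intro A B _ _ v f hcard
  have h1 : Fintype.card {x : Fin v // x ∈ Set.range f} = Fintype.card B :=
    (Fintype.card_congr (Equiv.ofInjective f f.injective)).symm
  have h2 : Fintype.card A ≤ Fintype.card {x : Fin v // ¬ x ∈ Set.range f} := by
    rw [Fintype.card_subtype_compl, h1, Fintype.card_fin]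
    omega
  obtain ⟨g⟩ := Function.Embedding.nonempty_of_card_le h2
  refine ⟨⟨Sum.elim (fun a => (g a : Fin v)) f, ?_⟩, fun b => rfl⟩
  rintro (a | b) (a' | b') h
  · rw [g.injective (Subtype.ext h)]
  · exact absurd ⟨b', h.symm⟩ (g a).2
  · exact absurd ⟨b, h⟩ (g a').2
  · rw [f.injective h]

end Pool.Agent.EV
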