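import Pool.Agent.Work.MP_71c844_lc.EV.Stmts

/-!
# Block EV, item FbA: one code word of a random affine code
-/

namespace Pool.Agent.EV

open Finset
open Pool.Agent.NegLim (pull gph)
open Pool.Agent.LayCirc

theorem pr_FbA : StFbA := by
  intro O _ _ m u w
  have h1 : (univ.filter (fun c : Cd O m => word c u = w)).card =
      (univ : Finset (O → Fin m → ZMod 2)).card := by
    refine Finset.card_bij' (fun c _ => c.1)
      (fun a _ => (a, fun o => w o - ∑ i, a o i * u i)) ?_ ?_ ?_ ?_
    · intro c _
      exact Finset.mem_univ _
    · intro a _
      rw [Finset.mem_filter]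
      refine ⟨Finset.mem_univ _, ?_⟩
      funext o
      simp [word]
    · intro c hc
      have h := (Finset.mem_filter.mp hc).2
      refine Prod.ext rfl ?_
      funext o
      have ho := congrFun h o
      simp only [word] at ho
      simp only
      rw [← ho]
      ring
    · intro a _
      rfl
  rw [h1, Finset.card_univ]
  unfold Cd
  rw [Fintype.card_prod, Fintype.card_fun (α := O) (β := ZMod 2), ZMod.card]

end Pool.Agent.EV
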