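import Pool.Agent.Work.MP_71c844_lc.EV.Stmts

/-!
# Block EV, item FbB: pairwise independence of the words of a random affine code
-/

namespace Pool.Agent.EV

open Finset

/-- the pair of the codewords of two seeds, as an additive map of the code -/
private def FbB_phi {O : Type} {m : ℕ} (u u' : Fin m → ZMod 2) :
    Cd O m →+ (O → ZMod 2) × (O → ZMod 2) where
  toFun c := (word c u, word c u')
  map_zero' := by
    ext o <;> simp [word]
  map_add' := by
    intro c d
    ext o
    · simp only [word, Prod.fst_add, Prod.snd_add, Pi.add_apply, add_mul, Finset.sum_add_distrib]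
      ring
    · simp only [word, Prod.fst_add, Prod.snd_add, Pi.add_apply, add_mul, Finset.sum_add_distrib]
      ring

private lemma FbB_surj {O : Type} {m : ℕ} (u u' : Fin m → ZMod 2) (h : u ≠ u') :
    Function.Surjective (FbB_phi (O := O) u u') := by
  rintro ⟨a, b⟩
  obtain ⟨l, hl⟩ := Function.ne_iff.mp h
  have h1 : u l - u' l = 1 := by
    have : ∀ x y : ZMod 2, x ≠ y → x - y = 1 := by decide
    exact this _ _ hl
  have hs : ∀ (x : ZMod 2) (v : Fin m → ZMod 2),
      ∑ i, (Pi.single l x : Fin m → ZMod 2) i * v i = x * v l := by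
    intro x v
    rw [Finset.sum_eq_single l]
    · rw [Pi.single_eq_same]
    · intro i _ hi
      rw [Pi.single_eq_of_ne hi, zero_mul]
    · intro hc
      exact absurd (Finset.mem_univ l) hc
  refine ⟨(fun o => Pi.single l (a o - b o), fun o => a o - (a o - b o) * u l), ?_⟩
  change (word _ u, word _ u') = _
  refine Prod.ext (funext fun o => ?_) (funext fun o => ?_)
  · change (a o - (a o - b o) * u l) + ∑ i, (Pi.single l (a o - b o) : Fin m → ZMod 2) i * u i = a o
    rw [hs]
    ring
  · change (a o - (a o - b o) * u l) + ∑ i, (Pi.single l (a o - b o) : Fin m → ZMod 2) i * u' i = b o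
    rw [hs]
    have : a o - (a o - b o) * u l + (a o - b o) * u' l
        = a o - (a o - b o) * (u l - u' l) := by ring
    rw [this, h1]
    ring

/-- pairwise independence -/
theorem pr_FbB : StFbB := by
  intro O _ _ m u u' hne w w'
  have hfib : ∀ y : (O → ZMod 2) × (O → ZMod 2),
      (univ.filter (fun c : Cd O m => FbB_phi u u' c = y)).card =
        (univ.filter (fun c : Cd O m => FbB_phi u u' c = (w, w'))).card := fun y =>
    AddMonoidHom.card_fiber_eq_of_mem_range (FbB_phi u u') (FbB_surj u u' hne y)
      (FbB_surj u u' hne (w, w'))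
  have hsum : Fintype.card (Cd O m) = ∑ y : (O → ZMod 2) × (O → ZMod 2),
      (univ.filter (fun c : Cd O m => FbB_phi u u' c = y)).card := by
    rw [← Finset.card_univ]
    exact Finset.card_eq_sum_card_fiberwise (fun c _ => Finset.mem_coe.mpr (Finset.mem_univ _))
  have hcard : Fintype.card ((O → ZMod 2) × (O → ZMod 2)) = (2 ^ Fintype.card O) ^ 2 := by
    rw [Fintype.card_prod, Fintype.card_fun, ZMod.card]
    ring
  have heq : (univ.filter (fun c : Cd O m => word c u = w ∧ word c u' = w')) =
      (univ.filter (fun c : Cd O m => FbB_phi u u' c = (w, w'))) := by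
    ext c
    simp only [Finset.mem_filter, Finset.mem_univ, true_and]
    change _ ↔ (word c u, word c u') = (w, w')
    rw [Prod.mk.injEq]
  rw [hsum, Finset.sum_congr rfl (fun y _ => hfib y), Finset.sum_const, Finset.card_univ, hcard,
    heq, smul_eq_mul, mul_comm]

end Pool.Agent.EV
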