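import Pool.Agent.Work.MP_71c844_lc.EV.Stmts

/-!
# Block EV, item GaN: a clique gives a good seed
-/

set_option autoImplicit false

namespace Pool.Agent.EV

open Finset
open Pool.Agent.NegLim (pull gph)
open Pool.Agent.LayCirc

section

variable {Bl Bv E : Type} {κ m d v : ℕ}

private theorem GaN_uniq (A : Gad Bl Bv E κ m d) (ι : Vx Bl Bv κ m d ↪ Fin v) {t t' : E}
    (h : s(ι (.inr (A.endL t)), ι (.inr (A.endR t))) =
      s(ι (.inr (A.endL t')), ι (.inr (A.endR t')))) : t = t' := by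
  apply A.end_uniq
  rw [Sym2.eq_iff] at h ⊢
  rcases h with ⟨h1, h2⟩ | ⟨h1, h2⟩
  · exact Or.inl ⟨Sum.inr_injective (ι.injective h1), Sum.inr_injective (ι.injective h2)⟩
  · exact Or.inr ⟨Sum.inr_injective (ι.injective h1), Sum.inr_injective (ι.injective h2)⟩

private theorem GaN_var (A : Gad Bl Bv E κ m d) (ι : Vx Bl Bv κ m d ↪ Fin v) (x : E → Bool)
    (t : E) : pull (A.proj ι) x s(ι (.inr (A.endL t)), ι (.inr (A.endR t))) = x t := by
  classical
  have h : ∃ t' : E, s(ι (.inr (A.endL t)), ι (.inr (A.endR t))) =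
      s(ι (.inr (A.endL t')), ι (.inr (A.endR t'))) := ⟨t, rfl⟩
  unfold pull Gad.proj
  rw [dif_pos h]
  have := GaN_uniq A ι h.choose_spec
  simp only
  rw [← this]

private theorem GaN_fix (A : Gad Bl Bv E κ m d) (ι : Vx Bl Bv κ m d ↪ Fin v) (x : E → Bool)
    (e : Sym2 (Fin v)) (h : ¬ ∃ t : E, e = s(ι (.inr (A.endL t)), ι (.inr (A.endR t)))) :
    pull (A.proj ι) x e = true ↔ ∃ a b : Vx Bl Bv κ m d, e = s(ι a, ι b) ∧ A.fixAdj a b := by
  classical
  unfold pull Gad.proj
  rw [dif_neg h]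
  simp

private theorem GaN_zr (A : Gad Bl Bv E κ m d) (a b : Vx Bl Bv κ m d) (h : A.Zr a b) :
    A.Zr b a := by
  rcases a with a | a | a <;> rcases b with b | b | b <;>
    first | exact A.zero_symm _ _ h | exact h

private theorem GaN_symm (A : Gad Bl Bv E κ m d) (a b : Vx Bl Bv κ m d) (h : A.fixAdj a b) :
    A.fixAdj b a := by
  obtain ⟨h1, h2, u, h3, h4⟩ := h
  exact ⟨h1.symm, fun h => h2 (GaN_zr A _ _ h), u, h4, h3⟩

private theorem GaN_fix' (A : Gad Bl Bv E κ m d) (ι : Vx Bl Bv κ m d ↪ Fin v) (x : E → Bool)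
    (a b : Vx Bl Bv κ m d)
    (h : ¬ ∃ t : E, s(ι a, ι b) = s(ι (.inr (A.endL t)), ι (.inr (A.endR t)))) :
    pull (A.proj ι) x s(ι a, ι b) = true ↔ A.fixAdj a b := by
  rw [GaN_fix A ι x _ h]
  constructor
  · rintro ⟨a', b', he, hf⟩
    rw [Sym2.eq_iff] at he
    rcases he with ⟨h1, h2⟩ | ⟨h1, h2⟩
    · rw [ι.injective h1, ι.injective h2]; exact hf
    · rw [ι.injective h1, ι.injective h2]; exact GaN_symm A _ _ hf
  · intro hf; exact ⟨a, b, rfl, hf⟩

private theorem GaN_part (A : Gad Bl Bv E κ m d) (ι : Vx Bl Bv κ m d ↪ Fin v) (x : E → Bool)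
    (a b : Vx Bl Bv κ m d) (h : (gph (pull (A.proj ι) x)).Adj (ι a) (ι b)) :
    A.part a ≠ A.part b := by
  rw [gph, SimpleGraph.fromEdgeSet_adj] at h
  obtain ⟨h1, -⟩ := h
  have h1' : pull (A.proj ι) x s(ι a, ι b) = true := h1
  by_cases ht : ∃ t : E, s(ι a, ι b) = s(ι (.inr (A.endL t)), ι (.inr (A.endR t)))
  · obtain ⟨t, ht⟩ := ht
    have hne : A.part (.inr (A.endL t)) ≠ A.part (.inr (A.endR t)) := fun h =>
      A.end_ne t (Sum.inr_injective h)
    rw [Sym2.eq_iff] at ht
    rcases ht with ⟨e1, e2⟩ | ⟨e1, e2⟩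
    · rw [ι.injective e1, ι.injective e2]; exact hne
    · rw [ι.injective e1, ι.injective e2]; exact hne.symm
  · rw [GaN_fix' A ι x a b ht] at h1'
    exact h1'.1

private theorem GaN_psum_zero {O : Type} (c : Cd O m) (u : Fin m → ZMod 2) (o : O) :
    psum c u o 0 = c.2 o := by
  unfold psum
  have : univ.filter (fun i : Fin m => i.1 < 0) = ∅ := by
    apply Finset.filter_eq_empty_iff.2
    intro i _
    omega
  rw [this, Finset.sum_empty, add_zero]

private theorem GaN_psum_succ {O : Type} (c : Cd O m) (u : Fin m → ZMod 2) (o : O) (l : ℕ)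
    (hl : l < m) : psum c u o (l + 1) = psum c u o l + c.1 o ⟨l, hl⟩ * u ⟨l, hl⟩ := by
  unfold psum
  have : univ.filter (fun i : Fin m => i.1 < l + 1) =
      insert (⟨l, hl⟩ : Fin m) (univ.filter (fun i : Fin m => i.1 < l)) := by
    ext i
    simp only [mem_filter, mem_univ, true_and, mem_insert, Fin.ext_iff]
    omega
  rw [this, Finset.sum_insert (by simp), ← add_assoc, add_assoc (c.2 o), add_comm (c.1 o _ * _),
    ← add_assoc]

private theorem GaN_word {O : Type} (c : Cd O m) (u : Fin m → ZMod 2) (o : O) :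
    word c u o = psum c u o m := by
  unfold word psum
  have : univ.filter (fun i : Fin m => i.1 < m) = univ := by
    apply Finset.filter_true_of_mem
    intro i _
    exact i.2
  rw [this]

end

theorem pr_GaN : StGaN := by
  classical
  intro Bl Bv E _ _ _ _ κ m d v A ι x hκ hm h
  rw [SimpleGraph.CliqueFree] at h
  push Not at h
  obtain ⟨S, hclq⟩ := h
  have hS := hclq.isClique
  have hScard := hclq.card_eq
  have β₀ : Bl := Classical.arbitrary Bl
  -- there are at least two parts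
  have h2 : 2 ≤ S.card := by
    rw [hScard, Fintype.card_sum, Fintype.card_sum, Fintype.card_prod, Fintype.card_prod,
      Fintype.card_fin, Fintype.card_fin, Fintype.card_fin]
    have h1 : 0 < Fintype.card Bl := Fintype.card_pos
    have h3 : 0 < Fintype.card Bl * κ * m := by positivity
    omega
  -- every vertex of the clique is in the range
  have hrange : ∀ a ∈ S, ∃ w : Vx Bl Bv κ m d, ι w = a := by
    intro a ha
    obtain ⟨c, hc, hca⟩ := Finset.exists_mem_ne (by omega : 1 < S.card) a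
    have hadj := hS (Finset.mem_coe.mpr ha) (Finset.mem_coe.mpr hc) hca.symm
    rw [gph, SimpleGraph.fromEdgeSet_adj] at hadj
    have h1 : pull (A.proj ι) x s(a, c) = true := hadj.1
    by_cases ht : ∃ t : E, s(a, c) = s(ι (.inr (A.endL t)), ι (.inr (A.endR t)))
    · obtain ⟨t, ht⟩ := ht
      rw [Sym2.eq_iff] at ht
      rcases ht with ⟨e1, -⟩ | ⟨e1, -⟩
      · exact ⟨_, e1.symm⟩
      · exact ⟨_, e1.symm⟩
    · rw [GaN_fix A ι x _ ht] at h1
      obtain ⟨a', c', he, -⟩ := h1
      rw [Sym2.eq_iff] at he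
      rcases he with ⟨e1, -⟩ | ⟨e1, -⟩
      · exact ⟨_, e1.symm⟩
      · exact ⟨_, e1.symm⟩
  -- the clique meets every part
  let T : Finset (Vx Bl Bv κ m d) := univ.filter (fun w => ι w ∈ S)
  have hTmem : ∀ w, w ∈ T ↔ ι w ∈ S := by
    intro w
    simp only [T, mem_filter, mem_univ, true_and]
  have hT : T.card = S.card := by
    apply Finset.card_bij (fun w _ => ι w)
    · intro w hw; exact (hTmem w).1 hw
    · intro w _ w' _ h; exact ι.injective h
    · intro a ha
      obtain ⟨w, hw⟩ := hrange a ha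
      exact ⟨w, (hTmem w).2 (by rw [hw]; exact ha), hw⟩
  have hpinj : Set.InjOn A.part (T : Set (Vx Bl Bv κ m d)) := by
    intro w hw w' hw' hpp
    by_contra hne
    have hadj := hS (Finset.mem_coe.mpr ((hTmem w).1 (Finset.mem_coe.1 hw)))
      (Finset.mem_coe.mpr ((hTmem w').1 (Finset.mem_coe.1 hw')))
      (fun h => hne (ι.injective h))
    exact GaN_part A ι x w w' hadj hpp
  have himg : T.image A.part = univ := by
    apply Finset.eq_univ_of_card
    rw [Finset.card_image_of_injOn hpinj, hT, hScard]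
  have hex : ∀ z : Pt Bl κ m d, ∃ w : Vx Bl Bv κ m d, A.part w = z ∧ ι w ∈ S := by
    intro z
    have : z ∈ T.image A.part := by rw [himg]; exact mem_univ _
    rw [Finset.mem_image] at this
    obtain ⟨w, hw, hwj⟩ := this
    exact ⟨w, hwj, (hTmem w).1 hw⟩
  choose σ hσp hσ using hex
  -- pairwise adjacency
  have hadj : ∀ z z' : Pt Bl κ m d, z ≠ z' →
      pull (A.proj ι) x s(ι (σ z), ι (σ z')) = true := by
    intro z z' hzz
    have := hS (Finset.mem_coe.mpr (hσ z)) (Finset.mem_coe.mpr (hσ z')) (fun h => by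
      have := congrArg A.part (ι.injective h)
      rw [hσp, hσp] at this
      exact hzz this)
    rw [gph, SimpleGraph.fromEdgeSet_adj] at this
    exact this.1
  -- pairs with a part of the gadget are consistent
  have hcons : ∀ (q : (Bl × Fin κ) × Fin m) (z' : Pt Bl κ m d), .inl q ≠ z' →
      ∃ u, A.Cons u (σ (.inl q)) ∧ A.Cons u (σ z') := by
    intro q z' hqz
    have h1 := hadj (.inl q) z' hqz
    rw [GaN_fix' A ι x _ _ (by
      rintro ⟨t, ht⟩
      rw [Sym2.eq_iff] at ht
      rcases ht with ⟨e1, -⟩ | ⟨e1, -⟩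
      · have := congrArg A.part (ι.injective e1)
        rw [hσp] at this
        cases this
      · have := congrArg A.part (ι.injective e1)
        rw [hσp] at this
        cases this)] at h1
    exact h1.2.2
  -- the vertices of the parts
  have hlab : ∀ q : (Bl × Fin κ) × Fin m, ∃ y : ZMod 2 × ZMod 2, σ (.inl q) = .inl (q, y) := by
    intro q
    have h1 := hσp (.inl q)
    rcases hw : σ (.inl q) with w | w | w
    · rw [hw] at h1
      have h3 : w.1 = q := Sum.inl_injective h1
      exact ⟨w.2, by rw [← h3]⟩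
    · rw [hw] at h1; cases h1
    · rw [hw] at h1; cases h1
  choose lb hlb using hlab
  have hblk : ∀ β : Bl, ∃ w : Bv, σ (.inr (.inl β)) = .inr (.inl w) ∧ A.blk w = β := by
    intro β
    have h1 := hσp (.inr (.inl β))
    rcases hw : σ (.inr (.inl β)) with w | w | w
    · rw [hw] at h1; cases h1
    · rw [hw] at h1
      exact ⟨w, rfl, Sum.inl_injective (Sum.inr_injective h1)⟩
    · rw [hw] at h1; cases h1
  choose bw hbw hbwb using hblk
  have huni : ∀ i : Fin d, σ (.inr (.inr i)) = .inr (.inr i) := by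
    intro i
    have h1 := hσp (.inr (.inr i))
    rcases hw : σ (.inr (.inr i)) with w | w | w
    · rw [hw] at h1; cases h1
    · rw [hw] at h1; cases h1
    · rw [hw] at h1
      have h3 : w = i := Sum.inr_injective (Sum.inr_injective h1)
      rw [h3]
  -- in terms of labels
  have hc1 : ∀ q q' : (Bl × Fin κ) × Fin m, q ≠ q' → ∃ u,
      (psum A.c u q.1 q.2.1 = (lb q).1 ∧ u q.2 = (lb q).2) ∧
      (psum A.c u q'.1 q'.2.1 = (lb q').1 ∧ u q'.2 = (lb q').2) := by
    intro q q' hqq
    obtain ⟨u, h1, h3⟩ := hcons q (.inl q') (fun h => hqq (Sum.inl_injective h))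
    rw [hlb] at h1 h3
    exact ⟨u, h1, h3⟩
  have hc2 : ∀ (q : (Bl × Fin κ) × Fin m) (β : Bl), ∃ u,
      (psum A.c u q.1 q.2.1 = (lb q).1 ∧ u q.2 = (lb q).2) ∧
      A.lab (bw β) = lw A.c u β := by
    intro q β
    obtain ⟨u, h1, h3⟩ := hcons q (.inr (.inl β)) (by intro h; cases h)
    rw [hlb] at h1
    rw [hbw] at h3
    have h4 : A.lab (bw β) = lw A.c u (A.blk (bw β)) := h3
    rw [hbwb] at h4
    exact ⟨u, h1, h4⟩
  -- the seed
  let o₀ : Bl × Fin κ := (β₀, ⟨0, by omega⟩)
  let u : Fin m → ZMod 2 := fun l => (lb (o₀, l)).2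
  have claimA : ∀ (o : Bl × Fin κ) (l : Fin m), (lb (o, l)).2 = u l := by
    intro o l
    by_cases ho : o = o₀
    · rw [ho]
    · obtain ⟨u', h1, h3⟩ := hc1 (o, l) (o₀, l) (fun h => ho (congrArg Prod.fst h))
      show (lb (o, l)).2 = (lb (o₀, l)).2
      rw [← h1.2, ← h3.2]
  have claimB : ∀ (l : ℕ) (hl : l < m) (o : Bl × Fin κ),
      (lb (o, ⟨l, hl⟩)).1 = psum A.c u o l := by
    intro l
    induction l with
    | zero =>
      intro hl o
      obtain ⟨u', h1, -⟩ := hc2 (o, ⟨0, hl⟩) β₀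
      rw [← h1.1, GaN_psum_zero]
      exact (GaN_psum_zero A.c u o).symm
    | succ l ih =>
      intro hl o
      obtain ⟨u', h1, h3⟩ := hc1 (o, ⟨l, by omega⟩) (o, ⟨l + 1, hl⟩) (by
        intro h
        have := congrArg (fun q => (q.2 : Fin m).1) h
        simp only at this
        omega)
      have e1 := ih (by omega) o
      have e2 := claimA o ⟨l, by omega⟩
      have e3 : psum A.c u' o l = (lb (o, ⟨l, by omega⟩)).1 := h1.1
      have e4 : u' ⟨l, by omega⟩ = (lb (o, ⟨l, by omega⟩)).2 := h1.2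
      have e5 : psum A.c u' o (l + 1) = (lb (o, ⟨l + 1, hl⟩)).1 := h3.1
      rw [← e5, GaN_psum_succ _ _ _ l (by omega), GaN_psum_succ _ _ _ l (by omega), e3, e1, e4, e2]
  have claimC : ∀ β : Bl, A.lab (bw β) = lw A.c u β := by
    intro β
    funext t
    obtain ⟨n, hn⟩ : ∃ n, m = n + 1 := ⟨m - 1, by omega⟩
    obtain ⟨u', h1, h3⟩ := hc2 ((β, t), ⟨n, by omega⟩) β
    have e1 := claimB n (by omega) (β, t)
    have e2 := claimA (β, t) ⟨n, by omega⟩
    have e3 : psum A.c u' (β, t) n = (lb ((β, t), ⟨n, by omega⟩)).1 := h1.1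
    have e4 : u' ⟨n, by omega⟩ = (lb ((β, t), ⟨n, by omega⟩)).2 := h1.2
    have e5 : ∀ w : Fin m → ZMod 2, word A.c w (β, t) =
        psum A.c w (β, t) n + A.c.1 (β, t) ⟨n, by omega⟩ * w ⟨n, by omega⟩ := by
      intro w
      rw [GaN_word, ← GaN_psum_succ]
      congr 1
    rw [h3]
    show word A.c u' (β, t) = word A.c u (β, t)
    rw [e5, e5, e3, e4, e1, e2]
  have hall : ∀ z, A.Cons u (σ z) := by
    intro z
    rcases z with q | β | i
    · rw [hlb]
      exact ⟨(claimB q.2.1 q.2.2 q.1).symm, (claimA q.1 q.2).symm⟩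
    · rw [hbw]
      show A.lab (bw β) = lw A.c u (A.blk (bw β))
      rw [hbwb]
      exact claimC β
    · rw [huni]
      trivial
  -- a consistent vertex is the vertex of its part
  have huniq : ∀ a, A.Cons u a → a = σ (A.part a) := by
    intro a ha
    rcases a with a | w | i
    · obtain ⟨q, y⟩ := a
      show (.inl (q, y) : Vx Bl Bv κ m d) = σ (.inl q)
      have h3 := hall (.inl q)
      rw [hlb] at h3 ⊢
      have h4 : psum A.c u q.1 q.2.1 = y.1 ∧ u q.2 = y.2 := ha
      have h5 : psum A.c u q.1 q.2.1 = (lb q).1 ∧ u q.2 = (lb q).2 := h3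
      have h6 : y = lb q := Prod.ext (h4.1.symm.trans h5.1) (h4.2.symm.trans h5.2)
      rw [h6]
    · show (.inr (.inl w) : Vx Bl Bv κ m d) = σ (.inr (.inl (A.blk w)))
      rw [hbw]
      have h4 : A.lab w = lw A.c u (A.blk w) := ha
      rw [A.lab_inj w (bw (A.blk w)) (hbwb _).symm (by rw [h4, claimC])]
      rw [hbwb]
    · exact (huni i).symm
  refine ⟨u, ⟨fun β => ⟨bw β, hbwb β, claimC β⟩, ?_⟩, ?_⟩
  · intro w w' hw hw' hz
    have h1 := huniq (.inr (.inl w)) hw
    have h3 := huniq (.inr (.inl w')) hw'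
    have hne : A.part (.inr (.inl w)) ≠ A.part (.inr (.inl w')) := fun h =>
      A.zero_blk w w' hz (Sum.inl_injective (Sum.inr_injective h))
    have h4 := hadj _ _ hne
    rw [← h1, ← h3, GaN_fix' A ι x _ _ (by
      rintro ⟨t, ht⟩
      apply A.zero_var w w' hz t
      rw [Sym2.eq_iff] at ht ⊢
      rcases ht with ⟨e1, e2⟩ | ⟨e1, e2⟩
      · exact Or.inl ⟨(Sum.inr_injective (ι.injective e1)).symm,
          (Sum.inr_injective (ι.injective e2)).symm⟩
      · exact Or.inr ⟨(Sum.inr_injective (ι.injective e2)).symm,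
          (Sum.inr_injective (ι.injective e1)).symm⟩)] at h4
    exact h4.2.1 hz
  · intro t hl hr
    have h1 := huniq _ hl
    have h3 := huniq _ hr
    have hne : A.part (.inr (A.endL t)) ≠ A.part (.inr (A.endR t)) := fun h =>
      A.end_ne t (Sum.inr_injective h)
    have h4 := hadj _ _ hne
    rw [← h1, ← h3, GaN_var] at h4
    exact h4

end Pool.Agent.EV
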