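import Pool.Agent.Work.MP_71c844_lc.EV.Stmts

/-!
# Block EV, item GaY: a good seed gives a clique
-/

namespace Pool.Agent.EV

open Finset
open Pool.Agent.NegLim (pull gph)
open Pool.Agent.LayCirc

/-- the canonical vertices of a seed -/
def GaY_can {Bl Bv E : Type} {κ m d : ℕ} (A : Gad Bl Bv E κ m d) (u : Fin m → ZMod 2)
    (w : Bl → Bv) : Pt Bl κ m d → Vx Bl Bv κ m d
  | .inl q => .inl (q, (psum A.c u q.1 q.2.1, u q.2))
  | .inr (.inl β) => .inr (.inl (w β))
  | .inr (.inr i) => .inr (.inr i)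

theorem GaY_part {Bl Bv E : Type} {κ m d : ℕ} (A : Gad Bl Bv E κ m d) (u : Fin m → ZMod 2)
    (w : Bl → Bv) (hw : ∀ β, A.blk (w β) = β) (z : Pt Bl κ m d) :
    A.part (GaY_can A u w z) = z := by
  rcases z with q | β | i
  · rfl
  · show (Sum.inr (Sum.map A.blk id (Sum.inl (w β))) : Pt Bl κ m d) = Sum.inr (Sum.inl β)
    rw [Sum.map_inl, hw]
  · rfl

theorem GaY_cons {Bl Bv E : Type} {κ m d : ℕ} (A : Gad Bl Bv E κ m d) (u : Fin m → ZMod 2)
    (w : Bl → Bv) (hw : ∀ β, A.blk (w β) = β) (hl : ∀ β, A.lab (w β) = lw A.c u β)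
    (z : Pt Bl κ m d) : A.Cons u (GaY_can A u w z) := by
  rcases z with q | β | i
  · exact ⟨rfl, rfl⟩
  · show A.lab (w β) = lw A.c u (A.blk (w β))
    rw [hw, hl]
  · trivial

/-- a pair of consistent vertices in different parts is true -/
theorem GaY_pair {Bl Bv E : Type} {κ m d v : ℕ} (A : Gad Bl Bv E κ m d)
    (ι : Vx Bl Bv κ m d ↪ Fin v) (x : E → Bool) (u : Fin m → ZMod 2) (hG : A.Good u)
    (hx : ∀ t, A.Cons u (.inr (A.endL t)) → A.Cons u (.inr (A.endR t)) → x t = true)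
    (a b : Vx Bl Bv κ m d) (ha : A.Cons u a) (hb : A.Cons u b) (hab : A.part a ≠ A.part b) :
    pull (A.proj ι) x s(ι a, ι b) = true := by
  classical
  unfold pull Gad.proj
  by_cases h : ∃ t : E, s(ι a, ι b) = s(ι (.inr (A.endL t)), ι (.inr (A.endR t)))
  · rw [dif_pos h]
    have hs := h.choose_spec
    show x h.choose = true
    rw [Sym2.eq_iff] at hs
    rcases hs with ⟨h1, h2⟩ | ⟨h1, h2⟩
    · have e1 := ι.injective h1
      have e2 := ι.injective h2
      exact hx _ (e1 ▸ ha) (e2 ▸ hb)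
    · have e1 := ι.injective h1
      have e2 := ι.injective h2
      exact hx _ (e2 ▸ hb) (e1 ▸ ha)
  · rw [dif_neg h]
    refine decide_eq_true ⟨a, b, rfl, hab, ?_, u, ha, hb⟩
    intro hZ
    rcases a with a | a | a
    · exact hZ
    · rcases b with b | b | b
      · exact hZ
      · exact hG.2 a b ha hb hZ
      · exact hZ
    · exact hZ

/-- **GaY.** -/
theorem pr_GaY : StGaY := by
  classical
  intro Bl Bv E _ _ _ κ m d v A ι x u hG hx
  choose w hw hl using hG.1
  intro hfree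
  have hinj : Function.Injective fun z : Pt Bl κ m d => ι (GaY_can A u w z) := by
    intro z z' hzz
    have h1 := ι.injective hzz
    have h2 := congrArg A.part h1
    rwa [GaY_part A u w hw, GaY_part A u w hw] at h2
  refine hfree (Finset.univ.image fun z : Pt Bl κ m d => ι (GaY_can A u w z)) ⟨?_, ?_⟩
  · intro a ha b hb hab
    rw [Finset.mem_coe, Finset.mem_image] at ha hb
    obtain ⟨z, -, rfl⟩ := ha
    obtain ⟨z', -, rfl⟩ := hb
    show (SimpleGraph.fromEdgeSet _).Adj _ _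
    rw [SimpleGraph.fromEdgeSet_adj]
    refine ⟨?_, hab⟩
    refine GaY_pair A ι x u hG hx _ _ (GaY_cons A u w hw hl z) (GaY_cons A u w hw hl z') ?_
    rw [GaY_part A u w hw, GaY_part A u w hw]
    rintro rfl
    exact hab rfl
  · rw [Finset.card_image_of_injective _ hinj, Finset.card_univ]

end Pool.Agent.EV
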