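import Pool.Agent.Work.MP_71c844_lc.EV.Stmts

/-!
# Block EV: item InB (helper87)
-/

namespace Pool.Agent.EV

open Finset
open Pool.Agent.NegLim (pull gph)
open Pool.Agent.LayCirc

/-- the block of a block vertex -/
private def InB_blk {v N : ℕ} (χ : Fin v → Option (Fin N × Fin 2)) (x : {x : Fin v // χ x ≠ none}) :
    Fin N × Fin 2 := (χ x.1).get (Option.isSome_iff_ne_none.2 x.2)

private lemma InB_blk_eq {v N : ℕ} {χ : Fin v → Option (Fin N × Fin 2)}
    {x : {x : Fin v // χ x ≠ none}} {p : Fin N × Fin 2} (h : χ x.1 = some p) : InB_blk χ x = p := by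
  unfold InB_blk
  simp [h]

theorem pr_InB : StInB := by
  classical
  intro hY hN hE v N L m d k F χ lam c h1N h1L h1m hk hv
  let E := {t : Fin N × (Fin 2 → Fin L → ZMod 2) // t.2 ∈ TB F χ lam t.1}
  have hex : ∀ t : E, ∃ x y : Fin v, s(x, y) ∈ F ∧ χ x = some (t.1.1, 0) ∧ χ y = some (t.1.1, 1) ∧
      t.1.2 0 = lam x ∧ t.1.2 1 = lam y := by
    intro t
    have := t.2
    unfold TB at this
    exact (Finset.mem_filter.1 this).2
  choose X Y hF hX hY' hlX hlY using hex
  let A : Gad (Fin N × Fin 2) {x : Fin v // χ x ≠ none} E L m d :=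
    { c := c
      blk := InB_blk χ
      lab := fun x => lam x.1
      endL := fun t => .inl ⟨X t, by rw [hX t]; exact Option.some_ne_none _⟩
      endR := fun t => .inl ⟨Y t, by rw [hY' t]; exact Option.some_ne_none _⟩
      zero := fun a b => (∃ j, (χ a.1 = some (j, 0) ∧ χ b.1 = some (j, 1)) ∨
        (χ a.1 = some (j, 1) ∧ χ b.1 = some (j, 0))) ∧ s(a.1, b.1) ∉ F
      lab_inj := fun w w' _ h => Subtype.ext (lam.injective h)
      end_ne := by
        intro t h
        simp only [Sum.map_inl, Sum.inl.injEq] at h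
        rw [InB_blk_eq (hX t), InB_blk_eq (hY' t)] at h
        exact absurd (congrArg Prod.snd h) (show ¬ ((0 : Fin 2) = 1) by decide)
      end_uniq := by
        intro t t' h
        rw [Sym2.eq_iff] at h
        rcases h with ⟨h1, h2⟩ | ⟨h1, h2⟩
        · have e1 : X t = X t' := congrArg Subtype.val (Sum.inl.inj h1)
          have e2 : Y t = Y t' := congrArg Subtype.val (Sum.inl.inj h2)
          apply Subtype.ext
          apply Prod.ext
          · have a1 := hX t
            rw [e1, hX t'] at a1
            exact ((Prod.mk.inj (Option.some.inj a1)).1).symm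
          · funext s
            have hs : s = 0 ∨ s = 1 := by omega
            rcases hs with rfl | rfl
            · rw [hlX t, hlX t', e1]
            · rw [hlY t, hlY t', e2]
        · have e1 : X t = Y t' := congrArg Subtype.val (Sum.inl.inj h1)
          exfalso
          have a1 := hX t
          rw [e1, hY' t'] at a1
          exact absurd (Prod.mk.inj (Option.some.inj a1)).2 (by decide)
      zero_symm := by
        rintro a b ⟨⟨j, h⟩, h2⟩
        refine ⟨⟨j, ?_⟩, ?_⟩
        · rcases h with h | h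
          · exact Or.inr ⟨h.2, h.1⟩
          · exact Or.inl ⟨h.2, h.1⟩
        · rwa [Sym2.eq_swap]
      zero_blk := by
        rintro a b ⟨⟨j, h⟩, h2⟩ he
        rcases h with h | h
        · rw [InB_blk_eq h.1, InB_blk_eq h.2] at he
          exact absurd (congrArg Prod.snd he) (show ¬ ((0 : Fin 2) = 1) by decide)
        · rw [InB_blk_eq h.1, InB_blk_eq h.2] at he
          exact absurd (congrArg Prod.snd he) (show ¬ ((1 : Fin 2) = 0) by decide)
      zero_var := by
        rintro a b ⟨_, h2⟩ t h
        apply h2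
        rw [Sym2.eq_iff] at h
        rcases h with ⟨h3, h4⟩ | ⟨h3, h4⟩
        · have e1 : X t = a.1 := congrArg Subtype.val (Sum.inl.inj h3)
          have e2 : Y t = b.1 := congrArg Subtype.val (Sum.inl.inj h4)
          rw [← e1, ← e2]
          exact hF t
        · have e1 : X t = b.1 := congrArg Subtype.val (Sum.inl.inj h3)
          have e2 : Y t = a.1 := congrArg Subtype.val (Sum.inl.inj h4)
          rw [← e1, ← e2, Sym2.eq_swap]
          exact hF t }
  -- the embedding
  have hcB : Fintype.card {x : Fin v // χ x ≠ none} =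
      (univ.filter (fun x => χ x ≠ none)).card := Fintype.card_subtype _
  obtain ⟨ι0, hι0⟩ := hE (((((Fin N × Fin 2) × Fin L) × Fin m) × (ZMod 2 × ZMod 2)) ⊕ Fin d)
    {x : Fin v // χ x ≠ none} v (Function.Embedding.subtype _) (by
      rw [hcB]
      simp only [Fintype.card_sum, Fintype.card_prod, Fintype.card_fin, ZMod.card]
      refine le_trans (le_of_eq ?_) hv
      ring)
  let ι : Vx (Fin N × Fin 2) {x : Fin v // χ x ≠ none} L m d ↪ Fin v :=
    ⟨fun z => match z with
      | .inl a => ι0 (.inl (.inl a))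
      | .inr (.inl b) => ι0 (.inr b)
      | .inr (.inr i) => ι0 (.inl (.inr i)), by
      rintro (a | b | i) (a' | b' | i') h
      all_goals
        have h' := ι0.injective h
        simp only [Sum.inl.injEq, Sum.inr.injEq, reduceCtorEq] at h'
      · rw [h']
      · rw [h']
      · rw [h']⟩
  have hιb : ∀ b, ι (.inr (.inl b)) = b.1 := fun b => hι0 b
  refine ⟨fun e => Sum.map id Subtype.val (A.proj ι e), ?_, ?_⟩
  · intro e t h
    dsimp only at h
    unfold Gad.proj at h
    split_ifs at h with h2
    · have hs := h2.choose_spec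
      rw [hs]
      change s(ι (.inr (.inl _)), ι (.inr (.inl _))) ∈ F
      rw [hιb, hιb]
      exact hF _
    · simp at h
  intro x
  have hpull : pull (fun e => Sum.map id Subtype.val (A.proj ι e)) x =
      pull (A.proj ι) (fun t : E => x t.1) := by
    funext e
    cases hh : A.proj ι e <;> simp [pull, hh]
  have hcard : Fintype.card (Pt (Fin N × Fin 2) L m d) = k := by
    rw [← hk]
    simp only [Pt, Fintype.card_sum, Fintype.card_prod, Fintype.card_fin]
    ring
  rw [hpull]
  haveI : NeZero N := ⟨by omega⟩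
  constructor
  · intro h
    rw [← hcard] at h
    obtain ⟨u, hG, ht⟩ := hN (Fin N × Fin 2) {x : Fin v // χ x ≠ none} E L m d v A ι
      (fun t => x t.1) h1L h1m h
    have hmem : ∀ j, sy c u j ∈ TB F χ lam j := by
      intro j
      obtain ⟨w0, hw0, hl0⟩ := hG.1 (j, 0)
      obtain ⟨w1, hw1, hl1⟩ := hG.1 (j, 1)
      have hχ0 : χ w0.1 = some (j, 0) := by
        have : InB_blk χ w0 = (j, 0) := hw0
        rw [← this]; unfold InB_blk; simp
      have hχ1 : χ w1.1 = some (j, 1) := by
        have : InB_blk χ w1 = (j, 1) := hw1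
        rw [← this]; unfold InB_blk; simp
      have hz := hG.2 w0 w1 (by rw [hw0]; exact hl0) (by rw [hw1]; exact hl1)
      have hin : s(w0.1, w1.1) ∈ F := by
        by_contra hc
        exact hz ⟨⟨j, Or.inl ⟨hχ0, hχ1⟩⟩, hc⟩
      unfold TB
      exact Finset.mem_filter.2 ⟨Finset.mem_univ _, w0.1, w1.1, hin, hχ0, hχ1, hl0.symm, hl1.symm⟩
    refine ⟨u, hmem, fun j => ?_⟩
    let t : E := ⟨(j, sy c u j), hmem j⟩
    refine ht t ?_ ?_
    · change lam (X t) = lw c u (InB_blk χ _)
      rw [InB_blk_eq (hX t)]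
      exact (hlX t).symm
    · change lam (Y t) = lw c u (InB_blk χ _)
      rw [InB_blk_eq (hY' t)]
      exact (hlY t).symm
  · rintro ⟨u, hmem, hx⟩
    rw [← hcard]
    have key0 : ∀ w : {x : Fin v // χ x ≠ none}, ∀ j, χ w.1 = some (j, 0) →
        A.lab w = lw A.c u (A.blk w) → w.1 = X ⟨(j, sy c u j), hmem j⟩ := by
      intro w j hj hl
      have h2 : lam w.1 = lw c u (InB_blk χ w) := hl
      rw [InB_blk_eq hj] at h2
      exact lam.injective (h2.trans (hlX ⟨(j, sy c u j), hmem j⟩))
    have key1 : ∀ w : {x : Fin v // χ x ≠ none}, ∀ j, χ w.1 = some (j, 1) →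
        A.lab w = lw A.c u (A.blk w) → w.1 = Y ⟨(j, sy c u j), hmem j⟩ := by
      intro w j hj hl
      have h2 : lam w.1 = lw c u (InB_blk χ w) := hl
      rw [InB_blk_eq hj] at h2
      exact lam.injective (h2.trans (hlY ⟨(j, sy c u j), hmem j⟩))
    refine hY (Fin N × Fin 2) {x : Fin v // χ x ≠ none} E L m d v A ι
      (fun t => x t.1) u ⟨?_, ?_⟩ ?_
    · rintro ⟨j, s⟩
      let t : E := ⟨(j, sy c u j), hmem j⟩
      have hs : s = 0 ∨ s = 1 := by omega
      rcases hs with rfl | rfl
      · exact ⟨⟨X t, by rw [hX t]; exact Option.some_ne_none _⟩, InB_blk_eq (hX t), (hlX t).symm⟩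
      · exact ⟨⟨Y t, by rw [hY' t]; exact Option.some_ne_none _⟩, InB_blk_eq (hY' t), (hlY t).symm⟩
    · rintro w w' hw hw' ⟨⟨j, h⟩, h2⟩
      rcases h with h | h
      · rw [key0 w j h.1 hw, key1 w' j h.2 hw'] at h2
        exact h2 (hF _)
      · rw [key1 w j h.1 hw, key0 w' j h.2 hw', Sym2.eq_swap] at h2
        exact h2 (hF _)
    · intro t h1 h2
      have a1 : lam (X t) = lw c u (InB_blk χ ⟨X t, by rw [hX t]; exact Option.some_ne_none _⟩) := h1
      have a2 : lam (Y t) = lw c u (InB_blk χ ⟨Y t, by rw [hY' t]; exact Option.some_ne_none _⟩) := h2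
      rw [InB_blk_eq (hX t)] at a1
      rw [InB_blk_eq (hY' t)] at a2
      have e : t.1.2 = sy c u t.1.1 := by
        funext s
        have hs : s = 0 ∨ s = 1 := by omega
        rcases hs with rfl | rfl
        · rw [hlX t, a1]; rfl
        · rw [hlY t, a2]; rfl
      have := hx t.1.1
      rw [← e] at this
      exact this

end Pool.Agent.EV
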