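import Pool.Agent.Work.MP_71c844_lc.EV.Stmts

/-!
# Block EV, item InS: the instance with a star
-/

namespace Pool.Agent.EV

open Finset
open Pool.Agent.NegLim (pull gph)
open Pool.Agent.LayCirc

section InS

variable {v N L m d : ℕ}

/-- block vertices -/
abbrev InS_Bv (χ : Fin v → Option (Fin N)) : Type := {x : Fin v // χ x ≠ none}

/-- position of a block vertex -/
def InS_pos (χ : Fin v → Option (Fin N)) (x : InS_Bv χ) : Fin N :=
  (χ x.1).get (Option.ne_none_iff_isSome.1 x.2)

private lemma InS_pos_spec (χ : Fin v → Option (Fin N)) (x : InS_Bv χ) :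
    χ x.1 = some (InS_pos χ x) := by
  simp [InS_pos]

private lemma InS_pos_iff (χ : Fin v → Option (Fin N)) (x : InS_Bv χ) (j : Fin N) :
    InS_pos χ x = j ↔ χ x.1 = some j := by
  rw [InS_pos_spec χ x, Option.some_inj]

/-- variables -/
abbrev InS_E (χ : Fin v → Option (Fin N)) (lam : Fin v ↪ (Fin L → ZMod 2)) : Type :=
  {t : Fin N × (Fin 1 → Fin L → ZMod 2) // t.2 ∈ TS χ lam t.1}

private lemma InS_mem (χ : Fin v → Option (Fin N)) (lam : Fin v ↪ (Fin L → ZMod 2)) (j : Fin N)
    (p : Fin 1 → Fin L → ZMod 2) : p ∈ TS χ lam j ↔ ∃ x, χ x = some j ∧ p 0 = lam x := by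
  simp [TS]

private lemma InS_ex (χ : Fin v → Option (Fin N)) (lam : Fin v ↪ (Fin L → ZMod 2))
    (t : InS_E χ lam) : ∃ x : InS_Bv χ, χ x.1 = some t.1.1 ∧ t.1.2 0 = lam x.1 := by
  obtain ⟨x, h1, h2⟩ := (InS_mem χ lam t.1.1 t.1.2).1 t.2
  exact ⟨⟨x, by rw [h1]; simp⟩, h1, h2⟩

/-- the outer end of a variable -/
noncomputable def InS_end (χ : Fin v → Option (Fin N)) (lam : Fin v ↪ (Fin L → ZMod 2))
    (t : InS_E χ lam) : InS_Bv χ := (InS_ex χ lam t).choose

private lemma InS_end_spec (χ : Fin v → Option (Fin N)) (lam : Fin v ↪ (Fin L → ZMod 2))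
    (t : InS_E χ lam) :
    χ (InS_end χ lam t).1 = some t.1.1 ∧ t.1.2 0 = lam (InS_end χ lam t).1 :=
  (InS_ex χ lam t).choose_spec

private lemma InS_fun1 {A : Type} (p q : Fin 1 → A) (h : p 0 = q 0) : p = q := by
  funext i
  rw [Subsingleton.elim i 0]
  exact h

private lemma InS_end_inj (χ : Fin v → Option (Fin N)) (lam : Fin v ↪ (Fin L → ZMod 2))
    (t t' : InS_E χ lam) (h : InS_end χ lam t = InS_end χ lam t') : t = t' := by
  have h1 := InS_end_spec χ lam t
  have h2 := InS_end_spec χ lam t'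
  rw [← h] at h2
  refine Subtype.ext (Prod.ext ?_ (InS_fun1 _ _ ?_))
  · exact Option.some_injective _ (h1.1.symm.trans h2.1)
  · exact h1.2.trans h2.2.symm

/-- the gadget -/
noncomputable def InS_gad (χ : Fin v → Option (Fin N)) (lam : Fin v ↪ (Fin L → ZMod 2))
    (c : Cd ((Fin N × Fin 1) × Fin L) m) (hd : 1 ≤ d) :
    Gad (Fin N × Fin 1) (InS_Bv χ) (InS_E χ lam) L m d where
  c := c
  blk := fun x => (InS_pos χ x, 0)
  lab := fun x => lam x.1
  endL := fun _ => .inr ⟨0, hd⟩
  endR := fun t => .inl (InS_end χ lam t)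
  zero := fun _ _ => False
  lab_inj := fun w w' _ h => Subtype.ext (lam.injective h)
  end_ne := fun t => by simp
  end_uniq := by
    intro t t' h
    refine InS_end_inj χ lam t t' ?_
    rcases Sym2.eq_iff.1 h with ⟨_, h2⟩ | ⟨h1, _⟩
    · exact Sum.inl_injective h2
    · exact absurd h1 (by simp)
  zero_symm := fun _ _ h => h
  zero_blk := fun _ _ h => h.elim
  zero_var := fun _ _ h => h.elim

/-- splitting of the vertices -/
def InS_spl (χ : Fin v → Option (Fin N)) (hd : 1 ≤ d) :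
    Vx (Fin N × Fin 1) (InS_Bv χ) L m d →
      ((((((Fin N × Fin 1) × Fin L) × Fin m) × (ZMod 2 × ZMod 2)) ⊕
        {i : Fin d // i ≠ ⟨0, hd⟩}) ⊕ Option (InS_Bv χ))
  | .inl g => .inl (.inl g)
  | .inr (.inl w) => .inr (some w)
  | .inr (.inr i) => if h : i = ⟨0, hd⟩ then .inr none else .inl (.inr ⟨i, h⟩)

private lemma InS_spl_inj (χ : Fin v → Option (Fin N)) (hd : 1 ≤ d) :
    Function.Injective (InS_spl (L := L) (m := m) χ hd) := by
  rintro (g | w | i) (g' | w' | i') h
  · simpa [InS_spl] using h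
  · simp [InS_spl] at h
  · simp only [InS_spl] at h
    split_ifs at h <;> simp at h
  · simp [InS_spl] at h
  · simpa [InS_spl] using h
  · simp only [InS_spl] at h
    split_ifs at h <;> simp at h
  · simp only [InS_spl] at h
    split_ifs at h <;> simp at h
  · simp only [InS_spl] at h
    split_ifs at h <;> simp at h
  · simp only [InS_spl] at h
    split_ifs at h with h1 h2 h2
    · rw [h1, h2]
    · have h3 : i = i' := by simpa using h
      rw [h3]

private lemma InS_pull {α β γ : Type} (π : α → Bool ⊕ β) (f : β → γ) (x : γ → Bool) :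
    pull (fun e => Sum.map id f (π e)) x = pull π (fun t => x (f t)) := by
  funext e
  simp only [pull]
  cases π e <;> rfl

/-- the embedding -/
private lemma InS_emb (hEm : StEm) (a₀ : Fin v) (χ : Fin v → Option (Fin N)) (h0 : χ a₀ = none)
    (hd : 1 ≤ d)
    (hc : 4 * (N * L * m) + Fintype.card (InS_Bv χ) + d ≤ v) :
    ∃ ι : Vx (Fin N × Fin 1) (InS_Bv χ) L m d ↪ Fin v,
      (∀ x : InS_Bv χ, ι (.inr (.inl x)) = x.1) ∧ ι (.inr (.inr ⟨0, hd⟩)) = a₀ := by
  classical
  let f : Option (InS_Bv χ) ↪ Fin v := ⟨fun o => o.elim a₀ Subtype.val, by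
    rintro (_ | x) (_ | y) h
    · rfl
    · simp only [Option.elim] at h
      exact absurd (h ▸ h0) y.2
    · simp only [Option.elim] at h
      exact absurd (h.symm ▸ h0) x.2
    · simp only [Option.elim] at h
      rw [Subtype.ext h]⟩
  have hcard : Fintype.card (((((Fin N × Fin 1) × Fin L) × Fin m) × (ZMod 2 × ZMod 2)) ⊕
      {i : Fin d // i ≠ ⟨0, hd⟩}) + Fintype.card (Option (InS_Bv χ)) ≤ v := by
    have h1 : Fintype.card {i : Fin d // i ≠ ⟨0, hd⟩} = d - 1 := by
      rw [Fintype.card_subtype_compl, Fintype.card_subtype_eq, Fintype.card_fin]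
    have h2 : Fintype.card (ZMod 2) = 2 := ZMod.card 2
    rw [Fintype.card_sum, h1, Fintype.card_option]
    simp only [Fintype.card_prod, Fintype.card_fin, h2, mul_one]
    have : N * L * m * (2 * 2) = 4 * (N * L * m) := by ring
    omega
  obtain ⟨ι, hι⟩ := hEm _ _ v f hcard
  refine ⟨⟨fun z => ι (InS_spl χ hd z), ι.injective.comp (InS_spl_inj χ hd)⟩, ?_, ?_⟩
  · intro x
    exact hι (some x)
  · change ι (InS_spl χ hd (.inr (.inr ⟨0, hd⟩))) = a₀
    simp only [InS_spl, dif_pos]
    exact hι none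

end InS

theorem pr_InS : StInS := by
  classical
  intro hY hN hEm v N L m d k a₀ χ lam c h0 hN1 hL1 hm1 hd hk hv
  have hcB : Fintype.card (InS_Bv χ) = (univ.filter (fun x => χ x ≠ none)).card :=
    Fintype.card_of_subtype _ (fun x => by simp)
  obtain ⟨ι, hι1, hι2⟩ := InS_emb (L := L) (m := m) hEm a₀ χ h0 hd (by rw [hcB]; convert hv)
  set A := InS_gad χ lam c hd with hA
  have : Nonempty (Fin N × Fin 1) := ⟨(⟨0, hN1⟩, 0)⟩
  have hkc : Fintype.card (Pt (Fin N × Fin 1) L m d) = k := by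
    rw [← hk]
    simp only [Fintype.card_sum, Fintype.card_prod, Fintype.card_fin, mul_one]
    ring
  refine ⟨fun e => Sum.map id Subtype.val (A.proj ι e), ?_, ?_⟩
  · intro e t h
    have h' : Sum.map id Subtype.val (A.proj ι e) = Sum.inr t := h
    rw [Gad.proj] at h'
    split_ifs at h' with hex
    · obtain ⟨t', ht'⟩ := hex
      refine ⟨(InS_end χ lam t').1, (InS_end χ lam t').2, ?_⟩
      rw [ht']
      change s(ι (.inr (.inr ⟨0, hd⟩)), ι (.inr (.inl (InS_end χ lam t')))) = _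
      rw [hι1, hι2]
    · simp at h'
  · intro x
    have hp : pull (fun e => Sum.map id Subtype.val (A.proj ι e)) x =
        pull (A.proj ι) (fun t => x t.1) := InS_pull _ _ _
    have hgood : ∀ u, A.Good u ↔ ∀ j, sy c u j ∈ TS χ lam j := by
      intro u
      constructor
      · intro h j
        obtain ⟨w, hw1, hw2⟩ := h.1 (j, 0)
        refine (InS_mem χ lam j _).2 ⟨w.1, ?_, ?_⟩
        · exact (InS_pos_iff χ w j).1 (congrArg Prod.fst hw1)
        · exact hw2.symm
      · intro h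
        refine ⟨?_, fun _ _ _ _ hz => hz⟩
        rintro ⟨j, s⟩
        obtain ⟨y, hy1, hy2⟩ := (InS_mem χ lam j _).1 (h j)
        refine ⟨⟨y, by rw [hy1]; simp⟩, ?_, ?_⟩
        · refine Prod.ext ?_ (Subsingleton.elim _ _)
          exact (InS_pos_iff χ _ j).2 hy1
        · rw [Subsingleton.elim s 0]
          exact hy2.symm
    have hcons : ∀ u (t : InS_E χ lam), A.Cons u (.inr (A.endR t)) ↔ t.1.2 = sy c u t.1.1 := by
      intro u t
      have h1 := InS_end_spec χ lam t
      have h2 : InS_pos χ (InS_end χ lam t) = t.1.1 := (InS_pos_iff χ _ _).2 h1.1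
      change lam (InS_end χ lam t).1 = lw c u (InS_pos χ (InS_end χ lam t), 0) ↔ _
      rw [h2, ← h1.2]
      constructor
      · intro h
        exact InS_fun1 _ _ h
      · intro h
        exact congrFun h 0
    rw [hp, ← hkc]
    constructor
    · intro h
      obtain ⟨u, hu1, hu2⟩ := hN _ _ _ L m d v A ι _ hL1 hm1 h
      have hu1' := (hgood u).1 hu1
      refine ⟨u, hu1', fun j => ?_⟩
      exact hu2 ⟨(j, sy c u j), hu1' j⟩ trivial ((hcons u ⟨(j, sy c u j), hu1' j⟩).2 rfl)
    · rintro ⟨u, hu1, hu2⟩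
      refine hY _ _ _ L m d v A ι _ u ((hgood u).2 hu1) ?_
      intro t _ h2
      have h3 := (hcons u t).1 h2
      have h4 := hu2 t.1.1
      rw [← h3] at h4
      exact h4

end Pool.Agent.EV
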