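import Pool.Agent.Work.MP_71c844_lc.EV.Stmts

/-!
# Block EV, item Lg: graphs without a vertex of large degree
-/

namespace Pool.Agent.EV

open Finset
open Pool.Agent.NegLim (pull gph)
open Pool.Agent.LayCirc

open Classical in
/-- averaging over the partitions -/
private theorem Lg_avg {v M Δ : ℕ} (hM : 1 ≤ M) (F : Finset (Sym2 (Fin v)))
    (h : ∀ i : Fin M, ∑ χ : Fin v → Fin M × Fin 2, (((F.filter (fun e => gd χ i e)).card : ℝ) -
      F.card / (2 * (M : ℝ) ^ 2)) ^ 2 ≤
      (2 * (M : ℝ)) ^ v * (F.card / (2 * (M : ℝ) ^ 2) * (1 + Δ / M))) :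
    ∃ χ : Fin v → Fin M × Fin 2, ∑ i : Fin M, (((F.filter (fun e => gd χ i e)).card : ℝ) -
      F.card / (2 * (M : ℝ) ^ 2)) ^ 2 ≤ F.card / (2 * (M : ℝ) ^ 2) * (M + Δ) := by
  have hM0 : (0 : ℝ) < M := by exact_mod_cast hM
  have : Nonempty (Fin v → Fin M × Fin 2) := ⟨fun _ => (⟨0, hM⟩, 0)⟩
  have h1 : ∑ χ : Fin v → Fin M × Fin 2, ∑ i : Fin M, (((F.filter (fun e => gd χ i e)).card : ℝ) -
      F.card / (2 * (M : ℝ) ^ 2)) ^ 2 ≤
      ∑ _χ : Fin v → Fin M × Fin 2, (F.card / (2 * (M : ℝ) ^ 2) * (M + Δ) : ℝ) := by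
    rw [Finset.sum_comm]
    refine (Finset.sum_le_sum fun i _ => h i).trans ?_
    rw [Finset.sum_const, Finset.sum_const, Finset.card_univ, Finset.card_univ, Fintype.card_fin,
      Fintype.card_fun, Fintype.card_prod, Fintype.card_fin, Fintype.card_fin, Fintype.card_fin,
      nsmul_eq_mul, nsmul_eq_mul]
    push_cast
    rw [show (M : ℝ) * 2 = 2 * M by ring]
    apply le_of_eq
    field_simp
  obtain ⟨χ, _, hχ⟩ := Finset.exists_le_of_sum_le Finset.univ_nonempty h1
  exact ⟨χ, hχ⟩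

/-- few bad indices -/
private theorem Lg_cheb {M : ℕ} (X : Fin M → ℝ) (μ K : ℝ) (hμ : 0 < μ)
    (h : ∑ i, (X i - μ) ^ 2 ≤ μ * K) :
    ((univ.filter (fun i => X i < μ / 2)).card : ℝ) * μ ≤ 4 * K := by
  have h1 : ((univ.filter (fun i => X i < μ / 2)).card : ℝ) * (μ ^ 2 / 4) ≤ μ * K := by
    refine le_trans ?_ h
    rw [← nsmul_eq_mul, ← Finset.sum_const]
    refine le_trans ?_ (Finset.sum_le_sum_of_subset_of_nonneg
      (Finset.filter_subset (fun i => X i < μ / 2) univ) fun i _ _ => sq_nonneg _)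
    refine Finset.sum_le_sum fun i hi => ?_
    have hi' := (Finset.mem_filter.mp hi).2
    nlinarith
  have h2 : μ * (((univ.filter (fun i => X i < μ / 2)).card : ℝ) * μ) ≤ μ * (4 * K) := by
    nlinarith
  exact le_of_mul_le_mul_left h2 hμ

open Classical in
theorem pr_Lg : StLg := by
  intro hPf hPe hMv v N F hN hF hbig hdeg
  have hN0 : (0 : ℝ) < N := by exact_mod_cast hN
  have hf0 : 0 < F.card := by
    refine lt_of_lt_of_le ?_ hbig
    positivity
  have hf0' : (0 : ℝ) < F.card := by exact_mod_cast hf0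
  set Δ := F.card / (256 * N) with hΔ
  have hΔ1 : ∀ x, (F.filter (fun e => x ∈ e)).card ≤ Δ := by
    intro x
    rw [hΔ, Nat.le_div_iff_mul_le (by positivity)]
    have := hdeg x
    nlinarith
  have hΔ2 : 256 * N * Δ ≤ F.card := Nat.mul_div_le _ _
  obtain ⟨χ, hχ⟩ := Lg_avg (M := 4 * N) (Δ := Δ) (by omega) F
    (fun i => hMv hPf hPe v (4 * N) Δ i F hF hΔ1)
  set μ : ℝ := F.card / (2 * ((4 * N : ℕ) : ℝ) ^ 2) with hμ
  have hμ' : μ = F.card / (32 * (N : ℝ) ^ 2) := by
    rw [hμ]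
    push_cast
    ring
  have hμ0 : 0 < μ := by
    rw [hμ']
    positivity
  have hc := Lg_cheb (fun i : Fin (4 * N) => ((F.filter (fun e => gd χ i e)).card : ℝ)) μ
    (((4 * N : ℕ) : ℝ) + Δ) hμ0 hχ
  set Bd := univ.filter (fun i : Fin (4 * N) => ((F.filter (fun e => gd χ i e)).card : ℝ) < μ / 2)
    with hBd
  have hBcard : Bd.card ≤ N := by
    have h1 : (Bd.card : ℝ) * F.card ≤ 128 * (N : ℝ) ^ 2 * (4 * N + Δ) := by
      rw [hμ'] at hc
      push_cast at hc
      have h2 : (Bd.card : ℝ) * (F.card / (32 * (N : ℝ) ^ 2)) * (32 * (N : ℝ) ^ 2) =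
          (Bd.card : ℝ) * F.card := by
        field_simp
      rw [← h2]
      have h3 := mul_le_mul_of_nonneg_right hc (by positivity : (0 : ℝ) ≤ 32 * (N : ℝ) ^ 2)
      nlinarith
    have h4 : (512 * (N : ℝ) ^ 2) + 128 * N * Δ ≤ F.card := by
      have h5 : (1024 * (N : ℝ) ^ 2) ≤ F.card := by exact_mod_cast hbig
      have h6 : (256 * (N : ℝ) * Δ) ≤ F.card := by exact_mod_cast hΔ2
      linarith
    have h7 : (Bd.card : ℝ) * F.card ≤ N * F.card := by
      refine h1.trans ?_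
      have := mul_le_mul_of_nonneg_left h4 hN0.le
      nlinarith
    have h8 : (Bd.card : ℝ) ≤ N := le_of_mul_le_mul_right h7 hf0'
    exact_mod_cast h8
  -- the good indices
  have hGcard : 3 * N ≤ (univ \ Bd : Finset (Fin (4 * N))).card := by
    rw [Finset.card_sdiff_of_subset (Finset.subset_univ _), Finset.card_univ, Fintype.card_fin]
    omega
  have hemb : Nonempty (Fin 3 × Fin N ↪ {i // i ∈ (univ \ Bd : Finset (Fin (4 * N)))}) := by
    apply Function.Embedding.nonempty_of_card_le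
    rw [Fintype.card_prod, Fintype.card_fin, Fintype.card_fin, Fintype.card_coe]
    exact hGcard
  obtain ⟨φ⟩ := hemb
  have hφg : ∀ p, μ / 2 ≤ ((F.filter (fun e => gd χ (φ p).1 e)).card : ℝ) := by
    intro p
    by_contra hlt
    push Not at hlt
    exact (Finset.mem_sdiff.mp (φ p).2).2 (Finset.mem_filter.mpr ⟨Finset.mem_univ _, hlt⟩)
  have hφinj : ∀ p q, (φ p).1 = (φ q).1 → p = q := fun p q h => φ.injective (Subtype.ext h)
  -- one of three classes is small
  let V : Fin 3 → Finset (Fin v) := fun a => univ.filter (fun x => ∃ j, (χ x).1 = (φ (a, j)).1)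
  have hV : ∑ a, (V a).card ≤ v := by
    rw [← Finset.card_biUnion]
    · refine (Finset.card_le_univ _).trans ?_
      rw [Fintype.card_fin]
    · intro a _ b _ hab
      refine Finset.disjoint_left.mpr fun x hx hx' => hab ?_
      obtain ⟨j, hj⟩ := (Finset.mem_filter.mp hx).2
      obtain ⟨k, hk⟩ := (Finset.mem_filter.mp hx').2
      have := hφinj (a, j) (b, k) (hj.symm.trans hk)
      exact (Prod.ext_iff.mp this).1
  have ha : ∃ a, 3 * (V a).card ≤ v := by
    by_contra hcon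
    push Not at hcon
    have h0 := hcon 0
    have h1 := hcon 1
    have h2 := hcon 2
    rw [Fin.sum_univ_three] at hV
    omega
  obtain ⟨a, ha⟩ := ha
  let χ' : Fin v → Option (Fin N × Fin 2) := fun x =>
    if h : ∃ j, (χ x).1 = (φ (a, j)).1 then some (h.choose, (χ x).2) else none
  have hχ' : ∀ x j s, χ x = ((φ (a, j)).1, s) → χ' x = some (j, s) := by
    intro x j s hx
    have h : ∃ j, (χ x).1 = (φ (a, j)).1 := ⟨j, by rw [hx]⟩
    have h1 : h.choose = j := by
      have h2 := h.choose_spec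
      have h3 : (χ x).1 = (φ (a, j)).1 := by rw [hx]
      have := hφinj (a, j) (a, h.choose) (h3.symm.trans h2)
      exact (Prod.ext_iff.mp this).2.symm
    have h4 : (χ x).2 = s := by rw [hx]
    simp only [χ']
    rw [dif_pos h, h1, h4]
  refine ⟨χ', ?_, ?_⟩
  · refine le_trans (Nat.mul_le_mul_left 3 (Finset.card_le_card ?_)) ha
    intro x hx
    have h1 := (Finset.mem_filter.mp hx).2
    rw [Finset.mem_filter]
    refine ⟨Finset.mem_univ _, ?_⟩
    by_contra hcon
    apply h1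
    simp only [χ']
    rw [dif_neg hcon]
  · intro j
    have h1 := hφg (a, j)
    have h2 : (F.filter (fun e => gd χ (φ (a, j)).1 e)).card ≤
        (F.filter (fun e => ∃ x y, e = s(x, y) ∧ χ' x = some (j, 0) ∧ χ' y = some (j, 1))).card := by
      apply Finset.card_le_card
      intro e he
      rw [Finset.mem_filter] at he ⊢
      obtain ⟨x, y, hxy, hx, hy⟩ := he.2
      exact ⟨he.1, x, y, hxy, hχ' x j 0 hx, hχ' y j 1 hy⟩
    have h3 : ((F.filter (fun e => gd χ (φ (a, j)).1 e)).card : ℝ) ≤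
        ((F.filter (fun e => ∃ x y, e = s(x, y) ∧ χ' x = some (j, 0) ∧ χ' y = some (j, 1))).card : ℝ) := by
      exact_mod_cast h2
    have h4 := h1.trans h3
    rw [hμ', div_div, div_le_iff₀ (by positivity)] at h4
    have h5 : (F.card : ℝ) ≤ 64 * (N : ℝ) ^ 2 *
        ((F.filter (fun e => ∃ x y, e = s(x, y) ∧ χ' x = some (j, 0) ∧ χ' y = some (j, 1))).card : ℝ) := by
      linarith
    exact_mod_cast h5

end Pool.Agent.EV
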