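import Pool.Agent.Work.MP_71c844_lc.EV.Stmts

/-!
# Block EV, item Mv: the second moment (helper59)
-/

namespace Pool.Agent.EV

open Finset
open Pool.Agent.NegLim (pull gph)
open Pool.Agent.LayCirc

/-- the number of elements as a sum -/
private theorem Mv_card {α : Type} (S : Finset α) (P : α → Prop) [DecidablePred P] :
    ((S.filter P).card : ℝ) = ∑ e ∈ S, (if P e then (1 : ℝ) else 0) := by
  rw [Finset.card_filter]
  push_cast
  rfl

open Classical in
/-- at most `2 Δ` pairs have a vertex in common with a given pair -/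
private theorem Mv_deg {v Δ : ℕ} (F : Finset (Sym2 (Fin v)))
    (hΔ : ∀ x, (F.filter (fun e => x ∈ e)).card ≤ Δ) (e : Sym2 (Fin v)) :
    (F.filter (fun e' => ∃ x, x ∈ e ∧ x ∈ e')).card ≤ 2 * Δ := by
  induction e using Sym2.ind with
  | _ x y =>
    have hsub : F.filter (fun e' => ∃ z, z ∈ s(x, y) ∧ z ∈ e') ⊆
        F.filter (fun e' => x ∈ e') ∪ F.filter (fun e' => y ∈ e') := by
      intro e' he'
      rw [Finset.mem_filter] at he'
      obtain ⟨h1, z, hz, hz'⟩ := he'
      rw [Sym2.mem_iff] at hz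
      rw [Finset.mem_union, Finset.mem_filter, Finset.mem_filter]
      rcases hz with rfl | rfl
      · exact Or.inl ⟨h1, hz'⟩
      · exact Or.inr ⟨h1, hz'⟩
    calc (F.filter (fun e' => ∃ z, z ∈ s(x, y) ∧ z ∈ e')).card
        ≤ (F.filter (fun e' => x ∈ e') ∪ F.filter (fun e' => y ∈ e')).card :=
          Finset.card_le_card hsub
      _ ≤ (F.filter (fun e' => x ∈ e')).card + (F.filter (fun e' => y ∈ e')).card :=
          Finset.card_union_le _ _
      _ ≤ 2 * Δ := by
          have := hΔ x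
          have := hΔ y
          omega

open Classical in
theorem pr_Mv : StMv := by
  intro hPf hPe' v M Δ i F hF hΔ
  have hPe := hPe' hPf
  have hM : 0 < M := Fin.pos i
  have hMr : (0 : ℝ) < M := by exact_mod_cast hM
  set n : ℝ := (2 * (M : ℝ)) ^ v with hn
  have hn0 : 0 < n := by positivity
  set f : ℝ := (F.card : ℝ) with hf
  have hf0 : 0 ≤ f := Nat.cast_nonneg _
  set μ : ℝ := f / (2 * (M : ℝ) ^ 2) with hμ
  -- first moment of one pair
  have h1 : ∀ e ∈ F, ∑ χ : Fin v → Fin M × Fin 2, (if gd χ i e then (1 : ℝ) else 0) =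
      n / (2 * (M : ℝ) ^ 2) := by
    intro e he
    have h := (hPe v M i e e (hF e he) (hF e he)).1
    rw [← Mv_card, eq_div_iff (by positivity), hn]
    exact_mod_cast h
  -- second moment of two pairs
  have h2 : ∀ e ∈ F, ∀ e' ∈ F,
      ∑ χ : Fin v → Fin M × Fin 2, (if gd χ i e ∧ gd χ i e' then (1 : ℝ) else 0) ≤
      (if e = e' then n / (2 * (M : ℝ) ^ 2) else 0) +
        (if ∃ x, x ∈ e ∧ x ∈ e' then n / (4 * (M : ℝ) ^ 3) else 0) + n / (4 * (M : ℝ) ^ 4) := by
    intro e he e' he'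
    have p1 : 0 ≤ n / (2 * (M : ℝ) ^ 2) := by positivity
    have p2 : 0 ≤ n / (4 * (M : ℝ) ^ 3) := by positivity
    have p3 : 0 ≤ n / (4 * (M : ℝ) ^ 4) := by positivity
    have q2 : 0 ≤ (if ∃ x, x ∈ e ∧ x ∈ e' then n / (4 * (M : ℝ) ^ 3) else 0) := by
      split_ifs
      · exact p2
      · exact le_rfl
    obtain ⟨_, ha, hb⟩ := hPe v M i e e' (hF e he) (hF e' he')
    by_cases hee : e = e'
    · subst hee
      have h := h1 e he
      have e5 : ∑ χ : Fin v → Fin M × Fin 2, (if gd χ i e ∧ gd χ i e then (1 : ℝ) else 0) =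
          ∑ χ : Fin v → Fin M × Fin 2, (if gd χ i e then (1 : ℝ) else 0) :=
        Finset.sum_congr rfl fun χ _ => by simp only [and_self]
      rw [e5, h, if_pos rfl]
      linarith
    · rw [if_neg hee]
      by_cases hc : ∃ x, x ∈ e ∧ x ∈ e'
      · have h := ha hee hc
        rw [if_pos hc, ← Mv_card]
        have : ((univ.filter (fun χ : Fin v → Fin M × Fin 2 => gd χ i e ∧ gd χ i e')).card : ℝ) =
            n / (4 * (M : ℝ) ^ 3) := by
          rw [eq_div_iff (by positivity), hn]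
          exact_mod_cast h
        rw [this]
        linarith
      · have h := hb hc
        rw [if_neg hc, ← Mv_card]
        have : ((univ.filter (fun χ : Fin v → Fin M × Fin 2 => gd χ i e ∧ gd χ i e')).card : ℝ) =
            n / (4 * (M : ℝ) ^ 4) := by
          rw [eq_div_iff (by positivity), hn]
          exact_mod_cast h
        rw [this]
        linarith
  -- sums
  have hS1 : ∑ χ : Fin v → Fin M × Fin 2, ((F.filter (fun e => gd χ i e)).card : ℝ) =
      f * (n / (2 * (M : ℝ) ^ 2)) := by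
    simp only [Mv_card]
    rw [Finset.sum_comm, Finset.sum_congr rfl h1, Finset.sum_const, nsmul_eq_mul]
  have hS2 : ∑ χ : Fin v → Fin M × Fin 2, ((F.filter (fun e => gd χ i e)).card : ℝ) ^ 2 ≤
      f * (n / (2 * (M : ℝ) ^ 2) + 2 * Δ * (n / (4 * (M : ℝ) ^ 3)) +
        f * (n / (4 * (M : ℝ) ^ 4))) := by
    have e1 : ∀ χ : Fin v → Fin M × Fin 2, ((F.filter (fun e => gd χ i e)).card : ℝ) ^ 2 =
        ∑ e ∈ F, ∑ e' ∈ F, (if gd χ i e ∧ gd χ i e' then (1 : ℝ) else 0) := by
      intro χ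
      rw [Mv_card, sq, Finset.sum_mul_sum]
      refine Finset.sum_congr rfl fun e _ => Finset.sum_congr rfl fun e' _ => ?_
      by_cases ha : gd χ i e <;> by_cases hb : gd χ i e' <;> simp [ha, hb]
    rw [Finset.sum_congr rfl (fun χ _ => e1 χ), Finset.sum_comm]
    have e2 : ∀ e ∈ F, ∑ χ : Fin v → Fin M × Fin 2,
        ∑ e' ∈ F, (if gd χ i e ∧ gd χ i e' then (1 : ℝ) else 0) ≤
        n / (2 * (M : ℝ) ^ 2) + 2 * Δ * (n / (4 * (M : ℝ) ^ 3)) + f * (n / (4 * (M : ℝ) ^ 4)) := by
      intro e he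
      rw [Finset.sum_comm]
      refine (Finset.sum_le_sum (h2 e he)).trans ?_
      rw [Finset.sum_add_distrib, Finset.sum_add_distrib, Finset.sum_ite_eq, if_pos he,
        ← Finset.sum_filter, Finset.sum_const, Finset.sum_const, nsmul_eq_mul, nsmul_eq_mul]
      have hd : ((F.filter (fun e' => ∃ x, x ∈ e ∧ x ∈ e')).card : ℝ) ≤ 2 * Δ := by
        exact_mod_cast Mv_deg F hΔ e
      have p2 : 0 ≤ n / (4 * (M : ℝ) ^ 3) := by positivity
      have := mul_le_mul_of_nonneg_right hd p2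
      linarith
    refine (Finset.sum_le_sum e2).trans ?_
    rw [Finset.sum_const, nsmul_eq_mul]
  -- the variance
  have hcard : ∑ _χ : Fin v → Fin M × Fin 2, μ ^ 2 = n * μ ^ 2 := by
    rw [Finset.sum_const, nsmul_eq_mul]
    congr 1
    rw [Finset.card_univ, Fintype.card_fun, Fintype.card_prod, Fintype.card_fin, Fintype.card_fin,
      Fintype.card_fin, hn]
    push_cast
    rw [mul_comm]
  have e3 : ∑ χ : Fin v → Fin M × Fin 2, (((F.filter (fun e => gd χ i e)).card : ℝ) - μ) ^ 2 =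
      ∑ χ : Fin v → Fin M × Fin 2, ((F.filter (fun e => gd χ i e)).card : ℝ) ^ 2 -
        2 * μ * ∑ χ : Fin v → Fin M × Fin 2, ((F.filter (fun e => gd χ i e)).card : ℝ) +
        ∑ _χ : Fin v → Fin M × Fin 2, μ ^ 2 := by
    rw [Finset.mul_sum, ← Finset.sum_sub_distrib, ← Finset.sum_add_distrib]
    refine Finset.sum_congr rfl fun χ _ => ?_
    ring
  rw [e3, hcard, hS1]
  have e4 : f * (n / (2 * (M : ℝ) ^ 2) + 2 * Δ * (n / (4 * (M : ℝ) ^ 3)) +
        f * (n / (4 * (M : ℝ) ^ 4))) - 2 * μ * (f * (n / (2 * (M : ℝ) ^ 2))) + n * μ ^ 2 =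
      n * (μ * (1 + Δ / M)) := by
    rw [hμ]
    field_simp
    ring
  linarith

end Pool.Agent.EV
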