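import Pool.Agent.Work.MP_71c844_lc.EV.Stmts

/-!
# Item MxC: the number of relevant gates that read `F`
-/

set_option autoImplicit false

namespace Pool.Agent.EV

open Finset
open Pool.Agent.NegLim (pull gph)
open Pool.Agent.LayCirc

theorem pr_MxC : StMxC := by
  classical
  intro ι s c o F
  have h0 : (tgt c o).filter (fun i => Reads c F i) ⊆
      insert o ((univ.filter fun i => Cut c i).biUnion fun i =>
        ((inputs c i).filter (fun j => Reads c F j)).toFinset) := by
    intro i hi
    rw [mem_filter] at hi
    obtain ⟨h1, h2⟩ := hi
    unfold tgt at h1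
    rw [mem_insert, mem_biUnion] at h1
    rw [mem_insert, mem_biUnion]
    rcases h1 with h1 | ⟨a, ha, h1⟩
    · exact Or.inl h1
    · refine Or.inr ⟨a, ?_, ?_⟩
      · rw [mem_filter] at ha ⊢
        exact ⟨mem_univ _, ha.2⟩
      · rw [List.mem_toFinset] at h1 ⊢
        rw [List.mem_filter]
        exact ⟨h1, by simpa using h2⟩
  refine (card_le_card h0).trans ?_
  refine (card_insert_le _ _).trans (Nat.add_le_add_right ?_ 1)
  refine card_biUnion_le.trans ?_
  have h1 : ∀ i ∈ univ.filter (fun i => Cut c i),
      (((inputs c i).filter (fun j => Reads c F j)).toFinset).card ≤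
      ((inputs c i).filter (fun j => Reads c F j)).length := fun i _ => List.toFinset_card_le _
  refine (sum_le_sum h1).trans ?_
  have h2 : univ.filter (fun i => Cut c i) ⊆
      univ.filter (fun i => Arb c i) ∪ univ.filter (fun i => Mixing c i) := by
    intro i hi
    rw [mem_filter] at hi
    rw [mem_union, mem_filter, mem_filter]
    rcases hi.2 with h | h
    · exact Or.inl ⟨mem_univ _, h⟩
    · exact Or.inr ⟨mem_univ _, h⟩
  refine (sum_le_sum_of_subset h2).trans ?_
  refine (Nat.le_add_right _ (∑ i ∈ univ.filter (fun i => Arb c i) ∩
    univ.filter (fun i => Mixing c i),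
      ((inputs c i).filter (fun j => Reads c F j)).length)).trans ?_
  rw [sum_union_inter]
  refine Nat.add_le_add ?_ ?_
  · unfold wiresF
    exact le_of_eq rfl
  unfold numMixingF
  have h3 : ∀ i ∈ univ.filter (fun i => Mixing c i),
      ((inputs c i).filter (fun j => Reads c F j)).length ≤
        if Reads c F i then 2 else 0 := by
    intro i hi
    rw [mem_filter] at hi
    split_ifs with hr
    · refine (List.length_filter_le _ _).trans ?_
      obtain ⟨j, k, hc | hc, _, _⟩ := hi.2 <;>
      · unfold inputs
        rw [hc]
        simp
    · have : (inputs c i).filter (fun j => Reads c F j) = [] := by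
        rw [List.filter_eq_nil_iff]
        intro j hj h4
        exact hr (Reads.step i j hj (by simpa using h4))
      rw [this]
      exact le_rfl
  refine (sum_le_sum h3).trans ?_
  rw [← sum_filter, sum_const, smul_eq_mul, mul_comm, filter_filter]

end Pool.Agent.EV
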