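import Pool.Agent.Work.MP_71c844_lc.EV.Stmts

/-!
# Block EV, item Pe: three counts of colourings
-/

namespace Pool.Agent.EV

open Finset

/-- A pair `s(x, y)` is well coloured iff one of two patterns holds. -/
theorem gd_mk_iff {v M : ℕ} (χ : Fin v → Fin M × Fin 2) (i : Fin M) (x y : Fin v) :
    gd χ i s(x, y) ↔ (χ x = (i, 0) ∧ χ y = (i, 1)) ∨ (χ x = (i, 1) ∧ χ y = (i, 0)) := by
  constructor
  · rintro ⟨a, b, h, ha, hb⟩
    rcases Sym2.eq_iff.1 h with ⟨h1, h2⟩ | ⟨h1, h2⟩
    · exact Or.inl ⟨by rw [h1]; exact ha, by rw [h2]; exact hb⟩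
    · exact Or.inr ⟨by rw [h1]; exact hb, by rw [h2]; exact ha⟩
  · rintro (⟨h1, h2⟩ | ⟨h1, h2⟩)
    · exact ⟨x, y, rfl, h1, h2⟩
    · exact ⟨y, x, Sym2.eq_swap, h2, h1⟩

/-- The number of elements of `Fin M × Fin 2`. -/
theorem card_Om (M : ℕ) : Fintype.card (Fin M × Fin 2) = 2 * M := by
  rw [Fintype.card_prod, Fintype.card_fin, Fintype.card_fin, Nat.mul_comm]

/-- The count with two prescribed values. -/
theorem count2 (hPf : StPf) (v M : ℕ) (x y : Fin v) (hxy : x ≠ y) (a b : Fin M × Fin 2) :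
    (univ.filter (fun χ : Fin v → Fin M × Fin 2 => χ x = a ∧ χ y = b)).card * (2 * M) ^ 2 =
      (2 * M) ^ v := by
  have h := hPf v (Fin M × Fin 2) {x, y} (fun z => if z = x then a else b)
  rw [card_Om, Finset.card_pair hxy] at h
  rw [← h]
  congr 2
  ext χ
  simp only [mem_filter, mem_univ, true_and, mem_insert, mem_singleton]
  constructor
  · rintro ⟨h1, h2⟩ z (rfl | rfl)
    · rw [if_pos rfl]; exact h1
    · rw [if_neg (Ne.symm hxy)]; exact h2
  · intro hh
    refine ⟨?_, ?_⟩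
    · have := hh x (Or.inl rfl)
      rwa [if_pos rfl] at this
    · have := hh y (Or.inr rfl)
      rwa [if_neg (Ne.symm hxy)] at this

/-- The count with three prescribed values. -/
theorem count3 (hPf : StPf) (v M : ℕ) (x y z : Fin v) (hxy : x ≠ y) (hxz : x ≠ z) (hyz : y ≠ z)
    (a b c : Fin M × Fin 2) :
    (univ.filter (fun χ : Fin v → Fin M × Fin 2 => χ x = a ∧ χ y = b ∧ χ z = c)).card *
      (2 * M) ^ 3 = (2 * M) ^ v := by
  have h := hPf v (Fin M × Fin 2) {x, y, z} (fun w => if w = x then a else if w = y then b else c)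
  have hc : ({x, y, z} : Finset (Fin v)).card = 3 := Finset.card_eq_three.2
    ⟨x, y, z, hxy, hxz, hyz, rfl⟩
  rw [card_Om, hc] at h
  rw [← h]
  congr 2
  ext χ
  simp only [mem_filter, mem_univ, true_and, mem_insert, mem_singleton]
  constructor
  · rintro ⟨h1, h2, h3⟩ w (rfl | rfl | rfl)
    · rw [if_pos rfl]; exact h1
    · rw [if_neg (Ne.symm hxy), if_pos rfl]; exact h2
    · rw [if_neg (Ne.symm hxz), if_neg (Ne.symm hyz)]; exact h3
  · intro hh
    refine ⟨?_, ?_, ?_⟩
    · have := hh x (Or.inl rfl)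
      rwa [if_pos rfl] at this
    · have := hh y (Or.inr (Or.inl rfl))
      rwa [if_neg (Ne.symm hxy), if_pos rfl] at this
    · have := hh z (Or.inr (Or.inr rfl))
      rwa [if_neg (Ne.symm hxz), if_neg (Ne.symm hyz)] at this

/-- The count with four prescribed values. -/
theorem count4 (hPf : StPf) (v M : ℕ) (x y z w : Fin v) (hxy : x ≠ y) (hxz : x ≠ z) (hxw : x ≠ w)
    (hyz : y ≠ z) (hyw : y ≠ w) (hzw : z ≠ w) (a b c d : Fin M × Fin 2) :
    (univ.filter (fun χ : Fin v → Fin M × Fin 2 =>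
      (χ x = a ∧ χ y = b) ∧ (χ z = c ∧ χ w = d))).card * (2 * M) ^ 4 = (2 * M) ^ v := by
  have h := hPf v (Fin M × Fin 2) {x, y, z, w}
    (fun t => if t = x then a else if t = y then b else if t = z then c else d)
  have hc : ({x, y, z, w} : Finset (Fin v)).card = 4 := by
    rw [Finset.card_insert_of_notMem, Finset.card_eq_three.2 ⟨y, z, w, hyz, hyw, hzw, rfl⟩]
    simp only [mem_insert, mem_singleton, not_or]
    exact ⟨hxy, hxz, hxw⟩
  rw [card_Om, hc] at h
  rw [← h]
  congr 2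
  ext χ
  simp only [mem_filter, mem_univ, true_and, mem_insert, mem_singleton]
  constructor
  · rintro ⟨⟨h1, h2⟩, h3, h4⟩ t (rfl | rfl | rfl | rfl)
    · rw [if_pos rfl]; exact h1
    · rw [if_neg (Ne.symm hxy), if_pos rfl]; exact h2
    · rw [if_neg (Ne.symm hxz), if_neg (Ne.symm hyz), if_pos rfl]; exact h3
    · rw [if_neg (Ne.symm hxw), if_neg (Ne.symm hyw), if_neg (Ne.symm hzw)]; exact h4
  · intro hh
    refine ⟨⟨?_, ?_⟩, ?_, ?_⟩
    · have := hh x (Or.inl rfl)
      rwa [if_pos rfl] at this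
    · have := hh y (Or.inr (Or.inl rfl))
      rwa [if_neg (Ne.symm hxy), if_pos rfl] at this
    · have := hh z (Or.inr (Or.inr (Or.inl rfl)))
      rwa [if_neg (Ne.symm hxz), if_neg (Ne.symm hyz), if_pos rfl] at this
    · have := hh w (Or.inr (Or.inr (Or.inr rfl)))
      rwa [if_neg (Ne.symm hxw), if_neg (Ne.symm hyw), if_neg (Ne.symm hzw)] at this

/-- The card of a disjoint union of filters. -/
theorem card_filter_or {α : Type} [Fintype α] [DecidableEq α] (P Q : α → Prop) [DecidablePred P]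
    [DecidablePred Q] [DecidablePred (fun a => P a ∨ Q a)] (h : ∀ a, P a → Q a → False) :
    (univ.filter (fun a => P a ∨ Q a)).card = (univ.filter P).card + (univ.filter Q).card := by
  classical
  rw [← Finset.card_union_of_disjoint]
  · congr 1
    ext a
    simp only [mem_filter, mem_univ, true_and, mem_union]
  · rw [Finset.disjoint_left]
    intro a ha hb
    exact h a (mem_filter.1 ha).2 (mem_filter.1 hb).2

open Classical in
/-- **Pe**. -/
theorem pr_Pe : StPe := by
  intro hPf v M i e e' he he'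
  have h01 : ((i, 0) : Fin M × Fin 2) ≠ (i, 1) := by
    intro h
    have h2 : (0 : Fin 2) = 1 := congrArg Prod.snd h
    exact absurd h2 (by decide)
  refine ⟨?_, ?_, ?_⟩
  · induction e using Sym2.ind with
    | _ x y =>
      have hxy : x ≠ y := fun h => he (by rw [Sym2.mk_isDiag_iff]; exact h)
      have e1 : (univ.filter (fun χ : Fin v → Fin M × Fin 2 => gd χ i s(x, y))).card =
          (univ.filter (fun χ : Fin v → Fin M × Fin 2 => χ x = (i, 0) ∧ χ y = (i, 1))).card +
          (univ.filter (fun χ : Fin v → Fin M × Fin 2 => χ x = (i, 1) ∧ χ y = (i, 0))).card := by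
        rw [← card_filter_or]
        · congr 1
          ext χ
          simp only [mem_filter, mem_univ, true_and]
          exact gd_mk_iff χ i x y
        · rintro χ ⟨h1, _⟩ ⟨h2, _⟩
          exact h01 (h1.symm.trans h2)
      have c1 := count2 hPf v M x y hxy (i, 0) (i, 1)
      have c2 := count2 hPf v M x y hxy (i, 1) (i, 0)
      rw [e1]
      have : 2 * (((univ.filter (fun χ : Fin v → Fin M × Fin 2 =>
          χ x = (i, 0) ∧ χ y = (i, 1))).card +
          (univ.filter (fun χ : Fin v → Fin M × Fin 2 => χ x = (i, 1) ∧ χ y = (i, 0))).card) *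
            (2 * M ^ 2)) = 2 * (2 * M) ^ v := by
        nlinarith [c1, c2]
      omega
  · intro hne hx
    obtain ⟨x, hxe, hxe'⟩ := hx
    obtain ⟨y, rfl⟩ := Sym2.mem_iff_exists.1 hxe
    obtain ⟨z, rfl⟩ := Sym2.mem_iff_exists.1 hxe'
    have hxy : x ≠ y := fun h => he (by rw [Sym2.mk_isDiag_iff]; exact h)
    have hxz : x ≠ z := fun h => he' (by rw [Sym2.mk_isDiag_iff]; exact h)
    have hyz : y ≠ z := fun h => hne (by rw [h])
    have e1 : (univ.filter (fun χ : Fin v → Fin M × Fin 2 =>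
          gd χ i s(x, y) ∧ gd χ i s(x, z))).card =
        (univ.filter (fun χ : Fin v → Fin M × Fin 2 =>
          χ x = (i, 0) ∧ χ y = (i, 1) ∧ χ z = (i, 1))).card +
        (univ.filter (fun χ : Fin v → Fin M × Fin 2 =>
          χ x = (i, 1) ∧ χ y = (i, 0) ∧ χ z = (i, 0))).card := by
      rw [← card_filter_or]
      · congr 1
        ext χ
        simp only [mem_filter, mem_univ, true_and]
        rw [gd_mk_iff, gd_mk_iff]
        constructor
        · rintro ⟨h1 | h1, h2 | h2⟩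
          · exact Or.inl ⟨h1.1, h1.2, h2.2⟩
          · exact absurd (h1.1.symm.trans h2.1) h01
          · exact absurd (h2.1.symm.trans h1.1) h01
          · exact Or.inr ⟨h1.1, h1.2, h2.2⟩
        · rintro (⟨h1, h2, h3⟩ | ⟨h1, h2, h3⟩)
          · exact ⟨Or.inl ⟨h1, h2⟩, Or.inl ⟨h1, h3⟩⟩
          · exact ⟨Or.inr ⟨h1, h2⟩, Or.inr ⟨h1, h3⟩⟩
      · rintro χ ⟨h1, _⟩ ⟨h2, _⟩
        exact h01 (h1.symm.trans h2)
    have c1 := count3 hPf v M x y z hxy hxz hyz (i, 0) (i, 1) (i, 1)
    have c2 := count3 hPf v M x y z hxy hxz hyz (i, 1) (i, 0) (i, 0)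
    rw [e1]
    have : 2 * (((univ.filter (fun χ : Fin v → Fin M × Fin 2 =>
          χ x = (i, 0) ∧ χ y = (i, 1) ∧ χ z = (i, 1))).card +
        (univ.filter (fun χ : Fin v → Fin M × Fin 2 =>
          χ x = (i, 1) ∧ χ y = (i, 0) ∧ χ z = (i, 0))).card) * (4 * M ^ 3)) = 2 * (2 * M) ^ v := by
      nlinarith [c1, c2]
    omega
  · intro hnx
    induction e using Sym2.ind with
    | _ x y =>
      induction e' using Sym2.ind with
      | _ z w =>
        have hxy : x ≠ y := fun h => he (by rw [Sym2.mk_isDiag_iff]; exact h)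
        have hzw : z ≠ w := fun h => he' (by rw [Sym2.mk_isDiag_iff]; exact h)
        have hxz : x ≠ z := fun h => hnx ⟨x, Sym2.mem_mk_left x y, by
          rw [h]; exact Sym2.mem_mk_left z w⟩
        have hxw : x ≠ w := fun h => hnx ⟨x, Sym2.mem_mk_left x y, by
          rw [h]; exact Sym2.mem_mk_right z w⟩
        have hyz : y ≠ z := fun h => hnx ⟨y, Sym2.mem_mk_right x y, by
          rw [h]; exact Sym2.mem_mk_left z w⟩
        have hyw : y ≠ w := fun h => hnx ⟨y, Sym2.mem_mk_right x y, by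
          rw [h]; exact Sym2.mem_mk_right z w⟩
        have e1 : (univ.filter (fun χ : Fin v → Fin M × Fin 2 =>
              gd χ i s(x, y) ∧ gd χ i s(z, w))).card =
            (univ.filter (fun χ : Fin v → Fin M × Fin 2 =>
              ((χ x = (i, 0) ∧ χ y = (i, 1)) ∧ (χ z = (i, 0) ∧ χ w = (i, 1))) ∨
              ((χ x = (i, 0) ∧ χ y = (i, 1)) ∧ (χ z = (i, 1) ∧ χ w = (i, 0))))).card +
            (univ.filter (fun χ : Fin v → Fin M × Fin 2 =>
              ((χ x = (i, 1) ∧ χ y = (i, 0)) ∧ (χ z = (i, 0) ∧ χ w = (i, 1))) ∨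
              ((χ x = (i, 1) ∧ χ y = (i, 0)) ∧ (χ z = (i, 1) ∧ χ w = (i, 0))))).card := by
          rw [← card_filter_or]
          · congr 1
            ext χ
            simp only [mem_filter, mem_univ, true_and]
            rw [gd_mk_iff, gd_mk_iff]
            tauto
          · rintro χ (⟨⟨h1, _⟩, _⟩ | ⟨⟨h1, _⟩, _⟩) (⟨⟨h2, _⟩, _⟩ | ⟨⟨h2, _⟩, _⟩) <;>
            exact h01 (h1.symm.trans h2)
        have e2 : ∀ a b : Fin M × Fin 2, (univ.filter (fun χ : Fin v → Fin M × Fin 2 =>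
              ((χ x = a ∧ χ y = b) ∧ (χ z = (i, 0) ∧ χ w = (i, 1))) ∨
              ((χ x = a ∧ χ y = b) ∧ (χ z = (i, 1) ∧ χ w = (i, 0))))).card =
            (univ.filter (fun χ : Fin v → Fin M × Fin 2 =>
              (χ x = a ∧ χ y = b) ∧ (χ z = (i, 0) ∧ χ w = (i, 1)))).card +
            (univ.filter (fun χ : Fin v → Fin M × Fin 2 =>
              (χ x = a ∧ χ y = b) ∧ (χ z = (i, 1) ∧ χ w = (i, 0)))).card := by
          intro a b
          rw [← card_filter_or]
          rintro χ ⟨_, h1, _⟩ ⟨_, h2, _⟩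
          exact h01 (h1.symm.trans h2)
        rw [e1, e2, e2]
        have c1 := count4 hPf v M x y z w hxy hxz hxw hyz hyw hzw (i, 0) (i, 1) (i, 0) (i, 1)
        have c2 := count4 hPf v M x y z w hxy hxz hxw hyz hyw hzw (i, 0) (i, 1) (i, 1) (i, 0)
        have c3 := count4 hPf v M x y z w hxy hxz hxw hyz hyw hzw (i, 1) (i, 0) (i, 0) (i, 1)
        have c4 := count4 hPf v M x y z w hxy hxz hxw hyz hyw hzw (i, 1) (i, 0) (i, 1) (i, 0)
        set A := (univ.filter (fun χ : Fin v → Fin M × Fin 2 =>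
              (χ x = (i, 0) ∧ χ y = (i, 1)) ∧ (χ z = (i, 0) ∧ χ w = (i, 1)))).card
        set B := (univ.filter (fun χ : Fin v → Fin M × Fin 2 =>
              (χ x = (i, 0) ∧ χ y = (i, 1)) ∧ (χ z = (i, 1) ∧ χ w = (i, 0)))).card
        set C := (univ.filter (fun χ : Fin v → Fin M × Fin 2 =>
              (χ x = (i, 1) ∧ χ y = (i, 0)) ∧ (χ z = (i, 0) ∧ χ w = (i, 1)))).card
        set D := (univ.filter (fun χ : Fin v → Fin M × Fin 2 =>
              (χ x = (i, 1) ∧ χ y = (i, 0)) ∧ (χ z = (i, 1) ∧ χ w = (i, 0)))).card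
        have key : 4 * ((A + B + (C + D)) * (4 * M ^ 4)) = 4 * (2 * M) ^ v := by
          calc 4 * ((A + B + (C + D)) * (4 * M ^ 4))
              = A * (2 * M) ^ 4 + B * (2 * M) ^ 4 + C * (2 * M) ^ 4 + D * (2 * M) ^ 4 := by ring
            _ = 4 * (2 * M) ^ v := by rw [c1, c2, c3, c4]; ring
        exact Nat.eq_of_mul_eq_mul_left (by norm_num) key

end Pool.Agent.EV
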