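import Pool.Agent.Work.MP_71c844_lc.EV.Stmts

/-!
# Block EV, item Pf: functions with prescribed values (helper59)
-/

namespace Pool.Agent.EV

open Finset
open Pool.Agent.NegLim (pull gph)
open Pool.Agent.LayCirc

theorem pr_Pf : StPf := by
  intro v Ω _ _ S g
  have h1 : univ.filter (fun χ : Fin v → Ω => ∀ x ∈ S, χ x = g x) =
      Fintype.piFinset (fun x => if x ∈ S then {g x} else univ) := by
    ext χ
    rw [Finset.mem_filter, Fintype.mem_piFinset]
    constructor
    · rintro ⟨_, h⟩ x
      by_cases hx : x ∈ S
      · rw [if_pos hx, Finset.mem_singleton]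
        exact h x hx
      · rw [if_neg hx]
        exact Finset.mem_univ _
    · intro h
      refine ⟨Finset.mem_univ _, fun x hx => ?_⟩
      have := h x
      rwa [if_pos hx, Finset.mem_singleton] at this
  rw [h1, Fintype.card_piFinset]
  have h2 : Fintype.card Ω ^ S.card = ∏ x : Fin v, (if x ∈ S then Fintype.card Ω else 1) := by
    rw [Finset.prod_ite_mem, Finset.univ_inter, Finset.prod_const]
  rw [h2, ← Finset.prod_mul_distrib]
  have h3 : ∀ x ∈ (univ : Finset (Fin v)), (if x ∈ S then ({g x} : Finset Ω) else univ).card *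
      (if x ∈ S then Fintype.card Ω else 1) = Fintype.card Ω := by
    intro x _
    by_cases hx : x ∈ S
    · rw [if_pos hx, if_pos hx, Finset.card_singleton, one_mul]
    · rw [if_neg hx, if_neg hx, Finset.card_univ, mul_one]
  rw [Finset.prod_congr rfl h3, Finset.prod_const, Finset.card_univ, Fintype.card_fin]

end Pool.Agent.EV
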