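import Pool.Agent.Work.MP_71c844_lc.EV.Stmts

/-! Block EV, item PiT (helper96): the number of words with prescribed symbols. -/

namespace Pool.Agent.EV

open Finset
open Pool.Agent.NegLim (pull gph)
open Pool.Agent.LayCirc

open Classical in
private theorem PiT_card {N σ κ : ℕ} (T : Fin N → Finset (Fin σ → Fin κ → ZMod 2))
    (A : Finset (Fin N × (Fin σ → Fin κ → ZMod 2))) :
    (TA T A).card = ∏ j, ((T j).filter (fun e => ∀ p ∈ A, p.1 = j → e = p.2)).card := by
  rw [← Fintype.card_piFinset]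
  refine Finset.card_nbij' (fun w j s t => w ((j, s), t)) (fun g q => g q.1.1 q.1.2 q.2)
    ?_ ?_ ?_ ?_
  · intro w hw
    have hw1 := (Finset.mem_filter.1 hw).2
    refine Fintype.mem_piFinset.2 fun j => Finset.mem_filter.2 ⟨hw1.1 j, ?_⟩
    intro p hp hpj
    subst hpj
    exact hw1.2 p hp
  · intro g hg
    have hg1 := Fintype.mem_piFinset.1 hg
    refine Finset.mem_filter.2 ⟨Finset.mem_univ _, fun j => ?_, fun p hp => ?_⟩
    · exact (Finset.mem_filter.1 (hg1 j)).1
    · exact (Finset.mem_filter.1 (hg1 p.1)).2 p hp rfl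
  · intro w _
    rfl
  · intro g _
    rfl

theorem pr_PiT : StPiT := by
  classical
  intro N σ κ T A hA1 hA2
  rw [PiT_card]
  have h1 : ∏ p ∈ A, (T p.1).card = ∏ j, if j ∈ A.image Prod.fst then (T j).card else 1 := by
    rw [Finset.prod_ite_mem, Finset.univ_inter, Finset.prod_image]
    intro p hp p' hp' h
    exact hA2 p hp p' hp' h
  rw [h1, ← Finset.prod_mul_distrib]
  refine Finset.prod_congr rfl fun j _ => ?_
  by_cases hj : j ∈ A.image Prod.fst
  · rw [if_pos hj]
    obtain ⟨p, hp, rfl⟩ := Finset.mem_image.1 hj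
    have h2 : (T p.1).filter (fun e => ∀ p' ∈ A, p'.1 = p.1 → e = p'.2) = {p.2} := by
      ext e
      rw [Finset.mem_filter, Finset.mem_singleton]
      constructor
      · rintro ⟨_, h⟩
        exact h p hp rfl
      · rintro rfl
        refine ⟨hA1 p hp, fun p' hp' h => ?_⟩
        rw [hA2 p' hp' p hp h]
    have h3 : ((T p.1).filter (fun e => ∀ p' ∈ A, p'.1 = p.1 → e = p'.2)).card = 1 := by
      rw [h2, Finset.card_singleton]
    rw [h3, one_mul]
  · rw [if_neg hj, mul_one]
    congr 1
    refine Finset.filter_true_of_mem fun e _ p hp h => ?_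
    exact absurd (Finset.mem_image.2 ⟨p, hp, h⟩) hj

end Pool.Agent.EV
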