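import Pool.Agent.Work.MP_71c844_lc.EV.Stmts

/-!
# Block EV, item Sg: a vertex of large degree (helper59)
-/

namespace Pool.Agent.EV

open Finset
open Pool.Agent.NegLim (pull gph)
open Pool.Agent.LayCirc

/-- the classes: consecutive blocks of `h` elements of `B` -/
private noncomputable def Sg_chi {v N : ℕ} (B : Finset (Fin v)) (h : ℕ) (x : Fin v) :
    Option (Fin N) :=
  if hx : x ∈ B then
    (if hn : (B.equivFin ⟨x, hx⟩).1 / h < N then some ⟨(B.equivFin ⟨x, hx⟩).1 / h, hn⟩ else none)
  else none

private theorem Sg_none {v N : ℕ} (B : Finset (Fin v)) (h : ℕ) (x : Fin v) (hx : x ∉ B) :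
    (Sg_chi B h x : Option (Fin N)) = none := by
  unfold Sg_chi
  rw [dif_neg hx]

private theorem Sg_some {v N : ℕ} (B : Finset (Fin v)) (h : ℕ) (t : Fin B.card) (j : Fin N)
    (ht : t.1 / h = j.1) : (Sg_chi B h (B.equivFin.symm t).1 : Option (Fin N)) = some j := by
  unfold Sg_chi
  have hx : (B.equivFin.symm t).1 ∈ B := (B.equivFin.symm t).2
  have he : B.equivFin ⟨(B.equivFin.symm t).1, hx⟩ = t := by
    have : (⟨(B.equivFin.symm t).1, hx⟩ : {x // x ∈ B}) = B.equivFin.symm t := rfl
    rw [this, Equiv.apply_symm_apply]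
  rw [dif_pos hx]
  simp only [he]
  rw [dif_pos (by rw [ht]; exact j.2)]
  congr 1
  exact Fin.ext ht

open Classical in
private theorem Sg_size {v N : ℕ} (B : Finset (Fin v)) (h : ℕ) (hh : 0 < h)
    (hB : N * h ≤ B.card) (j : Fin N) :
    h ≤ (univ.filter (fun x => (Sg_chi B h x : Option (Fin N)) = some j)).card := by
  have hlt : ∀ t : Fin h, j.1 * h + t.1 < B.card := by
    intro t
    have h1 : (j.1 + 1) * h ≤ N * h := Nat.mul_le_mul_right h j.2
    have h2 := t.2
    have h3 : (j.1 + 1) * h = j.1 * h + h := by ring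
    omega
  have key := Finset.card_le_card_of_injOn (s := (univ : Finset (Fin h)))
    (t := univ.filter (fun x => (Sg_chi B h x : Option (Fin N)) = some j))
    (fun t => (B.equivFin.symm ⟨j.1 * h + t.1, hlt t⟩).1) (by
      intro t _
      simp only [Finset.coe_filter, Finset.mem_univ, true_and, Set.mem_setOf_eq]
      apply Sg_some
      show (j.1 * h + t.1) / h = j.1
      rw [mul_comm, Nat.mul_add_div hh, Nat.div_eq_of_lt t.2, add_zero]) (by
      intro t _ t' _ htt
      have h1 : B.equivFin.symm ⟨j.1 * h + t.1, hlt t⟩ =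
          B.equivFin.symm ⟨j.1 * h + t'.1, hlt t'⟩ := Subtype.ext htt
      have h2 := B.equivFin.symm.injective h1
      have h3 : j.1 * h + t.1 = j.1 * h + t'.1 := congrArg Fin.val h2
      exact Fin.ext (by omega))
  rwa [Finset.card_univ, Fintype.card_fin] at key

open Classical in
theorem pr_Sg : StSg := by
  intro v N F a₀ hv hN hF hcard hdeg
  set B : Finset (Fin v) := univ.filter (fun x => s(a₀, x) ∈ F) with hB
  have hdegB : (F.filter (fun e => a₀ ∈ e)).card ≤ B.card := by
    have hsub : F.filter (fun e => a₀ ∈ e) ⊆ B.image (fun x => s(a₀, x)) := by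
      intro e he
      rw [Finset.mem_filter] at he
      obtain ⟨h1, y, hy⟩ := he
      rw [Finset.mem_image]
      refine ⟨y, ?_, hy.symm⟩
      rw [hB, Finset.mem_filter]
      refine ⟨Finset.mem_univ _, ?_⟩
      rw [← hy]
      exact h1
    exact (Finset.card_le_card hsub).trans Finset.card_image_le
  have hBv : B.card ≤ v := by
    have := Finset.card_le_univ B
    rwa [Fintype.card_fin] at this
  obtain ⟨B', hB'B, hB'c⟩ := Finset.exists_subset_card_eq (s := B) (n := min B.card (v / 3))
    (min_le_left _ _)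
  have hb4 : B.card ≤ 4 * B'.card := by
    rw [hB'c]
    rcases le_total B.card (v / 3) with h | h
    · rw [min_eq_left h]
      omega
    · rw [min_eq_right h]
      omega
  have hb3 : 3 * B'.card ≤ v := by
    have : B'.card ≤ v / 3 := by
      rw [hB'c]
      exact min_le_right _ _
    omega
  have hF1 : F.card < 1024 * N * B'.card := by
    calc F.card < 256 * N * (F.filter (fun e => a₀ ∈ e)).card := hdeg
      _ ≤ 256 * N * (4 * B'.card) := Nat.mul_le_mul_left _ (hdegB.trans hb4)
      _ = 1024 * N * B'.card := by ring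
  have hNb : N < B'.card := by
    by_contra hcon
    push Not at hcon
    have h1 : 1024 * N * B'.card ≤ 1024 * N * N := Nat.mul_le_mul_left _ hcon
    have h2 : 1024 * N * N = 1024 * N ^ 2 := by ring
    omega
  set h : ℕ := B'.card / N with hh
  have hh1 : 1 ≤ h := by
    rw [hh, Nat.le_div_iff_mul_le (by omega)]
    omega
  have hNh : N * h ≤ B'.card := Nat.mul_div_le _ _
  have hlt : B'.card < N * (h + 1) := Nat.lt_mul_div_succ _ (by omega)
  have hF2 : F.card ≤ 2048 * N ^ 2 * h := by
    have h1 : N * (h + 1) ≤ N * (2 * h) := Nat.mul_le_mul_left _ (by omega)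
    have h2 : 1024 * N * B'.card ≤ 1024 * N * (N * (2 * h)) :=
      Nat.mul_le_mul_left _ (by omega)
    have h3 : 1024 * N * (N * (2 * h)) = 2048 * N ^ 2 * h := by ring
    omega
  have hsubχ : ∀ x, (Sg_chi B' h x : Option (Fin N)) ≠ none → x ∈ B' := by
    intro x hx
    by_contra hcon
    exact hx (Sg_none B' h x hcon)
  refine ⟨Sg_chi B' h, ?_, ?_, ?_, ?_⟩
  · apply Sg_none
    intro ha
    have h1 := hB'B ha
    rw [hB, Finset.mem_filter] at h1
    exact hF _ h1.2 (by simp)
  · intro x hx
    have h1 := hB'B (hsubχ x hx)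
    rw [hB, Finset.mem_filter] at h1
    exact h1.2
  · have h1 : (univ.filter (fun x => (Sg_chi B' h x : Option (Fin N)) ≠ none)).card ≤ B'.card := by
      apply Finset.card_le_card
      intro x hx
      rw [Finset.mem_filter] at hx
      exact hsubχ x hx.2
    omega
  · intro j
    refine hF2.trans (Nat.mul_le_mul_left _ ?_)
    exact Sg_size B' h (by omega) hNh j

end Pool.Agent.EV
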