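import Pool.Agent.Work.MP_71c844_lc.EV.Stmts

/-!
# Block EV, item SmC: the second moment
-/

namespace Pool.Agent.EV

open Finset
open Pool.Agent.NegLim (pull gph)
open Pool.Agent.LayCirc

/-- the indicator function of the event that the codeword of `u` is in `T` -/
private noncomputable def SmC_ind {O : Type} [Fintype O] [DecidableEq O] {m : ℕ}
    (T : Finset (O → ZMod 2)) (c : Cd O m) (u : Fin m → ZMod 2) : ℝ :=
  ∑ w ∈ T, if word c u = w then (1 : ℝ) else 0

private theorem SmC_ind_eq {O : Type} [Fintype O] [DecidableEq O] {m : ℕ}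
    (T : Finset (O → ZMod 2)) (c : Cd O m) (u : Fin m → ZMod 2) :
    SmC_ind T c u = if word c u ∈ T then 1 else 0 := by
  unfold SmC_ind
  rw [Finset.sum_ite_eq]

private theorem SmC_cnt {O : Type} [Fintype O] [DecidableEq O] {m : ℕ}
    (T : Finset (O → ZMod 2)) (c : Cd O m) : (cnt c T : ℝ) = ∑ u, SmC_ind T c u := by
  unfold cnt
  simp only [SmC_ind_eq]
  rw [Finset.sum_boole]
  congr

private theorem SmC_one (hA : StFbA) {O : Type} [Fintype O] [DecidableEq O] {m : ℕ}
    (T : Finset (O → ZMod 2)) (u : Fin m → ZMod 2) :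
    ∑ c : Cd O m, SmC_ind T c u =
      (T.card : ℝ) * ((Fintype.card (Cd O m) : ℝ) / 2 ^ Fintype.card O) := by
  unfold SmC_ind
  rw [Finset.sum_comm]
  have h1 : ∀ w ∈ T, ∑ c : Cd O m, (if word c u = w then (1 : ℝ) else 0) =
      (Fintype.card (Cd O m) : ℝ) / 2 ^ Fintype.card O := by
    intro w _
    have h2 := hA O m u w
    rw [Finset.sum_boole, eq_div_iff (by positivity)]
    exact_mod_cast h2
  rw [Finset.sum_congr rfl h1, Finset.sum_const, nsmul_eq_mul]

private theorem SmC_two (hB : StFbB) {O : Type} [Fintype O] [DecidableEq O] {m : ℕ}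
    (T : Finset (O → ZMod 2)) (u u' : Fin m → ZMod 2) (hu : u ≠ u') :
    ∑ c : Cd O m, SmC_ind T c u * SmC_ind T c u' =
      (T.card : ℝ) ^ 2 * ((Fintype.card (Cd O m) : ℝ) / (2 ^ Fintype.card O) ^ 2) := by
  have h0 : ∀ c : Cd O m, SmC_ind T c u * SmC_ind T c u' =
      ∑ w ∈ T, ∑ w' ∈ T, if word c u = w ∧ word c u' = w' then (1 : ℝ) else 0 := by
    intro c
    unfold SmC_ind
    rw [Finset.sum_mul_sum]
    refine Finset.sum_congr rfl fun w _ => Finset.sum_congr rfl fun w' _ => ?_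
    by_cases h1 : word c u = w <;> by_cases h2 : word c u' = w' <;> simp [h1, h2]
  have h1 : ∀ w ∈ T, ∀ w' ∈ T,
      ∑ c : Cd O m, (if word c u = w ∧ word c u' = w' then (1 : ℝ) else 0) =
      (Fintype.card (Cd O m) : ℝ) / (2 ^ Fintype.card O) ^ 2 := by
    intro w _ w' _
    have h2 := hB O m u u' hu w w'
    rw [Finset.sum_boole, eq_div_iff (by positivity)]
    exact_mod_cast h2
  calc ∑ c : Cd O m, SmC_ind T c u * SmC_ind T c u'
      = ∑ c : Cd O m, ∑ w ∈ T, ∑ w' ∈ T,
          (if word c u = w ∧ word c u' = w' then (1 : ℝ) else 0) :=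
        Finset.sum_congr rfl fun c _ => h0 c
    _ = ∑ w ∈ T, ∑ c : Cd O m, ∑ w' ∈ T,
          (if word c u = w ∧ word c u' = w' then (1 : ℝ) else 0) := Finset.sum_comm
    _ = ∑ w ∈ T, ∑ w' ∈ T, ∑ c : Cd O m,
          (if word c u = w ∧ word c u' = w' then (1 : ℝ) else 0) :=
        Finset.sum_congr rfl fun w _ => Finset.sum_comm
    _ = ∑ w ∈ T, ∑ w' ∈ T, (Fintype.card (Cd O m) : ℝ) / (2 ^ Fintype.card O) ^ 2 :=
        Finset.sum_congr rfl fun w hw => Finset.sum_congr rfl fun w' hw' => h1 w hw w' hw'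
    _ = _ := by
        rw [Finset.sum_const, Finset.sum_const, nsmul_eq_mul, nsmul_eq_mul]
        ring

private theorem SmC_sq {O : Type} [Fintype O] [DecidableEq O] {m : ℕ}
    (T : Finset (O → ZMod 2)) (c : Cd O m) (u : Fin m → ZMod 2) :
    SmC_ind T c u * SmC_ind T c u = SmC_ind T c u := by
  rw [SmC_ind_eq]
  split_ifs <;> simp

/-- **SmC.** -/
theorem pr_SmC : StSmC := by
  intro hA hB O _ _ m T
  set n : ℝ := (Fintype.card (Cd O m) : ℝ) with hn
  set W : ℝ := (2 : ℝ) ^ Fintype.card O with hW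
  have hW0 : 0 < W := by positivity
  have hmu : mu m T = (2 : ℝ) ^ m * (T.card : ℝ) / W := rfl
  have hcard : ((Finset.univ : Finset (Fin m → ZMod 2)).card : ℝ) = (2 : ℝ) ^ m := by
    rw [Finset.card_univ, Fintype.card_pi]
    simp [ZMod.card]
  -- the first moment
  have e1 : ∑ c : Cd O m, (cnt c T : ℝ) = n * mu m T := by
    calc ∑ c : Cd O m, (cnt c T : ℝ) = ∑ c : Cd O m, ∑ u, SmC_ind T c u :=
          Finset.sum_congr rfl fun c _ => SmC_cnt T c
      _ = ∑ u, ∑ c : Cd O m, SmC_ind T c u := Finset.sum_comm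
      _ = ∑ _u : Fin m → ZMod 2, (T.card : ℝ) * (n / W) :=
          Finset.sum_congr rfl fun u _ => SmC_one hA T u
      _ = n * mu m T := by
          rw [Finset.sum_const, nsmul_eq_mul, hcard, hmu]
          ring
  -- the second moment
  have e2 : ∑ c : Cd O m, (cnt c T : ℝ) ^ 2 ≤ n * mu m T + n * mu m T ^ 2 := by
    have hb : ∀ u u' : Fin m → ZMod 2, ∑ c : Cd O m, SmC_ind T c u * SmC_ind T c u' ≤
        (if u = u' then (T.card : ℝ) * (n / W) else 0) + (T.card : ℝ) ^ 2 * (n / W ^ 2) := by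
      intro u u'
      by_cases h : u = u'
      · subst h
        rw [if_pos rfl]
        have h1 : ∑ c : Cd O m, SmC_ind T c u * SmC_ind T c u = (T.card : ℝ) * (n / W) := by
          rw [Finset.sum_congr rfl fun c _ => SmC_sq T c u]
          exact SmC_one hA T u
        rw [h1]
        have h2 : 0 ≤ (T.card : ℝ) ^ 2 * (n / W ^ 2) := by positivity
        linarith
      · rw [if_neg h, zero_add]
        exact (SmC_two hB T u u' h).le
    calc ∑ c : Cd O m, (cnt c T : ℝ) ^ 2
        = ∑ c : Cd O m, ∑ u, ∑ u', SmC_ind T c u * SmC_ind T c u' := by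
          refine Finset.sum_congr rfl fun c _ => ?_
          rw [SmC_cnt, pow_two, Finset.sum_mul_sum]
      _ = ∑ u, ∑ c : Cd O m, ∑ u', SmC_ind T c u * SmC_ind T c u' := Finset.sum_comm
      _ = ∑ u, ∑ u', ∑ c : Cd O m, SmC_ind T c u * SmC_ind T c u' :=
          Finset.sum_congr rfl fun u _ => Finset.sum_comm
      _ ≤ ∑ u : Fin m → ZMod 2, ∑ u' : Fin m → ZMod 2,
          ((if u = u' then (T.card : ℝ) * (n / W) else 0) + (T.card : ℝ) ^ 2 * (n / W ^ 2)) :=
          Finset.sum_le_sum fun u _ => Finset.sum_le_sum fun u' _ => hb u u'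
      _ = n * mu m T + n * mu m T ^ 2 := by
          simp only [Finset.sum_add_distrib, Finset.sum_ite_eq, Finset.mem_univ, if_true,
            Finset.sum_const, nsmul_eq_mul]
          rw [hcard, hmu]
          field_simp
  have e3 : ∑ c : Cd O m, ((cnt c T : ℝ) - mu m T) ^ 2 =
      ∑ c : Cd O m, (cnt c T : ℝ) ^ 2 - 2 * mu m T * ∑ c : Cd O m, (cnt c T : ℝ) +
        n * mu m T ^ 2 := by
    have h1 : ∀ c : Cd O m, ((cnt c T : ℝ) - mu m T) ^ 2 =
        (cnt c T : ℝ) ^ 2 - 2 * mu m T * (cnt c T : ℝ) + mu m T ^ 2 := fun c => by ring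
    rw [Finset.sum_congr rfl fun c _ => h1 c, Finset.sum_add_distrib, Finset.sum_sub_distrib,
      ← Finset.mul_sum, Finset.sum_const, nsmul_eq_mul, Finset.card_univ]
  rw [e3, e1]
  nlinarith [e2]

end Pool.Agent.EV
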