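import Pool.Agent.Work.MP_71c844_lc.EV.Main
import Pool.Agent.Work.MP_71c844_lc.EV.I_GaY
import Pool.Agent.Work.MP_71c844_lc.EV.I_GaN
import Pool.Agent.Work.MP_71c844_lc.EV.I_Em
import Pool.Agent.Work.MP_71c844_lc.EV.I_InB
import Pool.Agent.Work.MP_71c844_lc.EV.I_InS
import Pool.Agent.Work.MP_71c844_lc.EV.I_FbA
import Pool.Agent.Work.MP_71c844_lc.EV.I_FbB
import Pool.Agent.Work.MP_71c844_lc.EV.I_SmC
import Pool.Agent.Work.MP_71c844_lc.EV.I_ChC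
import Pool.Agent.Work.MP_71c844_lc.EV.I_PiT
import Pool.Agent.Work.MP_71c844_lc.EV.I_Cod
import Pool.Agent.Work.MP_71c844_lc.EV.I_Pf
import Pool.Agent.Work.MP_71c844_lc.EV.I_Pe
import Pool.Agent.Work.MP_71c844_lc.EV.I_Mv
import Pool.Agent.Work.MP_71c844_lc.EV.I_Lg
import Pool.Agent.Work.MP_71c844_lc.EV.I_Sg
import Pool.Agent.Work.MP_71c844_lc.EV.I_CdB
import Pool.Agent.Work.MP_71c844_lc.EV.I_CdS
import Pool.Agent.Work.MP_71c844_lc.EV.I_MxD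
import Pool.Agent.Work.MP_71c844_lc.EV.I_MxC

/-!
# Block EV: all items
-/

namespace Pool.Agent.EV

theorem items : Items :=
  ⟨pr_GaY, pr_GaN, pr_Em, pr_InB, pr_InS, pr_FbA, pr_FbB, pr_SmC, pr_ChC, pr_PiT, pr_Cod, pr_Pf,
    pr_Pe, pr_Mv, pr_Lg, pr_Sg, pr_CdB, pr_CdS, pr_MxD, pr_MxC⟩

end Pool.Agent.EV
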