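import Pool.Agent.Work.MP_71c844_lc.EV.Defs

/-!
# Block EV: the abstract lower bounds
-/

namespace Pool.Agent.EV

open Finset Pool.Agent.LayCirc
open Pool.Agent.NegLim (pull gph gval numNot lowSets mapVar Dich)

set_option linter.unusedSectionVars false

section abs

variable {ι : Type} {s : ℕ} {E : Type*} [Fintype E] [DecidableEq E]
variable {U : Type*} [Fintype U] [Nonempty U]

open Classical in
/-- The abstract lower bound for patterns along sequences of projected inputs. -/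
theorem pat_bound {b ℓ K R N P : ℕ} {q : ℝ} {Y : U → Finset E} (hb : 1 ≤ b)
    (hℓ : 2 * b < 2 ^ ℓ) (hK : 1 ≤ K) (hq : 64 * 2 ^ K ≤ q)
    (hY : ∀ A : Finset E, A.card ≤ 2 * b →
      ((univ.filter (fun u => A ⊆ Y u)).card : ℝ) ≤ Fintype.card U * (1 / q) ^ A.card)
    (hN : ∀ u, N ≤ (Y u).card) (hU : 2 * Fintype.card U ≤ 2 ^ N)
    (π : ι → Bool ⊕ E) (c : Circuit ι s) (o : Fin s)
    (hc : ∀ X : Finset E, val c (inp π X) o = true ↔ ∃ u, Y u ⊆ X)
    (hP1 : 1 ≤ P)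
    (hP : ∀ X : ℕ → Finset E, Monotone X →
      (Set.range (fun i => pattern c (inp π (X i)))).ncard ≤ P)
    (hS : 2 * s ≤ 2 ^ b)
    (hSR : 2 ^ K * ((2 * s + 1) * (lowSets E b).card) ≤ 2 ^ R) (hR : 1 ≤ R)
    (hℓ1 : 1 ≤ ℓ) :
    2 ^ K ≤ 44 * K * (ℓ * R * P) := by
  set W : ℝ := ((lowSets E b).card : ℝ) with hW
  set ε : ℝ := (((2 * s : ℕ) : ℝ) + 1) * (W * (1 / 2) ^ R) with hε
  have hε0 : 0 ≤ ε := by positivity
  have hmε : (2 : ℝ) ^ K * ε ≤ 1 := by
    have e1 : ((2 : ℝ) ^ K * ((((2 * s : ℕ) : ℝ) + 1) * W)) ≤ 2 ^ R := by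
      rw [hW]; exact_mod_cast hSR
    rw [hε]
    have e4 : (1 / 2 : ℝ) ^ R = 1 / 2 ^ R := by rw [div_pow, one_pow]
    rw [e4]
    have : (2 : ℝ) ^ K * ((((2 * s : ℕ) : ℝ) + 1) * (W * (1 / 2 ^ R))) =
        ((2 : ℝ) ^ K * ((((2 * s : ℕ) : ℝ) + 1) * W)) / 2 ^ R := by
      ring
    rw [this, div_le_one (by positivity)]
    exact e1
  refine NegLim.main_single (E := E) (U := U) (H := Fin s → Bool) (b := 4)
    (K := K) (N := N) (R := ℓ * R) (P := P) (q := q) (ε := ε) (Y := Y)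
    (by norm_num) hK (by push_cast; linarith) hε0 hmε hN hU
    (Nat.one_le_iff_ne_zero.mpr (by positivity)) hP1
    (pat π c) (fun h x => gval (qry π c o h) 0 x) ?_ ?_ ?_
  · intro x hx m
    have h1 := hP x hx
    refine le_trans ?_ h1
    rw [← Set.ncard_coe_finset]
    let ext : ({j : Fin s // Fed c j} → Bool) → (Fin s → Bool) :=
      fun f j => if h : Fed c j then f ⟨j, h⟩ else false
    refine le_trans (Set.ncard_le_ncard
      (t := ext '' (Set.range (fun i => pattern c (inp π (x i)))))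
      ?_ (Set.toFinite _)) (Set.ncard_image_le (Set.toFinite _))
    intro f hf
    obtain ⟨i, _, rfl⟩ := (@Finset.mem_image _ _
      (fun a b => Classical.propDecidable (a = b)) _ _ _).mp (Finset.mem_coe.mp hf)
    refine ⟨pattern c (inp π (x i)), ⟨i, rfl⟩, ?_⟩
    funext j
    simp only [ext, pattern, pat]
    by_cases h : Fed c j
    · rw [dif_pos h, if_pos h]
    · rw [dif_neg h, if_neg h]
  · intro h
    exact Rec82.dich_circuit (E := E) (U := U) (b := b) (ℓ := ℓ) (K := K) (R := R) (q := q)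
      (Y := Y) hb hℓ hq hY (qry π c o h) (numNot_qry π c o h) 0 (2 * s) (size_qry π c o h) hS
  · intro x hx
    have hX : val c (inp π x) o = false := by
      rw [Bool.eq_false_iff]
      intro h
      exact hx ((hc x).mp h)
    refine ⟨(pat_cover π c o x x (Finset.Subset.refl _) hX).1, fun u => ?_⟩
    exact (pat_cover π c o x (x ∪ Y u) Finset.subset_union_left hX).2
      ((hc _).mpr ⟨u, Finset.subset_union_right⟩)

end abs

section core

variable {N σ κ m v k b s : ℕ} {T : Fin N → Finset (Fin σ → Fin κ → ZMod 2)}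
  {c : Cd ((Fin N × Fin σ) × Fin κ) m}

open Classical in
/-- The properties of the code. -/
structure CodeData (N b σ κ m : ℕ) (T : Fin N → Finset (Fin σ → Fin κ → ZMod 2))
    (c : Cd ((Fin N × Fin σ) × Fin κ) m) (q : ℝ) : Prop where
  ne : ∃ u, ∀ j, sy c u j ∈ T j
  two : 2 * (univ.filter (fun u => ∀ j, sy c u j ∈ T j)).card ≤ 2 ^ N
  spread : ∀ A : Finset (Fin N × (Fin σ → Fin κ → ZMod 2)), A.card ≤ 2 * b →
    ((univ.filter (fun u => (∀ j, sy c u j ∈ T j) ∧ ∀ p ∈ A, sy c u p.1 = p.2)).card : ℝ) ≤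
      ((univ.filter (fun u => ∀ j, sy c u j ∈ T j)).card : ℝ) * (1 / q) ^ A.card

/-- the seeds of the code -/
abbrev Us (T : Fin N → Finset (Fin σ → Fin κ → ZMod 2)) (c : Cd ((Fin N × Fin σ) × Fin κ) m) :
    Type := {u : Fin m → ZMod 2 // ∀ j, sy c u j ∈ T j}

open Classical in
/-- the planted sets -/
noncomputable def Yp (T : Fin N → Finset (Fin σ → Fin κ → ZMod 2))
    (c : Cd ((Fin N × Fin σ) × Fin κ) m) (u : Us T c) :
    Finset (Fin N × (Fin σ → Fin κ → ZMod 2)) :=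
  univ.image (fun j => (j, sy c u.1 j))

lemma subset_Yp (A : Finset (Fin N × (Fin σ → Fin κ → ZMod 2))) (u : Us T c) :
    A ⊆ Yp T c u ↔ ∀ p ∈ A, sy c u.1 p.1 = p.2 := by
  classical
  unfold Yp
  constructor
  · intro h p hp
    have := h hp
    rw [Finset.mem_image] at this
    obtain ⟨j, _, hj⟩ := this
    rw [← hj]
  · intro h p hp
    rw [Finset.mem_image]
    exact ⟨p.1, mem_univ _, by rw [h p hp]⟩

lemma Yp_subset (X : Finset (Fin N × (Fin σ → Fin κ → ZMod 2))) (u : Us T c) :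
    Yp T c u ⊆ X ↔ ∀ j, (j, sy c u.1 j) ∈ X := by
  classical
  unfold Yp
  rw [Finset.image_subset_iff]
  exact ⟨fun h j => h j (mem_univ j), fun h j _ => h j⟩

lemma card_Yp (u : Us T c) : (Yp T c u).card = N := by
  classical
  unfold Yp
  rw [Finset.card_image_of_injective, Finset.card_univ, Fintype.card_fin]
  intro i j hij
  exact (Prod.mk.inj hij).1

open Classical in
lemma CodeData.hY {q : ℝ} (D : CodeData N b σ κ m T c q)
    (A : Finset (Fin N × (Fin σ → Fin κ → ZMod 2))) (hA : A.card ≤ 2 * b) :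
    ((univ.filter (fun u : Us T c => A ⊆ Yp T c u)).card : ℝ) ≤
      Fintype.card (Us T c) * (1 / q) ^ A.card := by
  have h1 : (univ.filter (fun u : Us T c => A ⊆ Yp T c u)).card =
      (univ.filter (fun u => (∀ j, sy c u j ∈ T j) ∧ ∀ p ∈ A, sy c u p.1 = p.2)).card := by
    refine Finset.card_bij (fun u _ => u.1) ?_ ?_ ?_
    · intro u hu
      rw [Finset.mem_filter] at hu ⊢
      exact ⟨mem_univ _, u.2, (subset_Yp A u).mp hu.2⟩
    · intro u _ u' _ h
      exact Subtype.ext h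
    · intro u hu
      rw [Finset.mem_filter] at hu
      refine ⟨⟨u, hu.2.1⟩, ?_, rfl⟩
      rw [Finset.mem_filter]
      exact ⟨mem_univ _, (subset_Yp A _).mpr hu.2.2⟩
  have h2 : Fintype.card (Us T c) = (univ.filter (fun u => ∀ j, sy c u j ∈ T j)).card := by
    rw [Fintype.card_subtype]
  rw [h1, h2]
  exact D.spread A hA

lemma CodeData.hU {q : ℝ} (D : CodeData N b σ κ m T c q) :
    2 * Fintype.card (Us T c) ≤ 2 ^ N := by
  classical
  have h2 : Fintype.card (Us T c) = (univ.filter (fun u => ∀ j, sy c u j ∈ T j)).card := by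
    rw [Fintype.card_subtype]
  rw [h2]
  exact D.two

lemma CodeData.nonempty {q : ℝ} (D : CodeData N b σ κ m T c q) : Nonempty (Us T c) :=
  ⟨⟨D.ne.choose, D.ne.choose_spec⟩⟩

/-- the planted sets and the cliques -/
lemma planted_iff {π : Sym2 (Fin v) → Bool ⊕ (Fin N × (Fin σ → Fin κ → ZMod 2))}
    (hπ : ∀ x : Fin N × (Fin σ → Fin κ → ZMod 2) → Bool, (¬ (gph (pull π x)).CliqueFree k ↔
      ∃ u, (∀ j, sy c u j ∈ T j) ∧ ∀ j, x (j, sy c u j) = true))
    (X : Finset (Fin N × (Fin σ → Fin κ → ZMod 2))) :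
    ¬ (SimpleGraph.fromEdgeSet {e | inp π X e = true}).CliqueFree k ↔
      ∃ u : Us T c, Yp T c u ⊆ X := by
  refine (hπ (fun e => decide (e ∈ X))).trans ?_
  constructor
  · rintro ⟨u, hu, hX⟩
    refine ⟨⟨u, hu⟩, (Yp_subset X _).mpr fun j => ?_⟩
    have := hX j
    rwa [decide_eq_true_eq] at this
  · rintro ⟨u, hu⟩
    refine ⟨u.1, u.2, fun j => ?_⟩
    rw [decide_eq_true_eq]
    exact (Yp_subset X u).mp hu j

/-- the size of the family of small sets -/
lemma card_low_le (b : ℕ) {B : ℕ} (hB : N * 2 ^ (σ * κ) + 1 ≤ B) :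
    (lowSets (Fin N × (Fin σ → Fin κ → ZMod 2)) b).card ≤ B ^ (2 * b) := by
  have h1 := NegLim.card_lowSets_le (E := Fin N × (Fin σ → Fin κ → ZMod 2)) b
  have h2 : Fintype.card (Fin N × (Fin σ → Fin κ → ZMod 2)) = N * 2 ^ (σ * κ) := by
    simp only [Fintype.card_prod, Fintype.card_fin, Fintype.card_pi, Finset.prod_const,
      Finset.card_univ, ZMod.card]
    rw [← pow_mul, mul_comm κ σ]
  rw [h2] at h1
  exact h1.trans (Nat.pow_le_pow_left hB _)

/-- The bound for patterns. -/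
lemma core_pat {K ℓ R M B : ℕ} {q : ℝ} (D : CodeData N b σ κ m T c q)
    {π : Sym2 (Fin v) → Bool ⊕ (Fin N × (Fin σ → Fin κ → ZMod 2))}
    (hπ : ∀ x : Fin N × (Fin σ → Fin κ → ZMod 2) → Bool, (¬ (gph (pull π x)).CliqueFree k ↔
      ∃ u, (∀ j, sy c u j ∈ T j) ∧ ∀ j, x (j, sy c u j) = true))
    (hb : 1 ≤ b) (hℓ : 2 * b < 2 ^ ℓ) (hK : 1 ≤ K) (hq : 64 * 2 ^ K ≤ q)
    (C : Circuit (Sym2 (Fin v)) s) (o : Fin s)
    (hC : ∀ x : Sym2 (Fin v) → Bool, val C x o = true ↔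
      ¬ (SimpleGraph.fromEdgeSet {e | x e = true}).CliqueFree k)
    (hM1 : 1 ≤ M)
    (hM : ∀ X : ℕ → Finset (Fin N × (Fin σ → Fin κ → ZMod 2)), Monotone X →
      (Set.range (fun i => pattern C (inp π (X i)))).ncard ≤ M)
    (hS : 2 * s ≤ 2 ^ b) (hB : N * 2 ^ (σ * κ) + 1 ≤ B)
    (hSR : 2 ^ K * ((2 * s + 1) * B ^ (2 * b)) ≤ 2 ^ R) (hR : 1 ≤ R) (hℓ1 : 1 ≤ ℓ) :
    2 ^ K ≤ 44 * K * (ℓ * R * M) := by
  classical
  have : Nonempty (Us T c) := D.nonempty
  refine pat_bound (E := Fin N × (Fin σ → Fin κ → ZMod 2)) (U := Us T c) (b := b) (ℓ := ℓ)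
    (K := K) (R := R) (N := N) (P := M) (q := q) (Y := Yp T c) hb hℓ hK hq
    (fun A hA => by convert D.hY A hA) (fun u => (card_Yp u).ge) D.hU π C o ?_ hM1 hM hS ?_ hR hℓ1
  · intro X
    rw [hC]
    exact planted_iff hπ X
  · refine le_trans ?_ hSR
    apply Nat.mul_le_mul_left
    apply Nat.mul_le_mul_left
    exact card_low_le b hB

/-- The bound for families. -/
lemma core_fam {K ℓ R S B : ℕ} {q : ℝ} (D : CodeData N b σ κ m T c q)
    {π : Sym2 (Fin v) → Bool ⊕ (Fin N × (Fin σ → Fin κ → ZMod 2))}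
    (hπ : ∀ x : Fin N × (Fin σ → Fin κ → ZMod 2) → Bool, (¬ (gph (pull π x)).CliqueFree k ↔
      ∃ u, (∀ j, sy c u j ∈ T j) ∧ ∀ j, x (j, sy c u j) = true))
    (hb : 1 ≤ b) (hℓ : 2 * b < 2 ^ ℓ) (hK : 1 ≤ K) (hq : 64 * 2 ^ K ≤ q)
    {Θ : Type} [Fintype Θ] (g : Θ → List (NegLim.Gate (Sym2 (Fin v)))) (hg : ∀ t, numNot (g t) = 0)
    (hgS : ∀ t, NegLim.size (g t) ≤ S)
    (hout : ∀ X Y : Finset (Fin N × (Fin σ → Fin κ → ZMod 2)),
      (∀ t, NegLim.output (g t) (inp π X) = NegLim.output (g t) (inp π Y)) →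
      (¬ (SimpleGraph.fromEdgeSet {e | inp π X e = true}).CliqueFree k ↔
        ¬ (SimpleGraph.fromEdgeSet {e | inp π Y e = true}).CliqueFree k))
    (hS : S ≤ 2 ^ b) (hB : N * 2 ^ (σ * κ) + 1 ≤ B)
    (hSR : 2 ^ K * ((S + 1) * B ^ (2 * b)) ≤ 2 ^ R) (hR : 1 ≤ R) (hℓ1 : 1 ≤ ℓ) :
    2 ^ K ≤ 44 * K * (Fintype.card Θ * (ℓ * R)) := by
  classical
  have : Nonempty (Us T c) := D.nonempty
  refine family_bound (E := Fin N × (Fin σ → Fin κ → ZMod 2)) (U := Us T c) (T := Θ) (b := b)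
    (ℓ := ℓ) (K := K) (R := R) (N := N) (S := S) (q := q) (Y := Yp T c) hb hℓ hK hq
    (fun A hA => by convert D.hY A hA) (fun u => (card_Yp u).ge) D.hU
    (fun t => mapVar π (g t)) (fun t => by rw [NegLim.numNot_mapVar]; exact hg t)
    (fun t => by rw [NegLim.size_mapVar]; exact hgS t) ?_ hS ?_ hR hℓ1
  · intro X Y h
    rw [← planted_iff hπ X, ← planted_iff hπ Y]
    apply hout
    intro t
    have h1 : ∀ Z : Finset (Fin N × (Fin σ → Fin κ → ZMod 2)), gval (mapVar π (g t)) 0 Z =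
        NegLim.output (g t) (inp π Z) := fun Z =>
      NegLim.output_mapVar π (fun e => decide (e ∈ Z)) (g t)
    rw [← h1, ← h1]
    exact h t
  · refine le_trans ?_ hSR
    apply Nat.mul_le_mul_left
    apply Nat.mul_le_mul_left
    exact card_low_le b hB

end core

end Pool.Agent.EV
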