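import Pool.Agent.Work.MP_71c844_lc.RecFamily
import Pool.Agent.Work.MP_71c844_lc.FormCore

/-!
# Block EV: every set of variables of CLIQUE counts

Definitions.

* Affine codes over `ZMod 2` (`Cd`, `word`, `psum`, `lw`, `sy`).
* The gadget `Gad`: a multipartite graph in which the cliques that meet all parts correspond to the
  codewords. The parts are: for every output bit and every seed bit a part with four vertices (a
  partial sum and a seed bit), for every block a part with arbitrary vertices (with different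
  labels), and `d` universal vertices. Some pairs of vertices carry variables (`endL`, `endR`), some
  pairs of block vertices are never adjacent (`zero`).
* The sets of symbols `TB` (pairs of labels of the edges of `F` between two classes) and `TS`.
* Gates that read a set `F` of variables (`Reads`), and the numbers `wiresF`, `numMixingF`.
-/

namespace Pool.Agent.EV

open Finset
open Pool.Agent.NegLim (pull gph)

/-- Affine codes over `ZMod 2` with `m` seed bits and output bits `O`. -/
abbrev Cd (O : Type) (m : ℕ) : Type := (O → Fin m → ZMod 2) × (O → ZMod 2)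

/-- the codeword of the seed `u` -/
def word {O : Type} {m : ℕ} (c : Cd O m) (u : Fin m → ZMod 2) : O → ZMod 2 :=
  fun o => c.2 o + ∑ i, c.1 o i * u i

/-- partial sums -/
def psum {O : Type} {m : ℕ} (c : Cd O m) (u : Fin m → ZMod 2) (o : O) (l : ℕ) : ZMod 2 :=
  c.2 o + ∑ i ∈ univ.filter (fun i : Fin m => i.1 < l), c.1 o i * u i

open Classical in
/-- number of seeds whose codeword is in `T` -/
noncomputable def cnt {O : Type} {m : ℕ} (c : Cd O m) (T : Finset (O → ZMod 2)) : ℕ :=
  (univ.filter (fun u : Fin m → ZMod 2 => word c u ∈ T)).card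

/-- the expected value of `cnt c T` for a random code `c` -/
noncomputable def mu {O : Type} [Fintype O] (m : ℕ) (T : Finset (O → ZMod 2)) : ℝ :=
  (2 : ℝ) ^ m * (T.card : ℝ) / (2 : ℝ) ^ Fintype.card O

/-- the label of the block `β` in the codeword of `u` -/
def lw {Bl : Type} {κ m : ℕ} (c : Cd (Bl × Fin κ) m) (u : Fin m → ZMod 2) (β : Bl) :
    Fin κ → ZMod 2 :=
  fun t => word c u (β, t)

/-- the symbol at the position `j` in the codeword of `u` -/
def sy {N σ κ m : ℕ} (c : Cd ((Fin N × Fin σ) × Fin κ) m) (u : Fin m → ZMod 2) (j : Fin N) :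
    Fin σ → Fin κ → ZMod 2 :=
  fun s t => word c u ((j, s), t)

/-- The data of the gadget. -/
structure Gad (Bl Bv E : Type) (κ m d : ℕ) where
  /-- the code -/
  c : Cd (Bl × Fin κ) m
  /-- the block of a block vertex -/
  blk : Bv → Bl
  /-- the label of a block vertex -/
  lab : Bv → Fin κ → ZMod 2
  /-- one end of the pair that carries a variable -/
  endL : E → Bv ⊕ Fin d
  /-- the other end -/
  endR : E → Bv ⊕ Fin d
  /-- pairs of block vertices which are never adjacent -/
  zero : Bv → Bv → Prop
  lab_inj : ∀ w w', blk w = blk w' → lab w = lab w' → w = w'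
  end_ne : ∀ t, Sum.map blk id (endL t) ≠ Sum.map blk id (endR t)
  end_uniq : ∀ t t', s(endL t, endR t) = s(endL t', endR t') → t = t'
  zero_symm : ∀ a b, zero a b → zero b a
  zero_blk : ∀ a b, zero a b → blk a ≠ blk b
  zero_var : ∀ a b, zero a b → ∀ t, s(endL t, endR t) ≠ s(Sum.inl a, Sum.inl b)

/-- the parts -/
abbrev Pt (Bl : Type) (κ m d : ℕ) : Type := ((Bl × Fin κ) × Fin m) ⊕ (Bl ⊕ Fin d)

/-- the vertices -/
abbrev Vx (Bl Bv : Type) (κ m d : ℕ) : Type :=
  (((Bl × Fin κ) × Fin m) × (ZMod 2 × ZMod 2)) ⊕ (Bv ⊕ Fin d)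

namespace Gad

variable {Bl Bv E : Type} {κ m d : ℕ}

/-- the part of a vertex -/
def part (A : Gad Bl Bv E κ m d) : Vx Bl Bv κ m d → Pt Bl κ m d
  | .inl a => .inl a.1
  | .inr b => .inr (Sum.map A.blk id b)

/-- the vertex is consistent with the seed `u` -/
def Cons (A : Gad Bl Bv E κ m d) (u : Fin m → ZMod 2) : Vx Bl Bv κ m d → Prop
  | .inl a => psum A.c u a.1.1 a.1.2.1 = a.2.1 ∧ u a.1.2 = a.2.2
  | .inr (.inl w) => A.lab w = lw A.c u (A.blk w)
  | .inr (.inr _) => True

/-- pairs which are never adjacent -/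
def Zr (A : Gad Bl Bv E κ m d) : Vx Bl Bv κ m d → Vx Bl Bv κ m d → Prop
  | .inr (.inl a), .inr (.inl b) => A.zero a b
  | _, _ => False

/-- the fixed adjacency -/
def fixAdj (A : Gad Bl Bv E κ m d) (a b : Vx Bl Bv κ m d) : Prop :=
  A.part a ≠ A.part b ∧ ¬ A.Zr a b ∧ ∃ u, A.Cons u a ∧ A.Cons u b

open Classical in
/-- the projection: every pair of vertices is a variable or a constant -/
noncomputable def proj (A : Gad Bl Bv E κ m d) {v : ℕ} (ι : Vx Bl Bv κ m d ↪ Fin v)
    (e : Sym2 (Fin v)) : Bool ⊕ E :=
  if h : ∃ t : E, e = s(ι (.inr (A.endL t)), ι (.inr (A.endR t))) then .inr h.choose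
  else .inl (decide (∃ a b : Vx Bl Bv κ m d, e = s(ι a, ι b) ∧ A.fixAdj a b))

/-- seeds whose labels all belong to block vertices, no two of which are never adjacent -/
def Good (A : Gad Bl Bv E κ m d) (u : Fin m → ZMod 2) : Prop :=
  (∀ β, ∃ w, A.blk w = β ∧ A.lab w = lw A.c u β) ∧
    ∀ w w', A.lab w = lw A.c u (A.blk w) → A.lab w' = lw A.c u (A.blk w') → ¬ A.zero w w'

end Gad

open Classical in
/-- words whose symbols are in the sets `T j` and which have the prescribed symbols `A` -/
noncomputable def TA {N σ κ : ℕ} (T : Fin N → Finset (Fin σ → Fin κ → ZMod 2))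
    (A : Finset (Fin N × (Fin σ → Fin κ → ZMod 2))) :
    Finset (((Fin N × Fin σ) × Fin κ) → ZMod 2) :=
  univ.filter (fun w => (∀ j, (fun s t => w ((j, s), t)) ∈ T j) ∧
    ∀ p ∈ A, (fun s t => w ((p.1, s), t)) = p.2)

open Classical in
/-- pairs of labels of the edges of `F` between the two classes of the position `j` -/
noncomputable def TB {v N L : ℕ} (F : Finset (Sym2 (Fin v)))
    (χ : Fin v → Option (Fin N × Fin 2)) (lam : Fin v ↪ (Fin L → ZMod 2)) (j : Fin N) :
    Finset (Fin 2 → Fin L → ZMod 2) :=
  univ.filter (fun p => ∃ x y, s(x, y) ∈ F ∧ χ x = some (j, 0) ∧ χ y = some (j, 1) ∧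
    p 0 = lam x ∧ p 1 = lam y)

open Classical in
/-- labels of the vertices of the class of the position `j` -/
noncomputable def TS {v N L : ℕ} (χ : Fin v → Option (Fin N)) (lam : Fin v ↪ (Fin L → ZMod 2))
    (j : Fin N) : Finset (Fin 1 → Fin L → ZMod 2) :=
  univ.filter (fun p => ∃ x, χ x = some j ∧ p 0 = lam x)

/-- the pair `e` joins the two classes number `i` of `χ` -/
def gd {v M : ℕ} (χ : Fin v → Fin M × Fin 2) (i : Fin M) (e : Sym2 (Fin v)) : Prop :=
  ∃ x y, e = s(x, y) ∧ χ x = (i, 0) ∧ χ y = (i, 1)

section reads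

open Pool.Agent.LayCirc

variable {ι : Type} {s : ℕ}

/-- Gate number `i` reads `F`: a path of the circuit leads from an input gate with a variable of
`F` to gate number `i`. -/
inductive Reads (c : Circuit ι s) (F : Finset ι) : Fin s → Prop
  | var (i : Fin s) (e : ι) (h : c i = .var e) (he : e ∈ F) : Reads c F i
  | step (i j : Fin s) (h : j ∈ inputs c i) (hj : Reads c F j) : Reads c F i

open Classical in
/-- The number of inputs of arbitrary gates which read `F`. -/
noncomputable def wiresF (c : Circuit ι s) (F : Finset ι) : ℕ :=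
  ∑ i ∈ Finset.univ.filter (fun i => Arb c i), ((inputs c i).filter (fun j => Reads c F j)).length

open Classical in
/-- The number of mixing gates which read `F`. -/
noncomputable def numMixingF (c : Circuit ι s) (F : Finset ι) : ℕ :=
  (Finset.univ.filter fun i => Mixing c i ∧ Reads c F i).card

end reads

end Pool.Agent.EV
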