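import Pool.Agent.Work.MP_71c844_lc.EV.Stmts

/-!
# Block EV, item ChC: Chebyshev's inequality for random affine codes
-/

namespace Pool.Agent.EV

open Finset
open Pool.Agent.NegLim (pull gph)
open Pool.Agent.LayCirc

private lemma ChC_dev (μ x : ℝ) (hμ : 0 < μ) (h : ¬ (μ / 2 ≤ x ∧ x ≤ 3 / 2 * μ)) :
    μ ^ 2 / 4 ≤ (x - μ) ^ 2 := by
  have h1 : μ / 2 ≤ |x - μ| := by
    by_contra h2
    push Not at h2
    rw [abs_lt] at h2
    exact h ⟨by linarith [h2.1], by linarith [h2.2]⟩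
  calc μ ^ 2 / 4 = (μ / 2) ^ 2 := by ring
    _ ≤ |x - μ| ^ 2 := pow_le_pow_left₀ (by positivity) h1 2
    _ = (x - μ) ^ 2 := sq_abs _

theorem pr_ChC : StChC := by
  classical
  intro hA hB hS O _ _ m J _ T hT
  by_contra hcon
  push Not at hcon
  have hc0 : Nonempty (Cd O m) := inferInstance
  have hn : 0 < (Fintype.card (Cd O m) : ℝ) := by exact_mod_cast Fintype.card_pos
  have hμ : ∀ j, 0 < mu m (T j) := fun j => lt_of_le_of_lt (by positivity) (hT j)
  set bad : J → Finset (Cd O m) := fun j => univ.filter (fun c =>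
    ¬ (mu m (T j) / 2 ≤ (cnt c (T j) : ℝ) ∧ (cnt c (T j) : ℝ) ≤ 3 / 2 * mu m (T j))) with hbad
  have h1 : ∀ j, ((bad j).card : ℝ) * mu m (T j) ≤ 4 * (Fintype.card (Cd O m) : ℝ) := by
    intro j
    have h2 : ((bad j).card : ℝ) * (mu m (T j) ^ 2 / 4) ≤
        (Fintype.card (Cd O m) : ℝ) * mu m (T j) := by
      calc ((bad j).card : ℝ) * (mu m (T j) ^ 2 / 4)
          = ∑ c ∈ bad j, (mu m (T j) ^ 2 / 4) := by
            rw [Finset.sum_const, nsmul_eq_mul]
        _ ≤ ∑ c ∈ bad j, ((cnt c (T j) : ℝ) - mu m (T j)) ^ 2 :=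
            Finset.sum_le_sum fun c hc => ChC_dev _ _ (hμ j) (Finset.mem_filter.1 hc).2
        _ ≤ ∑ c : Cd O m, ((cnt c (T j) : ℝ) - mu m (T j)) ^ 2 :=
            Finset.sum_le_sum_of_subset_of_nonneg (Finset.subset_univ _)
              fun c _ _ => sq_nonneg _
        _ ≤ (Fintype.card (Cd O m) : ℝ) * mu m (T j) := hS hA hB O m (T j)
    have h3 := hμ j
    have h4 : (((bad j).card : ℝ) * mu m (T j)) * mu m (T j) ≤
        (4 * (Fintype.card (Cd O m) : ℝ)) * mu m (T j) := by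
      calc (((bad j).card : ℝ) * mu m (T j)) * mu m (T j)
          = 4 * (((bad j).card : ℝ) * (mu m (T j) ^ 2 / 4)) := by ring
        _ ≤ 4 * ((Fintype.card (Cd O m) : ℝ) * mu m (T j)) := by linarith
        _ = (4 * (Fintype.card (Cd O m) : ℝ)) * mu m (T j) := by ring
    exact le_of_mul_le_mul_right h4 h3
  have h2 : ∀ j, ((bad j).card : ℝ) * (Fintype.card J : ℝ) < (Fintype.card (Cd O m) : ℝ) := by
    intro j
    rcases Nat.eq_zero_or_pos (bad j).card with h | h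
    · rw [h]
      simp
    · have h3 : (0 : ℝ) < ((bad j).card : ℝ) := by exact_mod_cast h
      have h4 := mul_lt_mul_of_pos_left (hT j) h3
      have h5 := h1 j
      have h6 : ((bad j).card : ℝ) * (4 * (Fintype.card J : ℝ)) =
        4 * (((bad j).card : ℝ) * (Fintype.card J : ℝ)) := by ring
      linarith
  have h3 : (Fintype.card (Cd O m) : ℝ) ≤ ∑ j, ((bad j).card : ℝ) := by
    have h4 : (univ : Finset (Cd O m)) ⊆ univ.biUnion bad := by
      intro c _
      obtain ⟨j, hj⟩ := hcon c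
      refine Finset.mem_biUnion.2 ⟨j, Finset.mem_univ _, Finset.mem_filter.2
        ⟨Finset.mem_univ _, ?_⟩⟩
      rintro ⟨h5, h6⟩
      exact absurd h6 (not_le.2 (hj h5))
    have h5 : Fintype.card (Cd O m) ≤ ∑ j, (bad j).card :=
      le_trans (Finset.card_le_card h4) Finset.card_biUnion_le
    exact_mod_cast h5
  obtain ⟨j0, -⟩ := hcon (Classical.arbitrary _)
  have hJ : 0 < (Fintype.card J : ℝ) := by
    exact_mod_cast Fintype.card_pos_iff.2 ⟨j0⟩
  have h4 : ∑ j, ((bad j).card : ℝ) * (Fintype.card J : ℝ) <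
      ∑ _j : J, (Fintype.card (Cd O m) : ℝ) :=
    Finset.sum_lt_sum_of_nonempty ⟨j0, Finset.mem_univ _⟩ fun j _ => h2 j
  rw [← Finset.sum_mul, Finset.sum_const, nsmul_eq_mul, Finset.card_univ, mul_comm] at h4
  exact absurd h3 (not_le.2 (lt_of_mul_lt_mul_left h4 hJ.le))

end Pool.Agent.EV
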