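import Pool.Agent.Work.MP_71c844_lc.EV.Stmts

/-!
# Block EV, item MxD: gates that do not read `F` (helper59)
-/

namespace Pool.Agent.EV

open Finset
open Pool.Agent.NegLim (pull gph)
open Pool.Agent.LayCirc

/-- a gate which does not read `F` has the same frozen value for two inputs which agree outside
of `F` -/
private theorem MxD_aux {ι : Type} {s : ℕ} (c : Circuit ι s) (F : Finset ι) (x y : ι → Bool)
    (hxy : ∀ e, e ∉ F → x e = y e) (b : Bool) : ∀ (n : ℕ) (hn : n < s),
    ¬ Reads c F ⟨n, hn⟩ → val (fz c b) x ⟨n, hn⟩ = val (fz c b) y ⟨n, hn⟩ := by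
  intro n
  induction n using Nat.strong_induction_on with
  | _ n ih =>
    intro hn hR
    by_cases hcut : Cut c ⟨n, hn⟩
    · rw [val_const (fz c b) x _ (fz_cut c b hcut), val_const (fz c b) y _ (fz_cut c b hcut)]
    · rcases hc : c ⟨n, hn⟩ with e | b' | ⟨j, k⟩ | ⟨j, k⟩ | ⟨m, a, f⟩
      · rw [val_var (fz c b) x _ (by rw [fz_not c b hcut, hc]),
          val_var (fz c b) y _ (by rw [fz_not c b hcut, hc])]
        apply hxy
        intro he
        exact hR (Reads.var _ e hc he)
      · rw [val_const (fz c b) x _ (by rw [fz_not c b hcut, hc]),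
          val_const (fz c b) y _ (by rw [fz_not c b hcut, hc])]
      · rw [val_and (fz c b) x _ (by rw [fz_not c b hcut, hc]),
          val_and (fz c b) y _ (by rw [fz_not c b hcut, hc])]
        rw [ih j.1 j.2 (j.2.trans hn) (fun h => hR (Reads.step _ _ (by unfold inputs; rw [hc]; simp) h)),
          ih k.1 k.2 (k.2.trans hn) (fun h => hR (Reads.step _ _ (by unfold inputs; rw [hc]; simp) h))]
      · rw [val_or (fz c b) x _ (by rw [fz_not c b hcut, hc]),
          val_or (fz c b) y _ (by rw [fz_not c b hcut, hc])]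
        rw [ih j.1 j.2 (j.2.trans hn) (fun h => hR (Reads.step _ _ (by unfold inputs; rw [hc]; simp) h)),
          ih k.1 k.2 (k.2.trans hn) (fun h => hR (Reads.step _ _ (by unfold inputs; rw [hc]; simp) h))]
      · exact absurd (Or.inl ⟨m, a, f, hc⟩) hcut

theorem pr_MxD : StMxD := by
  intro ι s c o F x y hxy h
  apply det c o x y
  intro i hi b
  by_cases hR : Reads c F i
  · exact h i hi hR b
  · exact MxD_aux c F x y hxy b i.1 i.2 hR

end Pool.Agent.EV
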